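import Pool.Agent.NH20.NC.Ci

/-!
# The error term of the circle problem along powers with almost all exponents

`P(R)` is the error term of the circle problem and `Z(R) = P(R) / √R`.  There is a probability measure `μ` on `ℝ`
without atoms and with full support, the limit law of `Z(R)` in all windows `[R, R + H]` with `R ^ (3/4) ≤ H ≤ R`,
such that the following holds.

Let `x_n` be real numbers with `x_{n+1} ≥ x_n + δ`, `δ > 0`, and let `0 ≤ τ ≤ 1` with `x_n ^ τ = O(n)`; so `τ = 0` is
admissible for all separated sequences, and `τ = 1` if `x_n = O(n)`.  Let `h_1, …, h_r` be real and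
`s_1, …, s_r ∈ {1, …, k}`, such that the pairs `(h_i, s_i)` are distinct.  Then for almost all `c ∈ ℝ ^ k` with
`c_j > #{i : s_i = j} - τ` for all `j ∈ {s_1, …, s_r}` the vectors
`(Z((x_n + h_1) ^ c_{s_1}), …, Z((x_n + h_r) ^ c_{s_r}))` have the limit law `μ ⊗ … ⊗ μ` with respect to the natural
density of `n`: the averages of all continuous functions of at most quadratic growth converge to their integrals (in
particular the second moments converge), and the joint frequencies converge to the products of the values of the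
distribution function.  For the primes `x_n = p_n` the same holds with `τ = 1`.

For instance (`x_n = n`, `τ = 1`): for almost all `c > 0` the numbers `Z(n ^ c)` have the law `μ`; for almost all
`c > m - 1` the vectors `(Z(n ^ c), Z((n+1) ^ c), …, Z((n+m-1) ^ c))` behave like independent variables, and so do
the vectors `(Z(n ^ c_1), …, Z(n ^ c_k))` for almost all `(c_1, …, c_k) ∈ (0, ∞) ^ k`.  On the other hand, if
`1 - τ < c < 1`, then for almost all such `c` neighbouring values coincide asymptotically: the mean of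
`(Z((x_n + h) ^ c) - Z(x_n ^ c)) ^ 2` tends to zero.

Proof.  Let `U_M` be the truncation at frequencies `≤ M²` of the trigonometric series of `Z`.  The mean square over the
exponent `y ∈ [c, d]` of `Z(x_n ^ y) - U_M(x_n ^ y)` is small if `M` is a small power of `n`, and so the averages over
dyadic blocks of the squares tend to zero almost everywhere.  The sums of `U_M(x_n ^ y)²` over dyadic blocks and the
Weyl sums `∑ e(∑ ω_i (x_n + h_i) ^ y + λ_n)`, with arbitrary real `λ_n`, are estimated in mean square over `y` by means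
of the first derivative test for differences of phases.  For the vectors the phase is `∑ ω_i (t + h_i) ^ y`; if `l` is
minimal with `∑ ω_i h_i ^ l ≠ 0`, then its mixed derivative has exact order `t ^ (y - 1 - l) log t` by Taylor's formula.
Fubini's theorem gives the case of several exponents; the characteristic functions then converge to products.
-/

set_option autoImplicit false

open MeasureTheory Filter Topology Set

namespace Pool.Agent.Results.MP_fb29e9_nt.AlmostAllExponents

/-- the error term of the circle problem -/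
noncomputable def P (R : ℝ) : ℝ :=
  (Nat.card {p : ℤ × ℤ // (p.1 : ℝ) ^ 2 + (p.2 : ℝ) ^ 2 ≤ R ^ 2} : ℝ) - Real.pi * R ^ 2

/-- the normalized error term -/
noncomputable def Z (R : ℝ) : ℝ := P R / √R

/-- the vectors `(Z((x_n + h_i) ^ c_{s_i}))_i` have the limit law `μ ⊗ … ⊗ μ`: averages of continuous functions of at
most quadratic growth, and joint frequencies -/
def HasLaw (μ : ProbabilityMeasure ℝ) (x : ℕ → ℝ) {r k : ℕ} (h : Fin r → ℝ) (s : Fin r → Fin k) (c : Fin k → ℝ) :
    Prop :=
  (∀ f : (Fin r → ℝ) → ℝ, Continuous f → (∃ C : ℝ, ∀ v, |f v| ≤ C * (1 + ‖v‖ ^ 2)) →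
    Integrable f (Measure.pi fun _ : Fin r => (μ : Measure ℝ)) ∧
    Tendsto (fun N : ℕ => (∑ n ∈ Finset.range N, f (fun i => Z ((x n + h i) ^ (c (s i))))) / (N : ℝ)) atTop
      (𝓝 (∫ v, f v ∂(Measure.pi fun _ : Fin r => (μ : Measure ℝ))))) ∧
  (∀ u : Fin r → ℝ, Tendsto (fun N : ℕ =>
    (((Finset.range N).filter fun n : ℕ => ∀ i, Z ((x n + h i) ^ (c (s i))) ≤ u i).card : ℝ) / N) atTop
      (𝓝 (∏ i, (μ : Measure ℝ).real (Iic (u i)))))

theorem result : ∃ μ : ProbabilityMeasure ℝ, (∀ x : ℝ, (μ : Measure ℝ) {x} = 0) ∧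
    (∀ u v : ℝ, u < v → 0 < (μ : Measure ℝ) (Ioo u v)) ∧
    -- the law in windows
    (∀ x η : ℝ, 0 < η → ∃ R₀ : ℝ, ∀ R : ℝ, R₀ ≤ R → ∀ H : ℝ, R ^ (3 / 4 : ℝ) ≤ H → H ≤ R →
      |volume.real {r : ℝ | R < r ∧ r ≤ R + H ∧ P r ≤ x * √r} - (μ : Measure ℝ).real (Iic x) * H| ≤
        η * H) ∧
    -- separated sequences
    (∀ (x : ℕ → ℝ) (δ τ G : ℝ), 0 < δ → (∀ n, x n + δ ≤ x (n + 1)) → 0 ≤ τ → τ ≤ 1 →
      (∀ᶠ n : ℕ in atTop, x n ^ τ ≤ G * n) →
      (∀ (r k : ℕ) (h : Fin r → ℝ) (s : Fin r → Fin k), (∀ i i', s i = s i' → h i = h i' → i = i') →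
        ∀ᵐ c : Fin k → ℝ, (∀ i, ((Finset.univ.filter fun i' => s i' = s i).card : ℝ) < c (s i) + τ) →
          HasLaw μ x h s c) ∧
      (∀ h : ℝ, 0 ≤ h → ∀ᵐ c : ℝ, 1 - τ < c → c < 1 → Tendsto (fun N : ℕ =>
        (∑ n ∈ Finset.range N, (Z ((x n + h) ^ c) - Z (x n ^ c)) ^ 2) / (N : ℝ)) atTop (𝓝 0))) ∧
    -- primes
    (∀ (r k : ℕ) (h : Fin r → ℝ) (s : Fin r → Fin k), (∀ i i', s i = s i' → h i = h i' → i = i') →
      ∀ᵐ c : Fin k → ℝ, (∀ i, ((Finset.univ.filter fun i' => s i' = s i).card : ℝ) < c (s i) + 1) →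
        HasLaw μ (fun n => (Nat.nth Nat.Prime n : ℝ)) h s c) :=
  Pool.Agent.NH20.NC.Ci.circ_main

end Pool.Agent.Results.MP_fb29e9_nt.AlmostAllExponents
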