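import Mathlib
import Pool.Agent.R306.GP.VdC

/-!
Phase estimates for `ω (t + h) ^ y` as functions of the exponent `y`: the first derivative test for differences.
-/

set_option autoImplicit false

open MeasureTheory Filter Topology Set Real
open Pool.Agent.H469R2.NK (e norm_e e_add conj_e e_zero)
open Pool.Agent.R306.GP (vdc)

namespace Pool.Agent.NH20.NC

lemma pow_diff_low {s t θ : ℝ} (hs : 0 < s) (hst : s < t) (hθ : 0 < θ) :
    θ / (1 + θ) * ((t - s) * t ^ (θ - 1)) ≤ t ^ θ - s ^ θ := by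
  have ht : 0 < t := hs.trans hst
  have hT : 0 < t ^ (θ - 1) := Real.rpow_pos_of_pos ht _
  have hts : 0 < t - s := by linarith
  have hX : 0 < (t - s) * t ^ (θ - 1) := by positivity
  have e1 : t ^ θ = t * t ^ (θ - 1) := by
    rw [Real.rpow_sub_one ht.ne']; field_simp
  rcases le_or_gt 1 θ with h1 | h1
  · have e2 : s ^ θ = s * s ^ (θ - 1) := by
      rw [Real.rpow_sub_one hs.ne']; field_simp
    have h2 : s ^ (θ - 1) ≤ t ^ (θ - 1) := Real.rpow_le_rpow hs.le hst.le (by linarith)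
    have h3 : s * s ^ (θ - 1) ≤ s * t ^ (θ - 1) := mul_le_mul_of_nonneg_left h2 hs.le
    have h4 : θ / (1 + θ) ≤ 1 := by rw [div_le_one (by linarith)]; linarith
    have h5 := mul_le_mul_of_nonneg_right h4 hX.le
    rw [e1, e2]
    linarith
  · obtain ⟨ξ, hξ, hξe⟩ := exists_hasDerivAt_eq_slope (fun t : ℝ => t ^ θ) (fun t => θ * t ^ (θ - 1)) hst
      (fun x hx => (Real.hasDerivAt_rpow_const (Or.inl (lt_of_lt_of_le hs hx.1).ne')).continuousAt.continuousWithinAt)
      (fun x hx => Real.hasDerivAt_rpow_const (Or.inl (hs.trans hx.1).ne'))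
    have hξe' : θ * ξ ^ (θ - 1) = (t ^ θ - s ^ θ) / (t - s) := hξe
    have h2 : t ^ (θ - 1) ≤ ξ ^ (θ - 1) :=
      Real.rpow_le_rpow_of_nonpos (hs.trans hξ.1) hξ.2.le (by linarith)
    rw [eq_div_iff hts.ne'] at hξe'
    rw [← hξe']
    have h4 : θ / (1 + θ) ≤ θ := by rw [div_le_iff₀ (by linarith)]; nlinarith
    calc θ / (1 + θ) * ((t - s) * t ^ (θ - 1)) ≤ θ * ((t - s) * t ^ (θ - 1)) := mul_le_mul_of_nonneg_right h4 hX.le
      _ ≤ θ * ((t - s) * ξ ^ (θ - 1)) := by gcongr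
      _ = _ := by ring

/-- core of the estimates of phase differences -/
lemma phase_core {c d : ℝ} (hcd : c ≤ d) {f0 f1 f2 g1 g2 : ℝ → ℝ → ℝ} {t0 σ c2 C3 θ : ℝ} (ht0 : 1 ≤ t0)
    (hσ : |σ| ≤ 1) (hc2 : 0 < c2) (hC3 : 0 ≤ C3) (hθ : 0 < θ)
    (h0 : ∀ t, t0 ≤ t → ∀ y ∈ Icc c d, HasDerivAt (fun y => f0 t y) (f1 t y) y)
    (h1 : ∀ t, t0 ≤ t → ∀ y ∈ Icc c d, HasDerivAt (fun y => f1 t y) (f2 t y) y)
    (h2 : ∀ t, t0 ≤ t → ContinuousOn (fun y => f2 t y) (Icc c d))
    (k1 : ∀ t, t0 ≤ t → ∀ y ∈ Icc c d, HasDerivAt (fun t => f1 t y) (g1 t y) t)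
    (k2 : ∀ t, t0 ≤ t → ∀ y ∈ Icc c d, HasDerivAt (fun t => f2 t y) (g2 t y) t)
    (hlow : ∀ t, t0 ≤ t → ∀ y ∈ Icc c d, c2 * t ^ (θ - 1) ≤ σ * g1 t y)
    (hup : ∀ t, t0 ≤ t → ∀ y ∈ Icc c d, |g2 t y| ≤ C3 * Real.log t * (σ * g1 t y))
    {s t : ℝ} (hs : t0 ≤ s) (hst : s < t) :
    ‖∫ y in c..d, e (f0 t y - f0 s y)‖ ≤ (2 + C3 * (d - c) * Real.log t) * t ^ (1 - θ) * (1 + θ) / (c2 * (t - s)) := by
  have ht : t0 ≤ t := hs.trans hst.le
  have ht1 : 1 ≤ t := ht0.trans ht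
  have ht00 : 0 < t := by linarith
  have hs0 : 0 < s := by linarith
  have hts : 0 < t - s := by linarith
  have hlogt : 0 ≤ Real.log t := Real.log_nonneg ht1
  set l := c2 / (1 + θ) * ((t - s) * t ^ (θ - 1)) with hl
  have hl0 : 0 < l := by
    have := Real.rpow_pos_of_pos ht00 (θ - 1)
    positivity
  have hD : ∀ y ∈ Icc c d, l ≤ σ * (f1 t y - f1 s y) := by
    intro y hy
    obtain ⟨ξ, hξ, hξe⟩ := exists_hasDerivAt_eq_slope (fun t => σ * f1 t y - c2 / θ * t ^ θ)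
      (fun t => σ * g1 t y - c2 / θ * (θ * t ^ (θ - 1))) hst
      (fun x hx => (((k1 x (hs.trans hx.1) y hy).const_mul σ).sub
        ((Real.hasDerivAt_rpow_const (Or.inl (lt_of_lt_of_le hs0 hx.1).ne')).const_mul (c2 / θ))).continuousAt.continuousWithinAt)
      (fun x hx => ((k1 x (hs.trans hx.1.le) y hy).const_mul σ).sub
        ((Real.hasDerivAt_rpow_const (Or.inl (hs0.trans hx.1).ne')).const_mul (c2 / θ)))
    have hξ0 : t0 ≤ ξ := hs.trans hξ.1.le
    have h3 := hlow ξ hξ0 y hy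
    have h4 : 0 ≤ σ * g1 ξ y - c2 / θ * (θ * ξ ^ (θ - 1)) := by
      have : c2 / θ * (θ * ξ ^ (θ - 1)) = c2 * ξ ^ (θ - 1) := by field_simp
      rw [this]; linarith
    have hξe' : σ * g1 ξ y - c2 / θ * (θ * ξ ^ (θ - 1)) =
        ((σ * f1 t y - c2 / θ * t ^ θ) - (σ * f1 s y - c2 / θ * s ^ θ)) / (t - s) := hξe
    rw [hξe'] at h4
    have h11 := mul_nonneg h4 hts.le
    rw [div_mul_cancel₀ _ hts.ne'] at h11
    have h12 := pow_diff_low hs0 hst hθ
    have h13 := mul_le_mul_of_nonneg_left h12 (by positivity : 0 ≤ c2 / θ)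
    have h14 : c2 / θ * (θ / (1 + θ) * ((t - s) * t ^ (θ - 1))) = l := by rw [hl]; field_simp
    rw [h14] at h13
    linarith
  have hlowabs : ∀ y ∈ Icc c d, l ≤ |f1 t y - f1 s y| := by
    intro y hy
    have h3 := hD y hy
    calc l ≤ σ * (f1 t y - f1 s y) := h3
      _ ≤ |σ * (f1 t y - f1 s y)| := le_abs_self _
      _ = |σ| * |f1 t y - f1 s y| := abs_mul _ _
      _ ≤ 1 * |f1 t y - f1 s y| := mul_le_mul_of_nonneg_right hσ (abs_nonneg _)
      _ = _ := one_mul _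
  have hsgn : ∀ y ∈ Icc c d, σ * (f1 t y - f1 s y) ≤ |f1 t y - f1 s y| := by
    intro y hy
    calc σ * (f1 t y - f1 s y) ≤ |σ * (f1 t y - f1 s y)| := le_abs_self _
      _ = |σ| * |f1 t y - f1 s y| := abs_mul _ _
      _ ≤ 1 * |f1 t y - f1 s y| := mul_le_mul_of_nonneg_right hσ (abs_nonneg _)
      _ = _ := one_mul _
  have hone : ∀ (ε : ℝ), |ε| ≤ 1 → ∀ y ∈ Icc c d, ε * (f2 t y - f2 s y) ≤ C3 * Real.log t * (σ * (f1 t y - f1 s y)) := by
    intro ε hε y hy
    obtain ⟨ξ, hξ, hξe⟩ := exists_hasDerivAt_eq_slope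
      (fun τ => C3 * Real.log t * (σ * f1 τ y) - ε * f2 τ y)
      (fun τ => C3 * Real.log t * (σ * g1 τ y) - ε * g2 τ y) hst
      (fun x hx => ((((k1 x (hs.trans hx.1) y hy).const_mul σ).const_mul _).sub
        ((k2 x (hs.trans hx.1) y hy).const_mul ε)).continuousAt.continuousWithinAt)
      (fun x hx => (((k1 x (hs.trans hx.1.le) y hy).const_mul σ).const_mul _).sub
        ((k2 x (hs.trans hx.1.le) y hy).const_mul ε))
    have hξ0 : t0 ≤ ξ := hs.trans hξ.1.le
    have hξ1 : 1 ≤ ξ := ht0.trans hξ0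
    have h3 := hup ξ hξ0 y hy
    have h5 := hlow ξ hξ0 y hy
    have h6 : 0 ≤ σ * g1 ξ y := le_trans (by positivity) h5
    have h7 : Real.log ξ ≤ Real.log t := Real.log_le_log (by linarith) hξ.2.le
    have h8 : ε * g2 ξ y ≤ |g2 ξ y| := by
      calc ε * g2 ξ y ≤ |ε * g2 ξ y| := le_abs_self _
        _ = |ε| * |g2 ξ y| := abs_mul _ _
        _ ≤ 1 * |g2 ξ y| := mul_le_mul_of_nonneg_right hε (abs_nonneg _)
        _ = _ := one_mul _
    have h9 : C3 * Real.log ξ * (σ * g1 ξ y) ≤ C3 * Real.log t * (σ * g1 ξ y) := by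
      apply mul_le_mul_of_nonneg_right _ h6
      exact mul_le_mul_of_nonneg_left h7 hC3
    have h10 : 0 ≤ C3 * Real.log t * (σ * g1 ξ y) - ε * g2 ξ y := by linarith
    have hξe' : C3 * Real.log t * (σ * g1 ξ y) - ε * g2 ξ y =
        ((C3 * Real.log t * (σ * f1 t y) - ε * f2 t y) - (C3 * Real.log t * (σ * f1 s y) - ε * f2 s y)) / (t - s) := hξe
    rw [hξe'] at h10
    have h11 := mul_nonneg h10 hts.le
    rw [div_mul_cancel₀ _ hts.ne'] at h11
    linarith
  have h12 : ∀ y ∈ Icc c d, |f2 t y - f2 s y| ≤ C3 * Real.log t * (σ * (f1 t y - f1 s y)) := by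
    intro y hy
    rw [abs_le]
    constructor
    · have := hone (-1) (by norm_num) y hy
      linarith
    · have := hone 1 (by norm_num) y hy
      linarith
  have hvdc := vdc (f := fun y => f0 t y - f0 s y) (f' := fun y => f1 t y - f1 s y) (f'' := fun y => f2 t y - f2 s y)
    hcd (fun y hy => (h0 t ht y hy).sub (h0 s hs y hy)) (fun y hy => (h1 t ht y hy).sub (h1 s hs y hy))
    ((h2 t ht).sub (h2 s hs)) hl0 hlowabs (Q := C3 * Real.log t / l) (fun y hy => by
      refine (h12 y hy).trans ?_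
      have h13 := hlowabs y hy
      have h14 := hsgn y hy
      have h15 : |f1 t y - f1 s y| ≤ (f1 t y - f1 s y) ^ 2 / l := by
        rw [le_div_iff₀ hl0, ← sq_abs, pow_two]
        exact mul_le_mul_of_nonneg_left h13 (abs_nonneg _)
      calc C3 * Real.log t * (σ * (f1 t y - f1 s y)) ≤ C3 * Real.log t * ((f1 t y - f1 s y) ^ 2 / l) :=
            mul_le_mul_of_nonneg_left (h14.trans h15) (by positivity)
        _ = _ := by ring)
  refine hvdc.trans (le_of_eq ?_)
  have h16 : t ^ (1 - θ) = (t ^ (θ - 1))⁻¹ := by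
    rw [← Real.rpow_neg ht00.le]; congr 1; ring
  rw [h16, hl]
  have h17 : 0 < t ^ (θ - 1) := Real.rpow_pos_of_pos ht00 _
  have h18 : 0 < 1 + θ := by linarith
  field_simp

/-- derivatives of `t ^ s (α log² t + β log t + γ)` -/
noncomputable def fam : ℕ → ℝ → ℝ → ℝ → ℝ → ℝ → ℝ
  | 0, s, α, β, γ, t => t ^ s * (α * Real.log t ^ 2 + β * Real.log t + γ)
  | l + 1, s, α, β, γ, t => fam l (s - 1) (s * α) (s * β + 2 * α) (s * γ + β) t

lemma fam_deriv (l : ℕ) : ∀ (s α β γ : ℝ) {t : ℝ}, 0 < t →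
    HasDerivAt (fam l s α β γ) (fam (l + 1) s α β γ t) t := by
  induction l with
  | zero =>
    intro s α β γ t ht
    have h1 : HasDerivAt (fun t : ℝ => t ^ s) (s * t ^ (s - 1)) t := Real.hasDerivAt_rpow_const (Or.inl ht.ne')
    have h2 : HasDerivAt Real.log t⁻¹ t := Real.hasDerivAt_log ht.ne'
    have h3 := h1.mul ((((h2.pow 2).const_mul α).add (h2.const_mul β)).add_const γ)
    refine (h3.congr_deriv ?_)
    show _ = t ^ (s - 1) * (s * α * Real.log t ^ 2 + (s * β + 2 * α) * Real.log t + (s * γ + β))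
    have h4 : t ^ s = t ^ (s - 1) * t := by
      rw [← Real.rpow_add_one ht.ne']; congr 1; ring
    simp only [Pi.add_apply, Pi.pow_apply, Nat.cast_ofNat, Nat.add_one_sub_one, pow_one]
    rw [h4]
    field_simp
    ring
  | succ l ih =>
    intro s α β γ t ht
    exact ih (s - 1) (s * α) (s * β + 2 * α) (s * γ + β) ht

/-- crude upper bound -/
lemma fam_up (l : ℕ) : ∀ (S B : ℝ), 0 ≤ S → 0 ≤ B → ∃ C : ℝ, 0 < C ∧ ∀ s α β γ : ℝ, |s| ≤ S → |α| ≤ B → |β| ≤ B → |γ| ≤ B →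
    ∀ t : ℝ, 3 ≤ t → |fam l s α β γ t| ≤ C * (t ^ (s - l) * Real.log t ^ 2) := by
  induction l with
  | zero =>
    intro S B hS hB
    refine ⟨3 * B + 1, by positivity, ?_⟩
    intro s α β γ _ hα hβ hγ t ht
    have ht0 : 0 < t := by linarith
    have hlog : 1 ≤ Real.log t := by
      rw [Real.le_log_iff_exp_le ht0]
      linarith [Real.exp_one_lt_d9]
    show |t ^ s * (α * Real.log t ^ 2 + β * Real.log t + γ)| ≤ _
    rw [abs_mul, abs_of_pos (Real.rpow_pos_of_pos ht0 s)]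
    have h1 : |α * Real.log t ^ 2 + β * Real.log t + γ| ≤ 3 * B * Real.log t ^ 2 := by
      have h2 : |α * Real.log t ^ 2| ≤ B * Real.log t ^ 2 := by
        rw [abs_mul, abs_of_nonneg (sq_nonneg (Real.log t))]
        exact mul_le_mul_of_nonneg_right hα (sq_nonneg _)
      have h3 : |β * Real.log t| ≤ B * Real.log t ^ 2 := by
        rw [abs_mul, abs_of_pos (by linarith : 0 < Real.log t)]
        have : Real.log t ≤ Real.log t ^ 2 := by nlinarith
        calc |β| * Real.log t ≤ B * Real.log t := mul_le_mul_of_nonneg_right hβ (by linarith)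
          _ ≤ _ := mul_le_mul_of_nonneg_left this hB
      have h4 : |γ| ≤ B * Real.log t ^ 2 := by
        have : 1 ≤ Real.log t ^ 2 := by nlinarith
        nlinarith
      have := abs_add_three (α * Real.log t ^ 2) (β * Real.log t) γ
      linarith
    have h5 : 0 < t ^ s := Real.rpow_pos_of_pos ht0 s
    simp only [Nat.cast_zero, sub_zero]
    calc t ^ s * |α * Real.log t ^ 2 + β * Real.log t + γ| ≤ t ^ s * (3 * B * Real.log t ^ 2) :=
          mul_le_mul_of_nonneg_left h1 h5.le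
      _ = 3 * B * (t ^ s * Real.log t ^ 2) := by ring
      _ ≤ _ := by
          apply mul_le_mul_of_nonneg_right (by linarith)
          positivity
  | succ l ih =>
    intro S B hS hB
    obtain ⟨C, hC, h⟩ := ih (S + 1) ((S + 2) * B) (by linarith) (by positivity)
    refine ⟨C, hC, ?_⟩
    intro s α β γ hs hα hβ hγ t ht
    have e1 : s - 1 - (l:ℝ) = s - ((l + 1 : ℕ) : ℝ) := by push_cast; ring
    have h1 := h (s - 1) (s * α) (s * β + 2 * α) (s * γ + β) (by
        have := abs_sub s 1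
        rw [abs_one] at this
        linarith) (by
        rw [abs_mul]
        calc |s| * |α| ≤ S * B := mul_le_mul hs hα (abs_nonneg _) hS
          _ ≤ _ := by nlinarith) (by
        have h2 : |s * β| ≤ S * B := by rw [abs_mul]; exact mul_le_mul hs hβ (abs_nonneg _) hS
        have h3 : |2 * α| ≤ 2 * B := by rw [abs_mul, abs_two]; linarith
        have := abs_add_le (s * β) (2 * α)
        nlinarith) (by
        have h2 : |s * γ| ≤ S * B := by rw [abs_mul]; exact mul_le_mul hs hγ (abs_nonneg _) hS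
        have := abs_add_le (s * γ) β
        nlinarith) t ht
    rw [e1] at h1
    exact h1

/-- descending factorials -/
noncomputable def dfac : ℕ → ℝ → ℝ
  | 0, _ => 1
  | l + 1, s => s * dfac l (s - 1)

/-- the shape of the derivatives without `log²` -/
lemma fam_shape (l : ℕ) : ∀ (S B : ℝ), 0 ≤ S → 0 ≤ B → ∃ C : ℝ, 0 < C ∧ ∀ s β γ : ℝ, |s| ≤ S → |β| ≤ B → |γ| ≤ B →
    ∃ γ' : ℝ, |γ'| ≤ C ∧ ∀ t : ℝ, fam l s 0 β γ t = t ^ (s - l) * (β * dfac l s * Real.log t + γ') := by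
  induction l with
  | zero =>
    intro S B hS hB
    refine ⟨B + 1, by positivity, ?_⟩
    intro s β γ _ _ hγ
    refine ⟨γ, by linarith, fun t => ?_⟩
    show t ^ s * (0 * Real.log t ^ 2 + β * Real.log t + γ) = _
    simp [dfac]
  | succ l ih =>
    intro S B hS hB
    obtain ⟨C, hC, h⟩ := ih (S + 1) ((S + 2) * B) (by linarith) (by positivity)
    refine ⟨C, hC, ?_⟩
    intro s β γ hs hβ hγ
    obtain ⟨γ', hγ', h1⟩ := h (s - 1) (s * β + 2 * 0) (s * γ + β) (by
        have := abs_sub s 1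
        rw [abs_one] at this
        linarith) (by
        rw [mul_zero, add_zero, abs_mul]
        calc |s| * |β| ≤ S * B := mul_le_mul hs hβ (abs_nonneg _) hS
          _ ≤ _ := by nlinarith) (by
        have h2 : |s * γ| ≤ S * B := by rw [abs_mul]; exact mul_le_mul hs hγ (abs_nonneg _) hS
        have := abs_add_le (s * γ) β
        nlinarith)
    refine ⟨γ', hγ', fun t => ?_⟩
    show fam l (s - 1) (s * 0) (s * β + 2 * 0) (s * γ + β) t = _
    rw [mul_zero s, h1 t]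
    have e1 : s - 1 - (l:ℝ) = s - ((l + 1 : ℕ) : ℝ) := by push_cast; ring
    rw [e1]
    show _ = t ^ (s - ((l + 1 : ℕ) : ℝ)) * (β * (s * dfac l (s - 1)) * Real.log t + γ')
    ring

lemma dfac_low (l : ℕ) : ∀ {s τ : ℝ}, 0 ≤ τ → (l:ℝ) - 1 + τ ≤ s → τ ^ l ≤ dfac l s := by
  induction l with
  | zero => intro s τ _ _; simp [dfac]
  | succ l ih =>
    intro s τ hτ hs
    push_cast at hs
    have h1 := ih (s := s - 1) hτ (by linarith)
    have hl : (0:ℝ) ≤ l := Nat.cast_nonneg l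
    show τ ^ (l + 1) ≤ s * dfac l (s - 1)
    rw [pow_succ, mul_comm]
    apply mul_le_mul (by linarith) h1 (by positivity) (by linarith)

end Pool.Agent.NH20.NC
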