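import Mathlib
import Pool.Agent.NH20.NC.Ph

/-!
Taylor's formula and the size of the derivatives of `∑ ω_i (t + h_i) ^ y`.
-/

set_option autoImplicit false

open MeasureTheory Filter Topology Set Real
open Pool.Agent.H469R2.NK (e norm_e e_add conj_e e_zero)

namespace Pool.Agent.NH20.NC

/-- a crude form of Taylor's formula -/
lemma taylor_crude {f : ℕ → ℝ → ℝ} {i0 : ℕ} {B : ℝ}
    (hd : ∀ l, ∀ v ∈ Icc (0:ℝ) 1, HasDerivAt (f l) (f (l + 1) v) v) (hz : ∀ l < i0, f l 0 = 0)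
    (hB : ∀ v ∈ Icc (0:ℝ) 1, |f (i0 + 1) v| ≤ B) : |f 0 1 - f i0 0 / (i0.factorial : ℝ)| ≤ B := by
  have hB0 : 0 ≤ B := (abs_nonneg _).trans (hB 0 ⟨le_rfl, zero_le_one⟩)
  have key : ∀ m, m ≤ i0 → ∀ v ∈ Icc (0:ℝ) 1, |f (i0 - m) v - f i0 0 / (m.factorial : ℝ) * v ^ m| ≤ B := by
    intro m
    induction m with
    | zero =>
      intro _ v hv
      rcases hv.1.eq_or_lt with h0 | h0
      · rw [← h0]; simpa using hB0
      obtain ⟨ξ, hξ, hξe⟩ := exists_hasDerivAt_eq_slope (f i0) (f (i0 + 1)) h0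
        (fun x hx => (hd i0 x ⟨hx.1, hx.2.trans hv.2⟩).continuousAt.continuousWithinAt)
        (fun x hx => hd i0 x ⟨hx.1.le, hx.2.le.trans hv.2⟩)
      rw [sub_zero, eq_div_iff h0.ne'] at hξe
      have h1 := hB ξ ⟨hξ.1.le, hξ.2.le.trans hv.2⟩
      simp only [Nat.sub_zero, Nat.factorial_zero, Nat.cast_one, div_one, pow_zero, mul_one]
      rw [← hξe, abs_mul, abs_of_pos h0]
      calc |f (i0 + 1) ξ| * v ≤ B * 1 := mul_le_mul h1 hv.2 h0.le hB0
        _ = B := mul_one B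
    | succ m ih =>
      intro hm v hv
      have ih' := ih (by omega)
      rcases hv.1.eq_or_lt with h0 | h0
      · rw [← h0, hz (i0 - (m + 1)) (by omega)]
        simpa using hB0
      have e1 : i0 - (m + 1) + 1 = i0 - m := by omega
      set D : ℝ → ℝ := fun v => f (i0 - (m + 1)) v - f i0 0 / ((m + 1).factorial : ℝ) * v ^ (m + 1) with hD
      have hDd : ∀ x ∈ Icc (0:ℝ) 1, HasDerivAt D (f (i0 - m) x - f i0 0 / (m.factorial : ℝ) * x ^ m) x := by
        intro x hx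
        have h1 := hd (i0 - (m + 1)) x hx
        rw [e1] at h1
        have h2 := ((hasDerivAt_pow (m + 1) x).const_mul (f i0 0 / ((m + 1).factorial : ℝ)))
        refine (h1.sub h2).congr_deriv ?_
        congr 1
        rw [Nat.factorial_succ]
        have h3 : (m.factorial : ℝ) ≠ 0 := by positivity
        push_cast
        field_simp
      obtain ⟨ξ, hξ, hξe⟩ := exists_hasDerivAt_eq_slope D (fun x => f (i0 - m) x - f i0 0 / (m.factorial : ℝ) * x ^ m) h0
        (fun x hx => (hDd x ⟨hx.1, hx.2.trans hv.2⟩).continuousAt.continuousWithinAt)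
        (fun x hx => hDd x ⟨hx.1.le, hx.2.le.trans hv.2⟩)
      have hD0 : D 0 = 0 := by
        simp only [hD]
        rw [hz (i0 - (m + 1)) (by omega)]
        simp
      rw [hD0, sub_zero, sub_zero, eq_div_iff h0.ne'] at hξe
      have h1 := ih' ξ ⟨hξ.1.le, hξ.2.le.trans hv.2⟩
      show |D v| ≤ B
      rw [← hξe, abs_mul, abs_of_pos h0]
      calc |f (i0 - m) ξ - f i0 0 / (m.factorial : ℝ) * ξ ^ m| * v ≤ B * 1 := mul_le_mul h1 hv.2 h0.le hB0
        _ = B := mul_one B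
  have h1 := key i0 le_rfl 1 ⟨zero_le_one, le_rfl⟩
  simpa using h1

/-- the moments of the frequencies determine them -/
lemma mom_zero {ι : Type*} [DecidableEq ι] (S : Finset ι) (h : ι → ℝ) (hinj : Set.InjOn h S) (ω : ι → ℝ)
    (hz : ∀ l < S.card, ∑ i ∈ S, ω i * h i ^ l = 0) : ∀ i ∈ S, ω i = 0 := by
  intro i hi
  set P : Polynomial ℝ := ∏ i' ∈ S.erase i, (Polynomial.X - Polynomial.C (h i')) with hP
  have hdeg : P.natDegree < S.card := by
    rw [hP, Polynomial.natDegree_prod_of_monic _ _ (fun i' _ => Polynomial.monic_X_sub_C _)]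
    simp only [Polynomial.natDegree_X_sub_C, Finset.sum_const, smul_eq_mul, mul_one]
    rw [Finset.card_erase_of_mem hi]
    have := Finset.card_pos.mpr ⟨i, hi⟩
    omega
  have hPi : ∀ i' ∈ S, i' ≠ i → P.eval (h i') = 0 := by
    intro i' hi' hne
    rw [hP, Polynomial.eval_prod]
    apply Finset.prod_eq_zero (Finset.mem_erase.mpr ⟨hne, hi'⟩)
    simp
  have hPne : P.eval (h i) ≠ 0 := by
    rw [hP, Polynomial.eval_prod, Finset.prod_ne_zero_iff]
    intro i' hi'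
    rw [Finset.mem_erase] at hi'
    simp only [Polynomial.eval_sub, Polynomial.eval_X, Polynomial.eval_C]
    rw [sub_ne_zero]
    intro heq
    exact hi'.1 (hinj hi'.2 hi heq.symm)
  have h2 : ∑ i' ∈ S, ω i' * P.eval (h i') = 0 := by
    have h3 : ∀ i' ∈ S, ω i' * P.eval (h i') = ∑ l ∈ Finset.range S.card, P.coeff l * (ω i' * h i' ^ l) := by
      intro i' _
      rw [Polynomial.eval_eq_sum_range' hdeg, Finset.mul_sum]
      apply Finset.sum_congr rfl
      intro l _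
      ring
    rw [Finset.sum_congr rfl h3, Finset.sum_comm]
    apply Finset.sum_eq_zero
    intro l hl
    rw [← Finset.mul_sum, hz l (Finset.mem_range.mp hl), mul_zero]
  rw [Finset.sum_eq_single i (fun i' hi' hne => by rw [hPi i' hi' hne, mul_zero]) (fun hni => absurd hi hni)] at h2
  rcases mul_eq_zero.mp h2 with h4 | h4
  · exact h4
  · exact absurd h4 hPne

lemma rpow_half {t u s E : ℝ} (ht : 0 < t) (hu : |u| ≤ t / 2) (hs : |s| ≤ E) : (t + u) ^ s ≤ 2 ^ E * t ^ s := by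
  obtain ⟨hu1, hu2⟩ := abs_le.mp hu
  have e1 : t + u = t * (1 + u / t) := by field_simp
  have hq0 : -(1 / 2) ≤ u / t := by rw [le_div_iff₀ ht]; linarith
  have hq1 : u / t ≤ 1 / 2 := by rw [div_le_iff₀ ht]; linarith
  obtain ⟨hs1, hs2⟩ := abs_le.mp hs
  have hE : 0 ≤ E := (abs_nonneg _).trans hs
  rw [e1, Real.mul_rpow ht.le (by linarith)]
  have h1 : (1 + u / t) ^ s ≤ 2 ^ E := by
    rcases le_total 1 (1 + u / t) with h | h
    · exact (Real.rpow_le_rpow_of_exponent_le h hs2).trans (Real.rpow_le_rpow (by linarith) (by linarith) hE)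
    · calc (1 + u / t) ^ s ≤ (1 + u / t) ^ (-E) := Real.rpow_le_rpow_of_exponent_ge (by linarith) h hs1
        _ ≤ (1 / 2) ^ (-E) := Real.rpow_le_rpow_of_nonpos (by norm_num) (by linarith) (by linarith)
        _ = 2 ^ E := by
            rw [one_div, Real.inv_rpow (by norm_num), Real.rpow_neg (by norm_num), inv_inv]
  have h3 : 0 < t ^ s := Real.rpow_pos_of_pos ht s
  rw [mul_comm (2 ^ E : ℝ)]
  exact mul_le_mul_of_nonneg_left h1 h3.le

lemma log_ge_one {t : ℝ} (ht : 3 ≤ t) : 1 ≤ Real.log t := by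
  rw [Real.le_log_iff_exp_le (by linarith)]
  linarith [Real.exp_one_lt_d9]

lemma log_shift_le {t u : ℝ} (ht : 3 ≤ t) (hu : |u| ≤ t / 2) : Real.log (t + u) ≤ 2 * Real.log t := by
  obtain ⟨hu1, hu2⟩ := abs_le.mp hu
  have h1 : Real.log (t + u) ≤ Real.log (t * t) := by
    apply Real.log_le_log (by linarith)
    nlinarith
  rw [Real.log_mul (by linarith) (by linarith)] at h1
  linarith

/-- upper bound near `t` -/
lemma fam_near (l : ℕ) (α β d : ℝ) : ∃ C : ℝ, 0 < C ∧ ∀ y : ℝ, 0 ≤ y → y ≤ d → ∀ t u : ℝ, 6 ≤ t → |u| ≤ t / 2 →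
    |fam l y α β 0 (t + u)| ≤ C * (t ^ (y - l) * Real.log t ^ 2) := by
  obtain ⟨C, hC, h⟩ := fam_up l (|d|) (max |α| |β|) (abs_nonneg _) ((abs_nonneg _).trans (le_max_left _ _))
  refine ⟨C * (2 ^ (|d| + l) * 4), by positivity, ?_⟩
  intro y hy0 hyd t u ht hu
  obtain ⟨hu1, hu2⟩ := abs_le.mp hu
  have hlr : (0:ℝ) ≤ l := Nat.cast_nonneg l
  have hdd : y ≤ |d| := hyd.trans (le_abs_self d)
  have h1 := h y α β 0 (by rw [abs_of_nonneg hy0]; exact hdd) (le_max_left _ _) (le_max_right _ _)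
    (by rw [abs_zero]; exact (abs_nonneg _).trans (le_max_left _ _)) (t + u) (by linarith)
  refine h1.trans ?_
  have h2 := rpow_half (t := t) (u := u) (s := y - l) (E := |d| + l) (by linarith) hu (by
    rw [abs_le]; constructor <;> linarith)
  have h3 := log_shift_le (t := t) (u := u) (by linarith) hu
  have h4 : 0 ≤ Real.log (t + u) := Real.log_nonneg (by linarith)
  have h5 : Real.log (t + u) ^ 2 ≤ 4 * Real.log t ^ 2 := by
    calc Real.log (t + u) ^ 2 ≤ (2 * Real.log t) ^ 2 := pow_le_pow_left₀ h4 h3 2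
      _ = _ := by ring
  have h6 : 0 < t ^ (y - l) := Real.rpow_pos_of_pos (by linarith) _
  calc C * ((t + u) ^ (y - l) * Real.log (t + u) ^ 2)
      ≤ C * ((2 ^ (|d| + l) * t ^ (y - l)) * (4 * Real.log t ^ 2)) := by gcongr
    _ = _ := by ring

/-- the main term -/
lemma fam_main (i0 : ℕ) {c : ℝ} (d : ℝ) (hc : (i0:ℝ) < c) : ∃ a b : ℝ, 0 < a ∧ 0 < b ∧
    ∀ y : ℝ, c ≤ y → y ≤ d → ∀ t : ℝ, 3 ≤ t → b ≤ Real.log t →
    a * (t ^ (y - 1 - i0) * Real.log t) ≤ fam (1 + i0) y 0 1 0 t := by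
  obtain ⟨C, hC, h⟩ := fam_shape (1 + i0) (|d|) 1 (abs_nonneg _) (by norm_num)
  set τ := c - i0 with hτ
  have hτ0 : 0 < τ := by rw [hτ]; linarith
  set a0 := τ ^ (1 + i0) with ha0
  have ha00 : 0 < a0 := by positivity
  refine ⟨a0 / 2, 2 * C / a0, by positivity, by positivity, ?_⟩
  intro y hyc hyd t ht hb
  have hi0r : (0:ℝ) ≤ i0 := Nat.cast_nonneg i0
  have hy0 : 0 ≤ y := by linarith
  have hdd : y ≤ |d| := hyd.trans (le_abs_self d)
  obtain ⟨γ', hγ', h1⟩ := h y 1 0 (by rw [abs_of_nonneg hy0]; exact hdd) (by norm_num) (by norm_num)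
  rw [h1]
  have e1 : y - ((1 + i0 : ℕ) : ℝ) = y - 1 - i0 := by push_cast; ring
  rw [e1]
  have h3 : a0 ≤ dfac (1 + i0) y := dfac_low (1 + i0) hτ0.le (by push_cast; linarith)
  have h5 := log_ge_one (t := t) (by linarith)
  have h6 : a0 * Real.log t ≤ 1 * dfac (1 + i0) y * Real.log t := by
    rw [one_mul]
    exact mul_le_mul_of_nonneg_right h3 (by linarith)
  rw [div_le_iff₀ ha00] at hb
  obtain ⟨h7, -⟩ := abs_le.mp hγ'
  have h8 : a0 / 2 * Real.log t ≤ 1 * dfac (1 + i0) y * Real.log t + γ' := by linarith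
  have h9 : 0 < t ^ (y - 1 - i0) := Real.rpow_pos_of_pos (by linarith) _
  calc a0 / 2 * (t ^ (y - 1 - i0) * Real.log t) = t ^ (y - 1 - i0) * (a0 / 2 * Real.log t) := by ring
    _ ≤ _ := mul_le_mul_of_nonneg_left h8 h9.le

/-- Taylor's formula for the sums -/
lemma sum_taylor {ι : Type*} (S : Finset ι) (h : ι → ℝ) (ω : ι → ℝ) {i0 : ℕ}
    (hz : ∀ l < i0, ∑ i ∈ S, ω i * h i ^ l = 0) (α β d : ℝ) : ∃ C : ℝ, 0 ≤ C ∧
    ∀ y : ℝ, 0 ≤ y → y ≤ d → ∀ t : ℝ, 6 ≤ t → (∀ i ∈ S, |h i| ≤ t / 2) →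
      |∑ i ∈ S, ω i * fam 1 y α β 0 (t + h i) -
        (∑ i ∈ S, ω i * h i ^ i0) / (i0.factorial : ℝ) * fam (1 + i0) y α β 0 t| ≤
      C * (t ^ (y - 1 - i0) / t * Real.log t ^ 2) := by
  obtain ⟨C, hC, hn⟩ := fam_near (1 + (i0 + 1)) α β d
  refine ⟨(∑ i ∈ S, |ω i| * |h i| ^ (i0 + 1)) * C, by positivity, ?_⟩
  intro y hy0 hyd t ht hh
  set f : ℕ → ℝ → ℝ := fun l v => ∑ i ∈ S, ω i * h i ^ l * fam (1 + l) y α β 0 (t + v * h i) with hf
  have hsh : ∀ v ∈ Icc (0:ℝ) 1, ∀ i ∈ S, |v * h i| ≤ t / 2 := by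
    intro v hv i hi
    rw [abs_mul, abs_of_nonneg hv.1]
    have := hh i hi
    have h0 := abs_nonneg (h i)
    nlinarith [hv.2]
  have hpos : ∀ v ∈ Icc (0:ℝ) 1, ∀ i ∈ S, 0 < t + v * h i := by
    intro v hv i hi
    have := (abs_le.mp (hsh v hv i hi)).1
    linarith
  have hd : ∀ l, ∀ v ∈ Icc (0:ℝ) 1, HasDerivAt (f l) (f (l + 1) v) v := by
    intro l v hv
    simp only [hf]
    refine HasDerivAt.fun_sum fun i hi => ?_
    have h1 := fam_deriv (1 + l) y α β 0 (hpos v hv i hi)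
    have h2 : HasDerivAt (fun v : ℝ => t + v * h i) (h i) v := by
      simpa using ((hasDerivAt_id v).mul_const (h i)).const_add t
    have h3 := (h1.comp v h2).const_mul (ω i * h i ^ l)
    refine h3.congr_deriv ?_
    rw [show 1 + (l + 1) = 1 + l + 1 by ring]
    ring
  have hf0 : ∀ l, f l 0 = (∑ i ∈ S, ω i * h i ^ l) * fam (1 + l) y α β 0 t := by
    intro l
    simp only [hf, zero_mul, add_zero]
    rw [Finset.sum_mul]
  have h1 := taylor_crude (f := f) (i0 := i0) (B := (∑ i ∈ S, |ω i| * |h i| ^ (i0 + 1)) * C *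
    (t ^ (y - 1 - i0) / t * Real.log t ^ 2)) hd (fun l hl => by rw [hf0, hz l hl, zero_mul]) (fun v hv => by
      simp only [hf]
      refine (Finset.abs_sum_le_sum_abs _ _).trans ?_
      rw [mul_assoc, Finset.sum_mul]
      apply Finset.sum_le_sum
      intro i hi
      rw [abs_mul, abs_mul, abs_pow]
      have h2 := hn y hy0 hyd t (v * h i) ht (hsh v hv i hi)
      have e1 : t ^ (y - ((1 + (i0 + 1) : ℕ) : ℝ)) = t ^ (y - 1 - i0) / t := by
        rw [← Real.rpow_sub_one (by linarith)]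
        congr 1; push_cast; ring
      rw [e1] at h2
      exact mul_le_mul_of_nonneg_left h2 (by positivity))
  rw [hf0] at h1
  have e2 : f 0 1 = ∑ i ∈ S, ω i * fam 1 y α β 0 (t + h i) := by
    simp only [hf, pow_zero, mul_one, one_mul, Nat.add_zero]
  rw [e2] at h1
  rw [div_mul_eq_mul_div]
  exact h1

/-- lower and upper bounds of the derivatives -/
lemma low_up {ι : Type*} (S : Finset ι) (h : ι → ℝ) (ω : ι → ℝ) {i0 : ℕ}
    (hz : ∀ l < i0, ∑ i ∈ S, ω i * h i ^ l = 0) (hb : ∑ i ∈ S, ω i * h i ^ i0 ≠ 0)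
    {c : ℝ} (d : ℝ) (hc : (i0:ℝ) < c) :
    ∃ σ c2 C3 t0 : ℝ, |σ| ≤ 1 ∧ 0 < c2 ∧ 0 ≤ C3 ∧ 3 ≤ t0 ∧ (∀ t, t0 ≤ t → ∀ i ∈ S, 0 < t + h i) ∧
      (∀ t, t0 ≤ t → ∀ y ∈ Icc c d, c2 * t ^ ((c - i0) - 1) ≤ σ * ∑ i ∈ S, ω i * fam 1 y 0 1 0 (t + h i)) ∧
      (∀ t, t0 ≤ t → ∀ y ∈ Icc c d, |∑ i ∈ S, ω i * fam 1 y 1 0 0 (t + h i)| ≤
        C3 * Real.log t * (σ * ∑ i ∈ S, ω i * fam 1 y 0 1 0 (t + h i))) := by
  classical
  have hi0r : (0:ℝ) ≤ i0 := Nat.cast_nonneg i0
  obtain ⟨a, b, ha, hbb, hlow⟩ := fam_main i0 d hc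
  obtain ⟨K1, hK1, hT1⟩ := sum_taylor S h ω hz 0 1 d
  obtain ⟨K2, hK2, hT2⟩ := sum_taylor S h ω hz 1 0 d
  obtain ⟨K3, hK3, hU⟩ := fam_near (1 + i0) 1 0 d
  set β := (∑ i ∈ S, ω i * h i ^ i0) / (i0.factorial : ℝ) with hβ
  have hβne : β ≠ 0 := div_ne_zero hb (by positivity)
  have hβ0 : 0 < |β| := abs_pos.mpr hβne
  set c2 := |β| * a / 2 with hc2
  have hc20 : 0 < c2 := by positivity
  obtain ⟨σ, hσ1, hσβ⟩ : ∃ σ : ℝ, |σ| ≤ 1 ∧ σ * β = |β| := by
    rcases le_total 0 β with h1 | h1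
    · exact ⟨1, by norm_num, by rw [one_mul, abs_of_nonneg h1]⟩
    · exact ⟨-1, by norm_num, by rw [abs_of_nonpos h1]; ring⟩
  -- the threshold
  have ev1 : ∀ᶠ t : ℝ in atTop, b ≤ Real.log t := Real.tendsto_log_atTop.eventually_ge_atTop b
  have ev2 : ∀ᶠ t : ℝ in atTop, K1 * Real.log t ≤ c2 * t := by
    have h1 : ∀ᶠ t : ℝ in atTop, ‖Real.log t‖ ≤ (c2 / (K1 + 1)) * ‖t‖ :=
      Real.isLittleO_log_id_atTop.bound (by positivity)
    filter_upwards [h1, eventually_ge_atTop 1] with t ht ht1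
    rw [Real.norm_eq_abs, Real.norm_eq_abs, abs_of_nonneg (Real.log_nonneg ht1), abs_of_nonneg (by linarith)] at ht
    calc K1 * Real.log t ≤ (K1 + 1) * Real.log t := by
          have := Real.log_nonneg ht1
          nlinarith
      _ ≤ (K1 + 1) * (c2 / (K1 + 1) * t) := mul_le_mul_of_nonneg_left ht (by positivity)
      _ = _ := by field_simp
  obtain ⟨t1, ht1⟩ := eventually_atTop.mp (ev1.and ev2)
  set H := ∑ i ∈ S, |h i| with hH
  have hHi : ∀ i ∈ S, |h i| ≤ H := fun i hi => Finset.single_le_sum (f := fun i => |h i|) (fun _ _ => abs_nonneg _) hi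
  have hH0 : 0 ≤ H := Finset.sum_nonneg fun _ _ => abs_nonneg _
  have key : ∀ t, max t1 (2 * H + 6) ≤ t → ∀ y ∈ Icc c d,
      c2 * (t ^ (y - 1 - i0) * Real.log t) ≤ σ * ∑ i ∈ S, ω i * fam 1 y 0 1 0 (t + h i) ∧
      |∑ i ∈ S, ω i * fam 1 y 1 0 0 (t + h i)| ≤ (|β| * K3 + K2) * (t ^ (y - 1 - i0) * Real.log t ^ 2) := by
    intro t ht y hy
    have htH : 2 * H + 6 ≤ t := (le_max_right _ _).trans ht
    have hhi : ∀ i ∈ S, |h i| ≤ t / 2 := fun i hi => by
      have := hHi i hi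
      linarith
    obtain ⟨hb1, hb2⟩ := ht1 t ((le_max_left _ _).trans ht)
    have ht0 : 0 < t := by linarith
    have hy0 : 0 ≤ y := by linarith [hy.1]
    have hlog := log_ge_one (t := t) (by linarith)
    have k1 := hT1 y hy0 hy.2 t (by linarith) hhi
    have k2 := hT2 y hy0 hy.2 t (by linarith) hhi
    have k3 := hU y hy0 hy.2 t 0 (by linarith) (by rw [abs_zero]; linarith)
    have k4 := hlow y hy.1 hy.2 t (by linarith) hb1
    rw [add_zero] at k3
    have e1 : y - ((1 + i0 : ℕ) : ℝ) = y - 1 - i0 := by push_cast; ring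
    rw [e1] at k3
    set T := t ^ (y - 1 - i0) with hT
    have hT0 : 0 < T := Real.rpow_pos_of_pos ht0 _
    constructor
    · set X := ∑ i ∈ S, ω i * fam 1 y 0 1 0 (t + h i) with hX
      set Y := fam (1 + i0) y 0 1 0 t with hY
      have h2 : |σ * (X - β * Y)| ≤ K1 * (T / t * Real.log t ^ 2) := by
        rw [abs_mul]
        calc |σ| * |X - β * Y| ≤ 1 * |X - β * Y| := mul_le_mul_of_nonneg_right hσ1 (abs_nonneg _)
          _ ≤ _ := by rw [one_mul]; exact k1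
      have h5 : K1 * (T / t * Real.log t ^ 2) ≤ c2 * (T * Real.log t) := by
        have e2 : K1 * (T / t * Real.log t ^ 2) = (K1 * Real.log t) * (T * Real.log t) / t := by
          field_simp
        rw [e2, div_le_iff₀ ht0]
        have : 0 ≤ T * Real.log t := by positivity
        nlinarith
      have h6 : |β| * (a * (T * Real.log t)) ≤ |β| * Y := mul_le_mul_of_nonneg_left k4 hβ0.le
      have h7 := (abs_le.mp h2).1
      have h8 : |β| * (a * (T * Real.log t)) = 2 * (c2 * (T * Real.log t)) := by rw [hc2]; ring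
      have h9 : σ * X = |β| * Y + σ * (X - β * Y) := by rw [← hσβ]; ring
      rw [h9]
      linarith
    · set X := ∑ i ∈ S, ω i * fam 1 y 1 0 0 (t + h i) with hX
      set Y := fam (1 + i0) y 1 0 0 t with hY
      have h1 : |X| ≤ |β * Y| + |X - β * Y| := by
        have := abs_add_le (β * Y) (X - β * Y)
        rwa [add_sub_cancel] at this
      have h2 : |β * Y| ≤ |β| * (K3 * (T * Real.log t ^ 2)) := by
        rw [abs_mul]
        exact mul_le_mul_of_nonneg_left k3 hβ0.le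
      have h3 : T / t ≤ T := by
        rw [div_le_iff₀ ht0]
        nlinarith
      have h4 : K2 * (T / t * Real.log t ^ 2) ≤ K2 * (T * Real.log t ^ 2) := by gcongr
      linarith
  refine ⟨σ, c2, (|β| * K3 + K2) / c2, max t1 (2 * H + 6), hσ1, hc20, by positivity, ?_, ?_, ?_, ?_⟩
  · exact le_trans (by linarith) (le_max_right _ _)
  · intro t ht i hi
    have htH : 2 * H + 6 ≤ t := (le_max_right _ _).trans ht
    have h1 := hHi i hi
    have h2 := (abs_le.mp (le_refl |h i|)).1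
    linarith
  · intro t ht y hy
    have ht3 : 3 ≤ t := le_trans (by linarith) ((le_max_right _ _).trans ht)
    refine le_trans ?_ (key t ht y hy).1
    have hlog := log_ge_one ht3
    have h1 : t ^ ((c - i0) - 1) ≤ t ^ (y - 1 - i0) := by
      apply Real.rpow_le_rpow_of_exponent_le (by linarith)
      linarith [hy.1]
    have h2 : 0 < t ^ (y - 1 - i0) := Real.rpow_pos_of_pos (by linarith) _
    apply mul_le_mul_of_nonneg_left _ hc20.le
    nlinarith
  · intro t ht y hy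
    have ht3 : 3 ≤ t := le_trans (by linarith) ((le_max_right _ _).trans ht)
    have hlog := log_ge_one ht3
    obtain ⟨h1, h2⟩ := key t ht y hy
    refine h2.trans ?_
    have h3 : (|β| * K3 + K2) / c2 * Real.log t * (c2 * (t ^ (y - 1 - i0) * Real.log t)) =
        (|β| * K3 + K2) * (t ^ (y - 1 - i0) * Real.log t ^ 2) := by
      field_simp
    rw [← h3]
    apply mul_le_mul_of_nonneg_left h1
    positivity

end Pool.Agent.NH20.NC
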