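import Mathlib
import Pool.Agent.NH20.NC.Nw
import Pool.Agent.R306.GP.Sums

/-!
Second moments of exponential sums with phases `∑ ω_i (n + h_i) ^ y` and Weyl's criterion for almost all `y`.
-/

set_option autoImplicit false

open MeasureTheory Filter Topology Set Real
open Pool.Agent.H469R2.NK (e norm_e e_add conj_e e_zero)
open Pool.Agent.R306.GP (vdc e_continuous)

namespace Pool.Agent.NH20.NC

lemma norm_int_neg {c d : ℝ} (hcd : c ≤ d) (f : ℝ → ℝ) : ‖∫ y in c..d, e (-f y)‖ = ‖∫ y in c..d, e (f y)‖ := by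
  rw [intervalIntegral.integral_of_le hcd, intervalIntegral.integral_of_le hcd]
  simp only [← conj_e]
  rw [integral_conj, RCLike.norm_conj]

lemma harm_sum (m : ℕ) : ∑ n ∈ Finset.range m, 1 / ((m:ℝ) - n) ≤ 1 + Real.log m := by
  have h1 := harmonic_le_one_add_log m
  have h2 : ((harmonic m : ℚ) : ℝ) = ∑ n ∈ Finset.range m, 1 / ((m:ℝ) - n) := by
    unfold harmonic
    push_cast
    rw [← Finset.sum_range_reflect]
    apply Finset.sum_congr rfl
    intro n hn
    have hn' := Finset.mem_range.mp hn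
    have e1 : ((m - 1 - n : ℕ) : ℝ) = (m:ℝ) - 1 - n := by
      rw [Nat.cast_sub (by omega), Nat.cast_sub (by omega)]
      simp
    rw [e1, ← one_div]
    congr 1
    ring
  rw [← h2]
  exact h1

/-- the second moment from bounds for pairs -/
lemma sq_pair {c d : ℝ} (hcd : c ≤ d) {Ψ : ℕ → ℝ → ℝ} {n0 : ℕ} (hΨ : ∀ n, n0 ≤ n → Continuous (Ψ n)) {L κ : ℝ} (hL : 0 ≤ L) (hκ : 0 < κ) (hκ1 : κ ≤ 1)
    (hK : ∀ n m : ℕ, n0 ≤ n → n < m → ‖∫ y in c..d, e (Ψ m y - Ψ n y)‖ ≤ L * (m:ℝ) ^ (1 - κ) / (m - n))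
    {N1 N2 : ℕ} (hN1 : n0 ≤ N1) (hN2 : 1 ≤ N2) :
    ∫ y in c..d, ‖∑ n ∈ Finset.Ico N1 N2, e (Ψ n y)‖ ^ 2 ≤ ((d - c) + 2 * L * (1 + 2 / κ)) * (N2:ℝ) ^ (2 - κ / 2) := by
  set S := Finset.Ico N1 N2 with hS
  have hN2r : (1:ℝ) ≤ N2 := by exact_mod_cast hN2
  have hS0 : ∀ n ∈ S, n0 ≤ n := fun n hn => hN1.trans (Finset.mem_Ico.mp hn).1
  have hSlt : ∀ n ∈ S, n < N2 := fun n hn => (Finset.mem_Ico.mp hn).2
  have h1 : ∀ y : ℝ, (((‖∑ n ∈ S, e (Ψ n y)‖ ^ 2 : ℝ)) : ℂ) = ∑ m ∈ S, ∑ n ∈ S, e (Ψ m y - Ψ n y) := by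
    intro y
    have h2 : (((‖∑ n ∈ S, e (Ψ n y)‖ ^ 2 : ℝ)) : ℂ) =
        (∑ n ∈ S, e (Ψ n y)) * (starRingEnd ℂ) (∑ n ∈ S, e (Ψ n y)) := by
      rw [Complex.mul_conj, Complex.normSq_eq_norm_sq]
    rw [h2, map_sum, Finset.sum_mul_sum]
    apply Finset.sum_congr rfl
    intro m _
    apply Finset.sum_congr rfl
    intro n _
    rw [conj_e, ← e_add, sub_eq_add_neg]
  have hc2 : ∀ m ∈ S, ∀ n ∈ S, Continuous fun y => e (Ψ m y - Ψ n y) := fun m hm n hn =>
    e_continuous.comp ((hΨ m (hS0 m hm)).sub (hΨ n (hS0 n hn)))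
  have h3 : ((∫ y in c..d, ‖∑ n ∈ S, e (Ψ n y)‖ ^ 2 : ℝ) : ℂ) =
      ∑ m ∈ S, ∑ n ∈ S, ∫ y in c..d, e (Ψ m y - Ψ n y) := by
    rw [← intervalIntegral.integral_ofReal]
    rw [intervalIntegral.integral_congr (fun y _ => h1 y)]
    rw [intervalIntegral.integral_finsetSum]
    · apply Finset.sum_congr rfl
      intro m hm
      rw [intervalIntegral.integral_finsetSum]
      intro n hn
      exact (hc2 m hm n hn).intervalIntegrable _ _
    · intro m hm
      exact (continuous_finsetSum _ fun n hn => hc2 m hm n hn).intervalIntegrable _ _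
  have h4 : ∫ y in c..d, ‖∑ n ∈ S, e (Ψ n y)‖ ^ 2 ≤ ∑ m ∈ S, ∑ n ∈ S, ‖∫ y in c..d, e (Ψ m y - Ψ n y)‖ := by
    have h5 : ∫ y in c..d, ‖∑ n ∈ S, e (Ψ n y)‖ ^ 2 ≤
        ‖((∫ y in c..d, ‖∑ n ∈ S, e (Ψ n y)‖ ^ 2 : ℝ) : ℂ)‖ := by
      rw [Complex.norm_real]; exact Real.le_norm_self _
    refine h5.trans ?_
    rw [h3]
    refine (norm_sum_le _ _).trans (Finset.sum_le_sum fun m _ => norm_sum_le _ _)
  refine h4.trans ?_
  set a : ℕ → ℕ → ℝ := fun m n => if n < m then L * (m:ℝ) ^ (1 - κ) / (m - n) else 0 with ha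
  have ha0 : ∀ m n, 0 ≤ a m n := by
    intro m n
    simp only [ha]
    split_ifs with h
    · have : (n:ℝ) < m := by exact_mod_cast h
      have h2 : 0 < (m:ℝ) - n := by linarith
      positivity
    · exact le_rfl
  have h6 : ∀ m ∈ S, ∀ n ∈ S, ‖∫ y in c..d, e (Ψ m y - Ψ n y)‖ ≤ (if m = n then (d - c) else 0) + (a m n + a n m) := by
    intro m hm n hn
    rcases lt_trichotomy n m with h | h | h
    · rw [if_neg (by omega)]
      have h2 := hK n m (hS0 n hn) h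
      have h5 : a m n = L * (m:ℝ) ^ (1 - κ) / (m - n) := by simp only [ha]; rw [if_pos h]
      have := ha0 n m
      linarith
    · subst h
      rw [if_pos rfl]
      simp only [sub_self, e_zero]
      rw [intervalIntegral.integral_const]
      have h7 : ‖((d - c : ℝ) : ℂ)‖ = d - c := by
        rw [Complex.norm_real, Real.norm_eq_abs, abs_of_nonneg (by linarith)]
      have := ha0 n n
      simp only [Complex.real_smul, mul_one]
      rw [h7]
      linarith
    · rw [if_neg (by omega)]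
      have h2 := hK m n (hS0 m hm) h
      have h8 := norm_int_neg hcd (fun y => Ψ n y - Ψ m y)
      simp only [neg_sub] at h8
      rw [h8]
      have h5 : a n m = L * (n:ℝ) ^ (1 - κ) / (n - m) := by simp only [ha]; rw [if_pos h]
      have := ha0 m n
      linarith
  have hlog0 : 0 ≤ Real.log N2 := Real.log_nonneg hN2r
  have h7 : ∀ m ∈ S, ∑ n ∈ S, a m n ≤ L * (N2:ℝ) ^ (1 - κ) * (1 + Real.log N2) := by
    intro m hm
    have hmN := hSlt m hm
    rcases Nat.eq_zero_or_pos m with hm0 | hm0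
    · have : ∑ n ∈ S, a m n = 0 := by
        apply Finset.sum_eq_zero
        intro n _
        simp only [ha]
        rw [if_neg (by omega)]
      rw [this]
      positivity
    have hm1 : (1:ℝ) ≤ m := by exact_mod_cast hm0
    have hmr : (m:ℝ) ≤ N2 := by exact_mod_cast hmN.le
    calc ∑ n ∈ S, a m n ≤ ∑ n ∈ Finset.range m, L * (m:ℝ) ^ (1 - κ) / (m - n) := by
          have hsub : ∑ n ∈ S, a m n = ∑ n ∈ S.filter (· < m), a m n := by
            rw [Finset.sum_filter]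
            apply Finset.sum_congr rfl
            intro n _
            split_ifs with h
            · rfl
            · simp only [ha]; rw [if_neg h]
          rw [hsub]
          calc ∑ n ∈ S.filter (· < m), a m n ≤ ∑ n ∈ Finset.range m, a m n := by
                apply Finset.sum_le_sum_of_subset_of_nonneg
                · intro n hn
                  rw [Finset.mem_filter] at hn
                  exact Finset.mem_range.mpr hn.2
                · intro n _ _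
                  exact ha0 m n
            _ = _ := by
                apply Finset.sum_congr rfl
                intro n hn
                simp only [ha]
                rw [if_pos (Finset.mem_range.mp hn)]
      _ = L * (m:ℝ) ^ (1 - κ) * ∑ n ∈ Finset.range m, 1 / ((m:ℝ) - n) := by
          rw [Finset.mul_sum]
          apply Finset.sum_congr rfl
          intro n _
          ring
      _ ≤ L * (m:ℝ) ^ (1 - κ) * (1 + Real.log m) := by
          apply mul_le_mul_of_nonneg_left (harm_sum m) (by positivity)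
      _ ≤ _ := by
          have g1 : (m:ℝ) ^ (1 - κ) ≤ (N2:ℝ) ^ (1 - κ) := Real.rpow_le_rpow (by linarith) hmr (by linarith)
          have g2 : Real.log m ≤ Real.log N2 := Real.log_le_log (by linarith) hmr
          have g3 : 0 ≤ Real.log m := Real.log_nonneg hm1
          gcongr
  have h8 : ∑ m ∈ S, ∑ n ∈ S, a m n ≤ (N2:ℝ) * (L * (N2:ℝ) ^ (1 - κ) * (1 + Real.log N2)) := by
    refine (Finset.sum_le_sum h7).trans ?_
    rw [Finset.sum_const, nsmul_eq_mul]
    apply mul_le_mul_of_nonneg_right _ (by positivity)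
    have : S.card ≤ N2 := by rw [hS, Nat.card_Ico]; omega
    exact_mod_cast this
  have hcard : (S.card : ℝ) ≤ N2 := by
    have : S.card ≤ N2 := by rw [hS, Nat.card_Ico]; omega
    exact_mod_cast this
  have hN20 : (0:ℝ) < N2 := by linarith
  have h9 : (N2:ℝ) ≤ (N2:ℝ) ^ (2 - κ / 2) := by
    calc (N2:ℝ) = (N2:ℝ) ^ (1:ℝ) := (Real.rpow_one _).symm
      _ ≤ _ := Real.rpow_le_rpow_of_exponent_le hN2r (by linarith)
  have h10 : (N2:ℝ) * ((N2:ℝ) ^ (1 - κ) * (1 + Real.log N2)) ≤ (1 + 2 / κ) * (N2:ℝ) ^ (2 - κ / 2) := by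
    have g1 : Real.log N2 ≤ (N2:ℝ) ^ (κ / 2) / (κ / 2) := Real.log_le_rpow_div hN20.le (by positivity)
    have g2 : 1 ≤ (N2:ℝ) ^ (κ / 2) := Real.one_le_rpow hN2r (by positivity)
    have g3 : 1 + Real.log N2 ≤ (1 + 2 / κ) * (N2:ℝ) ^ (κ / 2) := by
      have : (N2:ℝ) ^ (κ / 2) / (κ / 2) = 2 / κ * (N2:ℝ) ^ (κ / 2) := by field_simp
      rw [this] at g1
      linarith
    have g4 : (N2:ℝ) ^ (2 - κ / 2) = N2 * ((N2:ℝ) ^ (1 - κ) * (N2:ℝ) ^ (κ / 2)) := by
      rw [← Real.rpow_add hN20, mul_comm, ← Real.rpow_add_one hN20.ne']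
      congr 1; ring
    rw [g4]
    calc (N2:ℝ) * ((N2:ℝ) ^ (1 - κ) * (1 + Real.log N2)) ≤ N2 * ((N2:ℝ) ^ (1 - κ) * ((1 + 2 / κ) * (N2:ℝ) ^ (κ / 2))) := by
          gcongr
      _ = _ := by ring
  calc ∑ m ∈ S, ∑ n ∈ S, ‖∫ y in c..d, e (Ψ m y - Ψ n y)‖
      ≤ ∑ m ∈ S, ∑ n ∈ S, ((if m = n then (d - c) else 0) + (a m n + a n m)) :=
        Finset.sum_le_sum fun m hm => Finset.sum_le_sum fun n hn => h6 m hm n hn
    _ = S.card * (d - c) + 2 * ∑ m ∈ S, ∑ n ∈ S, a m n := by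
        simp only [Finset.sum_add_distrib]
        have g5 : ∑ m ∈ S, ∑ n ∈ S, (if m = n then (d - c) else 0) = S.card * (d - c) := by
          rw [Finset.sum_congr rfl (fun m hm => by rw [Finset.sum_ite_eq S m, if_pos hm])]
          rw [Finset.sum_const, nsmul_eq_mul]
        have g6 : ∑ m ∈ S, ∑ n ∈ S, a n m = ∑ m ∈ S, ∑ n ∈ S, a m n := Finset.sum_comm
        rw [g5, g6]
        ring
    _ ≤ (N2:ℝ) ^ (2 - κ / 2) * (d - c) + 2 * (L * ((1 + 2 / κ) * (N2:ℝ) ^ (2 - κ / 2))) := by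
        have g7 : 0 ≤ d - c := by linarith
        apply add_le_add
        · exact mul_le_mul_of_nonneg_right (hcard.trans h9) g7
        · apply mul_le_mul_of_nonneg_left _ (by norm_num)
          refine h8.trans ?_
          calc (N2:ℝ) * (L * (N2:ℝ) ^ (1 - κ) * (1 + Real.log N2)) = L * ((N2:ℝ) * ((N2:ℝ) ^ (1 - κ) * (1 + Real.log N2))) := by ring
            _ ≤ _ := mul_le_mul_of_nonneg_left h10 hL
    _ = _ := by ring

/-- separated sequences with a growth condition -/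
structure Sx (x : ℕ → ℝ) (δ τ G : ℝ) : Prop where
  dpos : 0 < δ
  gap : ∀ n, x n + δ ≤ x (n + 1)
  three : ∀ n, 3 ≤ x n
  tau0 : 0 ≤ τ
  tau1 : τ ≤ 1
  grow : ∀ n : ℕ, x n ^ τ ≤ G * ((n:ℝ) + 1)

lemma Sx.sep {x : ℕ → ℝ} {δ τ G : ℝ} (hx : Sx x δ τ G) {n m : ℕ} (hnm : n ≤ m) : x n + δ * (m - n) ≤ x m := by
  induction m, hnm using Nat.le_induction with
  | base => simp
  | succ m hnm ih =>
    have := hx.gap m
    push_cast
    linarith

lemma Sx.low {x : ℕ → ℝ} {δ τ G : ℝ} (hx : Sx x δ τ G) (n : ℕ) : δ * n ≤ x n := by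
  have h1 := hx.sep (Nat.zero_le n)
  have h2 := hx.three 0
  push_cast at h1
  linarith

lemma Sx.large {x : ℕ → ℝ} {δ τ G : ℝ} (hx : Sx x δ τ G) (X : ℝ) : ∃ n0 : ℕ, ∀ n, n0 ≤ n → X ≤ x n := by
  obtain ⟨n0, hn0⟩ := exists_nat_ge (X / δ)
  refine ⟨n0, fun n hn => ?_⟩
  have h1 := hx.low n
  have h2 : X / δ ≤ n := hn0.trans (by exact_mod_cast hn)
  rw [div_le_iff₀ hx.dpos] at h2
  linarith

/-- the size of the bound along the sequence -/
lemma Sx.trade {x : ℕ → ℝ} {δ τ G : ℝ} (hx : Sx x δ τ G) {θ D : ℝ} (hθ : 1 - τ < θ) (hD : 0 ≤ D) :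
    ∃ κ L : ℝ, 0 < κ ∧ κ ≤ 1 ∧ 0 < L ∧ ∀ m : ℕ, 1 ≤ m → (2 + D * Real.log (x m)) * x m ^ (1 - θ) ≤ L * (m:ℝ) ^ (1 - κ) := by
  have hG : 0 < G := by
    have h1 := hx.grow 0
    have h2 : 0 < x 0 ^ τ := Real.rpow_pos_of_pos (by linarith [hx.three 0]) _
    push_cast at h1
    linarith
  rcases lt_or_ge 1 θ with h1 | h1
  · refine ⟨1, 2 + D / (θ - 1), one_pos, le_rfl, by
      have : 0 < θ - 1 := by linarith
      positivity, fun m _ => ?_⟩
    have hm3 := hx.three m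
    have hm0 : 0 < x m := by linarith
    have hlog : Real.log (x m) ≤ x m ^ (θ - 1) / (θ - 1) := Real.log_le_rpow_div hm0.le (by linarith)
    have hone : x m ^ (1 - θ) ≤ 1 := Real.rpow_le_one_of_one_le_of_nonpos (by linarith) (by linarith)
    have hpos : 0 < x m ^ (1 - θ) := Real.rpow_pos_of_pos hm0 _
    have h2 : x m ^ (θ - 1) * x m ^ (1 - θ) = 1 := by
      rw [← Real.rpow_add hm0]; norm_num
    rw [sub_self, Real.rpow_zero, mul_one]
    calc (2 + D * Real.log (x m)) * x m ^ (1 - θ) = 2 * x m ^ (1 - θ) + D * Real.log (x m) * x m ^ (1 - θ) := by ring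
      _ ≤ 2 * 1 + D * (x m ^ (θ - 1) / (θ - 1)) * x m ^ (1 - θ) := by gcongr
      _ = 2 + D / (θ - 1) * (x m ^ (θ - 1) * x m ^ (1 - θ)) := by ring
      _ = _ := by rw [h2, mul_one]
  · have hτ : 0 < τ := by
      have := hx.tau0
      rcases this.eq_or_lt with h2 | h2
      · rw [← h2] at hθ; linarith
      · exact h2
    set a := 1 - θ with ha
    have ha0 : 0 ≤ a := by linarith
    have haτ : a < τ := by linarith
    set η := (τ - a) / 2 with hη
    have hη0 : 0 < η := by rw [hη]; linarith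
    have hexp : (a + η) / τ < 1 := by rw [div_lt_one hτ]; linarith
    have hexp0 : 0 ≤ (a + η) / τ := by positivity
    refine ⟨1 - (a + η) / τ, (2 + D / η) * (2 * G) ^ ((a + η) / τ), by linarith, by linarith, by positivity, fun m hm => ?_⟩
    have hm1 : (1:ℝ) ≤ m := by exact_mod_cast hm
    have hm3 := hx.three m
    have hm0 : 0 < x m := by linarith
    have hlog : Real.log (x m) ≤ x m ^ η / η := Real.log_le_rpow_div hm0.le hη0
    have h2 : 1 ≤ x m ^ η := Real.one_le_rpow (by linarith) hη0.le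
    have h3 : 2 + D * Real.log (x m) ≤ (2 + D / η) * x m ^ η := by
      have h4 : D * Real.log (x m) ≤ D * (x m ^ η / η) := mul_le_mul_of_nonneg_left hlog hD
      have e1 : D * (x m ^ η / η) = D / η * x m ^ η := by ring
      nlinarith
    have h5 : x m ^ η * x m ^ a = (x m ^ τ) ^ ((a + η) / τ) := by
      rw [← Real.rpow_add hm0, ← Real.rpow_mul hm0.le]
      congr 1
      field_simp
      ring
    have h6 : (x m ^ τ) ^ ((a + η) / τ) ≤ (2 * G) ^ ((a + η) / τ) * (m:ℝ) ^ ((a + η) / τ) := by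
      rw [← Real.mul_rpow (by positivity) (by positivity)]
      apply Real.rpow_le_rpow (Real.rpow_nonneg hm0.le _) _ hexp0
      have h7 := hx.grow m
      nlinarith
    have h8 : 0 < x m ^ a := Real.rpow_pos_of_pos hm0 _
    rw [sub_sub_cancel]
    calc (2 + D * Real.log (x m)) * x m ^ a ≤ ((2 + D / η) * x m ^ η) * x m ^ a := mul_le_mul_of_nonneg_right h3 h8.le
      _ = (2 + D / η) * (x m ^ η * x m ^ a) := by ring
      _ ≤ (2 + D / η) * ((2 * G) ^ ((a + η) / τ) * (m:ℝ) ^ ((a + η) / τ)) := by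
          rw [h5]
          exact mul_le_mul_of_nonneg_left h6 (by positivity)
      _ = _ := by ring

lemma fam0_y {a : ℝ} (ha : 0 < a) (y : ℝ) : HasDerivAt (fun y : ℝ => a ^ y) (fam 0 y 0 1 0 a) y := by
  have h := (Real.hasStrictDerivAt_const_rpow ha y).hasDerivAt
  refine h.congr_deriv ?_
  show _ = a ^ y * (0 * Real.log a ^ 2 + 1 * Real.log a + 0)
  ring

lemma fam1_y {a : ℝ} (ha : 0 < a) (y : ℝ) : HasDerivAt (fun y : ℝ => fam 0 y 0 1 0 a) (fam 0 y 1 0 0 a) y := by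
  have h := ((Real.hasStrictDerivAt_const_rpow ha y).hasDerivAt).mul_const (0 * Real.log a ^ 2 + 1 * Real.log a + 0)
  refine h.congr_deriv ?_
  show _ = a ^ y * (1 * Real.log a ^ 2 + 0 * Real.log a + 0)
  ring

lemma fam2_y {a : ℝ} (ha : 0 < a) : Continuous (fun y : ℝ => fam 0 y 1 0 0 a) := by
  show Continuous (fun y : ℝ => a ^ y * (1 * Real.log a ^ 2 + 0 * Real.log a + 0))
  exact (Real.continuous_const_rpow ha.ne').mul continuous_const

/-- pairs, general shifts -/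
theorem pair_bound {x : ℕ → ℝ} {δ τ G : ℝ} (hx : Sx x δ τ G) {ι : Type*} (S : Finset ι) (h : ι → ℝ)
    (hinj : Set.InjOn h S) (ω : ι → ℝ)
    (hω : ∃ i ∈ S, ω i ≠ 0) {c d : ℝ} (hc : (S.card : ℝ) < c + τ) (hcd : c ≤ d) :
    ∃ κ L : ℝ, 0 < κ ∧ κ ≤ 1 ∧ 0 < L ∧ ∃ n0 : ℕ, 1 ≤ n0 ∧ (∀ n, n0 ≤ n → ∀ i ∈ S, 0 < x n + h i) ∧
      ∀ n m : ℕ, n0 ≤ n → n < m →
      ‖∫ y in c..d, e (∑ i ∈ S, ω i * (x m + h i) ^ y - ∑ i ∈ S, ω i * (x n + h i) ^ y)‖ ≤
        L * (m:ℝ) ^ (1 - κ) / (m - n) := by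
  classical
  have hex : ∃ l, l < S.card ∧ ∑ i ∈ S, ω i * h i ^ l ≠ 0 := by
    by_contra hcon
    push Not at hcon
    obtain ⟨i, hi, hi0⟩ := hω
    exact hi0 (mom_zero S h hinj ω (fun l hl => hcon l hl) i hi)
  set i0 := Nat.find hex with hi0
  obtain ⟨hlt, hb⟩ := Nat.find_spec hex
  rw [← hi0] at hlt hb
  have hz : ∀ l < i0, ∑ i ∈ S, ω i * h i ^ l = 0 := by
    intro l hl
    by_contra hne
    exact Nat.find_min hex hl ⟨hl.trans hlt, hne⟩
  have hi0c : 1 - τ < c - i0 := by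
    have : (i0:ℝ) + 1 ≤ S.card := by exact_mod_cast hlt
    linarith
  have hi0c' : (i0:ℝ) < c := by linarith [hx.tau1]
  obtain ⟨σ, c2, C3, t0, hσ, hc2, hC3, ht0, hpos, hlow, hup⟩ := low_up S h ω hz hb d hi0c'
  set θ := c - i0 with hθ
  have hθ0 : 0 < θ := by rw [hθ]; linarith
  obtain ⟨n0, hn0⟩ := hx.large t0
  have hdc : 0 ≤ d - c := by linarith
  obtain ⟨κ, L, hκ, hκ1, hL, htr⟩ := hx.trade hi0c (D := C3 * (d - c)) (by positivity)
  refine ⟨κ, L * (1 + θ) / (c2 * δ), hκ, hκ1, by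
    have := hx.dpos
    positivity, max n0 1, le_max_right _ _, fun n hn i hi => hpos _ (hn0 n ((le_max_left _ _).trans hn)) i hi, ?_⟩
  intro n m hn hnm
  have hnr : t0 ≤ x n := hn0 n ((le_max_left _ _).trans hn)
  have hmn : (n:ℝ) < m := by exact_mod_cast hnm
  have hsep := hx.sep hnm.le
  have hδ := hx.dpos
  have h3 : 0 < (m:ℝ) - n := by linarith
  have hnmr : x n < x m := by
    have := mul_pos hδ h3
    linarith
  have h1 := phase_core hcd (f0 := fun t y => ∑ i ∈ S, ω i * (t + h i) ^ y)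
    (f1 := fun t y => ∑ i ∈ S, ω i * fam 0 y 0 1 0 (t + h i)) (f2 := fun t y => ∑ i ∈ S, ω i * fam 0 y 1 0 0 (t + h i))
    (g1 := fun t y => ∑ i ∈ S, ω i * fam 1 y 0 1 0 (t + h i)) (g2 := fun t y => ∑ i ∈ S, ω i * fam 1 y 1 0 0 (t + h i))
    (t0 := t0) (σ := σ) (c2 := c2) (C3 := C3) (θ := θ) (by linarith) hσ hc2 hC3 hθ0
    (fun t ht y _ => HasDerivAt.fun_sum fun i hi => (fam0_y (hpos t ht i hi) y).const_mul (ω i))
    (fun t ht y _ => HasDerivAt.fun_sum fun i hi => (fam1_y (hpos t ht i hi) y).const_mul (ω i))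
    (fun t ht => (continuous_finsetSum _ fun i hi => continuous_const.mul (fam2_y (hpos t ht i hi))).continuousOn)
    (fun t ht y _ => HasDerivAt.fun_sum fun i hi => ((fam_deriv 0 y 0 1 0 (hpos t ht i hi)).comp_add_const t (h i)).const_mul (ω i))
    (fun t ht y _ => HasDerivAt.fun_sum fun i hi => ((fam_deriv 0 y 1 0 0 (hpos t ht i hi)).comp_add_const t (h i)).const_mul (ω i))
    hlow hup hnr hnmr
  refine h1.trans ?_
  have h2 := htr m (by omega)
  have h4 : c2 * (δ * (m - n)) ≤ c2 * (x m - x n) := mul_le_mul_of_nonneg_left (by linarith) hc2.le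
  have h5 : 0 ≤ (2 + C3 * (d - c) * Real.log (x m)) * x m ^ (1 - θ) := by
    have hlog : 0 ≤ Real.log (x m) := Real.log_nonneg (by linarith [hx.three m])
    have := Real.rpow_pos_of_pos (by linarith [hx.three m] : 0 < x m) (1 - θ)
    positivity
  calc (2 + C3 * (d - c) * Real.log (x m)) * x m ^ (1 - θ) * (1 + θ) / (c2 * (x m - x n))
      ≤ (L * (m:ℝ) ^ (1 - κ)) * (1 + θ) / (c2 * (δ * (m - n))) := by
        apply div_le_div₀ (by positivity) _ (by positivity) h4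
        exact mul_le_mul_of_nonneg_right h2 (by linarith)
    _ = _ := by field_simp

/-- pairs, one frequency, with the dependence on the frequency -/
theorem pair_bound1 {x : ℕ → ℝ} {δ τ G : ℝ} (hx : Sx x δ τ G) {c d : ℝ} (hc : 1 < c + τ) (hcd : c ≤ d) :
    ∃ κ L : ℝ, 0 < κ ∧ κ ≤ 1 ∧ 0 < L ∧
    ∀ ω : ℝ, ω ≠ 0 → ∀ n m : ℕ, n < m →
      ‖∫ y in c..d, e (x m ^ y * ω - x n ^ y * ω)‖ ≤ (L / |ω|) * (m:ℝ) ^ (1 - κ) / (m - n) := by
  have hdc : 0 ≤ d - c := by linarith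
  have hδ := hx.dpos
  have hc0 : 0 < c := by linarith [hx.tau1]
  obtain ⟨κ, L, hκ, hκ1, hL, htr⟩ := hx.trade (θ := c) (D := 2 * (d - c)) (by linarith) (by positivity)
  refine ⟨κ, L * (1 + c) / δ, hκ, hκ1, by positivity, ?_⟩
  intro ω hω n m hnm
  have hω0 : 0 < |ω| := abs_pos.mpr hω
  have hnr := hx.three n
  have hmn : (n:ℝ) < m := by exact_mod_cast hnm
  have hsep := hx.sep hnm.le
  have h3 : 0 < (m:ℝ) - n := by linarith
  have hnmr : x n < x m := by
    have := mul_pos hδ h3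
    linarith
  obtain ⟨σ, hσ1, hσω⟩ : ∃ σ : ℝ, |σ| ≤ 1 ∧ σ * ω = |ω| := by
    rcases le_total 0 ω with h1 | h1
    · exact ⟨1, by norm_num, by rw [one_mul, abs_of_nonneg h1]⟩
    · exact ⟨-1, by norm_num, by rw [abs_of_nonpos h1]; ring⟩
  have e1 : ∀ t y : ℝ, fam 1 y 0 1 0 t = t ^ (y - 1) * (y * Real.log t + 1) := by
    intro t y
    show t ^ (y - 1) * (y * 0 * Real.log t ^ 2 + (y * 1 + 2 * 0) * Real.log t + (y * 0 + 1)) = _
    ring
  have e2 : ∀ t y : ℝ, fam 1 y 1 0 0 t = t ^ (y - 1) * (y * Real.log t ^ 2 + 2 * Real.log t) := by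
    intro t y
    show t ^ (y - 1) * (y * 1 * Real.log t ^ 2 + (y * 0 + 2 * 1) * Real.log t + (y * 0 + 0)) = _
    ring
  have h1 := phase_core hcd (f0 := fun t y => ω * t ^ y)
    (f1 := fun t y => ω * fam 0 y 0 1 0 t) (f2 := fun t y => ω * fam 0 y 1 0 0 t)
    (g1 := fun t y => ω * fam 1 y 0 1 0 t) (g2 := fun t y => ω * fam 1 y 1 0 0 t)
    (t0 := 1) (σ := σ) (c2 := |ω|) (C3 := 2) (θ := c) le_rfl hσ1 hω0 (by norm_num) hc0
    (fun t ht y _ => (fam0_y (by linarith) y).const_mul ω)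
    (fun t ht y _ => (fam1_y (by linarith) y).const_mul ω)
    (fun t ht => (continuous_const.mul (fam2_y (by linarith))).continuousOn)
    (fun t ht y _ => (fam_deriv 0 y 0 1 0 (by linarith)).const_mul ω)
    (fun t ht y _ => (fam_deriv 0 y 1 0 0 (by linarith)).const_mul ω)
    (fun t ht y hy => by
      have hlog : 0 ≤ Real.log t := Real.log_nonneg ht
      have hy0 : 0 < y := lt_of_lt_of_le hc0 hy.1
      rw [← mul_assoc, hσω, e1]
      apply mul_le_mul_of_nonneg_left _ hω0.le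
      have g1 : t ^ (c - 1) ≤ t ^ (y - 1) := Real.rpow_le_rpow_of_exponent_le ht (by linarith [hy.1])
      have g2 : 0 < t ^ (y - 1) := Real.rpow_pos_of_pos (by linarith) _
      have g3 : 1 ≤ y * Real.log t + 1 := by
        have := mul_nonneg hy0.le hlog
        linarith
      nlinarith)
    (fun t ht y hy => by
      have hlog : 0 ≤ Real.log t := Real.log_nonneg ht
      have hy0 : 0 < y := lt_of_lt_of_le hc0 hy.1
      have g2 : 0 < t ^ (y - 1) := Real.rpow_pos_of_pos (by linarith) _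
      have e4 : σ * (ω * fam 1 y 0 1 0 t) = |ω| * fam 1 y 0 1 0 t := by rw [← mul_assoc, hσω]
      have e5 : 0 ≤ t ^ (y - 1) * (y * Real.log t ^ 2 + 2 * Real.log t) := by positivity
      rw [e4, e1, e2, abs_mul, abs_of_nonneg e5]
      have g4 : 0 ≤ |ω| * t ^ (y - 1) := by positivity
      have g5 : 0 ≤ y * Real.log t ^ 2 := by positivity
      nlinarith [mul_nonneg g4 g5])
    (by linarith : (1:ℝ) ≤ x n) hnmr
  have e3 : ∀ y : ℝ, x m ^ y * ω - x n ^ y * ω = ω * x m ^ y - ω * x n ^ y := fun y => by ring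
  simp only [e3]
  refine h1.trans ?_
  have h2 := htr m (by omega)
  have h4 : |ω| * (δ * (m - n)) ≤ |ω| * (x m - x n) := mul_le_mul_of_nonneg_left (by linarith) hω0.le
  calc (2 + 2 * (d - c) * Real.log (x m)) * x m ^ (1 - c) * (1 + c) / (|ω| * (x m - x n))
      ≤ (L * (m:ℝ) ^ (1 - κ)) * (1 + c) / (|ω| * (δ * (m - n))) := by
        apply div_le_div₀ (by positivity) _ (by positivity) h4
        exact mul_le_mul_of_nonneg_right h2 (by linarith)
    _ = _ := by field_simp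

end Pool.Agent.NH20.NC
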