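import Mathlib
import Pool.Agent.NH20.NC.Sm
import Pool.Agent.R306.GP.AEd

/-!
Weyl sums `∑ e(∑ ω_i (n + h_i) ^ (c_{s_i}))` for almost all exponents.
-/

set_option autoImplicit false

open MeasureTheory Filter Topology Set Real
open Pool.Agent.H469R2.NK (e norm_e e_add conj_e e_zero)
open Pool.Agent.R306.GP (vdc e_continuous ae_zero' ae_zero tendsto_of_sq)

namespace Pool.Agent.NH20.NC

/-- averages of bounded numbers are controlled by those over powers -/
lemma powfill {z : ℕ → ℂ} (hz : ∀ n, ‖z n‖ ≤ 1) {p : ℕ} (hp : 1 ≤ p)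
    (h : Tendsto (fun m : ℕ => (∑ n ∈ Finset.range (m ^ p), z n) / ((m:ℂ) ^ p)) atTop (𝓝 0)) :
    Tendsto (fun N : ℕ => (∑ n ∈ Finset.range N, z n) / (N:ℂ)) atTop (𝓝 0) := by
  have hp0 : (0:ℝ) < p := by exact_mod_cast hp
  set r : ℕ → ℕ := fun N => ⌊(N:ℝ) ^ (1 / (p:ℝ))⌋₊ with hr
  have hs : Tendsto r atTop atTop := by
    have h1 : Tendsto (fun N : ℕ => (N:ℝ) ^ (1 / (p:ℝ))) atTop atTop :=
      (tendsto_rpow_atTop (by positivity)).comp tendsto_natCast_atTop_atTop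
    exact tendsto_nat_floor_atTop.comp h1
  have h1 := (tendsto_zero_iff_norm_tendsto_zero.mp h).comp hs
  have h2 : Tendsto (fun m : ℕ => (1 + 1 / (m:ℝ)) ^ p - 1) atTop (𝓝 0) := by
    have h3 : Tendsto (fun m : ℕ => 1 / (m:ℝ)) atTop (𝓝 0) := tendsto_one_div_atTop_nhds_zero_nat
    have h4 : Tendsto (fun m : ℕ => (1 + 1 / (m:ℝ)) ^ p - 1) atTop (𝓝 ((1 + 0) ^ p - 1)) :=
      ((h3.const_add 1).pow p).sub_const 1
    simpa using h4
  have h3 := h1.add (h2.comp hs)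
  rw [add_zero] at h3
  rw [tendsto_zero_iff_norm_tendsto_zero]
  refine squeeze_zero' (Eventually.of_forall fun _ => norm_nonneg _) ?_ h3
  filter_upwards [eventually_ge_atTop 1] with N hN
  simp only [Function.comp_apply]
  set m := r N with hm
  have hN0 : (0:ℝ) < N := by exact_mod_cast hN
  have hN1 : (1:ℝ) ≤ N := by exact_mod_cast hN
  have hroot : ((N:ℝ) ^ (1 / (p:ℝ))) ^ p = N := by
    rw [← Real.rpow_natCast, ← Real.rpow_mul hN0.le]
    rw [one_div_mul_cancel hp0.ne', Real.rpow_one]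
  have hm1 : 1 ≤ m := by
    rw [hm, hr]
    apply Nat.le_floor
    rw [Nat.cast_one]
    exact Real.one_le_rpow hN1 (by positivity)
  have hmr : (m:ℝ) ≤ (N:ℝ) ^ (1 / (p:ℝ)) := Nat.floor_le (by positivity)
  have hmr2 : (N:ℝ) ^ (1 / (p:ℝ)) < (m:ℝ) + 1 := Nat.lt_floor_add_one _
  have hmNr : (m:ℝ) ^ p ≤ N := by
    rw [← hroot]
    exact pow_le_pow_left₀ (Nat.cast_nonneg _) hmr p
  have hmN : m ^ p ≤ N := by exact_mod_cast hmNr
  have hNmr : (N:ℝ) ≤ ((m:ℝ) + 1) ^ p := by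
    rw [← hroot]
    exact pow_le_pow_left₀ (by positivity) hmr2.le p
  have hm0 : (0:ℝ) < m := by exact_mod_cast hm1
  have hsplit : ∑ n ∈ Finset.range N, z n = ∑ n ∈ Finset.range (m ^ p), z n + ∑ n ∈ Finset.Ico (m ^ p) N, z n := by
    rw [Finset.range_eq_Ico, Finset.range_eq_Ico, Finset.sum_Ico_consecutive _ (Nat.zero_le _) hmN]
  have h5 : ‖∑ n ∈ Finset.Ico (m ^ p) N, z n‖ ≤ (N:ℝ) - (m:ℝ) ^ p := by
    calc ‖∑ n ∈ Finset.Ico (m ^ p) N, z n‖ ≤ ∑ n ∈ Finset.Ico (m ^ p) N, ‖z n‖ := norm_sum_le _ _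
      _ ≤ ∑ _n ∈ Finset.Ico (m ^ p) N, (1:ℝ) := Finset.sum_le_sum fun n _ => hz n
      _ = ((N - m ^ p : ℕ) : ℝ) := by rw [Finset.sum_const, Nat.card_Ico, nsmul_eq_mul, mul_one]
      _ = _ := by rw [Nat.cast_sub hmN]; push_cast; rfl
  rw [norm_div, norm_div, Complex.norm_natCast, norm_pow, Complex.norm_natCast, hsplit]
  have hmp : 0 < (m:ℝ) ^ p := by positivity
  calc ‖∑ n ∈ Finset.range (m ^ p), z n + ∑ n ∈ Finset.Ico (m ^ p) N, z n‖ / N
      ≤ (‖∑ n ∈ Finset.range (m ^ p), z n‖ + (((m:ℝ) + 1) ^ p - (m:ℝ) ^ p)) / (m:ℝ) ^ p := by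
        apply div_le_div₀ (by
          have := norm_nonneg (∑ n ∈ Finset.range (m ^ p), z n)
          have : (m:ℝ) ^ p ≤ ((m:ℝ) + 1) ^ p := by linarith
          linarith) ((norm_add_le _ _).trans (by linarith)) hmp hmNr
    _ = _ := by
        rw [add_div]
        congr 1
        rw [sub_div, div_self hmp.ne', ← div_pow]
        congr 2
        field_simp

/-- from compact intervals to half lines -/
lemma ae_gt {p : ℝ → Prop} (a : ℝ) (h : ∀ c d : ℝ, a < c → c < d → ∀ᵐ y ∂(volume.restrict (Icc c d)), p y) :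
    ∀ᵐ y : ℝ, a < y → p y := by
  have h1 : ∀ᵐ y : ℝ, ∀ c d : ℚ, (a < (c:ℝ) ∧ (c:ℝ) < d) → y ∈ Icc (c:ℝ) d → p y := by
    rw [ae_all_iff]
    intro c
    rw [ae_all_iff]
    intro d
    by_cases hcd : a < (c:ℝ) ∧ (c:ℝ) < d
    · have h2 := h c d hcd.1 hcd.2
      rw [ae_restrict_iff' measurableSet_Icc] at h2
      filter_upwards [h2] with y hy _
      exact hy
    · exact Eventually.of_forall fun y h0 => absurd h0 hcd
  filter_upwards [h1] with y hy hy0
  obtain ⟨c, hc1, hc2⟩ := exists_rat_btwn hy0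
  obtain ⟨d, hd1, hd2⟩ := exists_rat_btwn (show y < y + 1 by linarith)
  exact hy c d ⟨hc1, by linarith⟩ ⟨hc2.le, hd1.le⟩

/-- Weyl sums on compact intervals -/
theorem weyl_Icc {x : ℕ → ℝ} {δ τ G : ℝ} (hx : Sx x δ τ G) {ι : Type*} (S : Finset ι) (h : ι → ℝ)
    (hinj : Set.InjOn h S) (ω : ι → ℝ)
    (hω : ∃ i ∈ S, ω i ≠ 0) {c d : ℝ} (hc : (S.card : ℝ) < c + τ) (hcd : c ≤ d) (lam : ℕ → ℝ) :
    ∀ᵐ y ∂(volume.restrict (Icc c d)), Tendsto (fun N : ℕ =>
      (∑ n ∈ Finset.range N, e (∑ i ∈ S, ω i * (x n + h i) ^ y + lam n)) / (N:ℂ)) atTop (𝓝 0) := by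
  obtain ⟨κ, L, hκ, hκ1, hL, n0, hn0, hpos, hpair⟩ := pair_bound hx S h hinj ω hω hc hcd
  set Ψ : ℕ → ℝ → ℝ := fun n y => ∑ i ∈ S, ω i * (x n + h i) ^ y + lam n with hΨ
  have hcont : ∀ n, n0 ≤ n → Continuous (Ψ n) := by
    intro n hn
    exact (continuous_finsetSum _ fun i hi => continuous_const.mul
      (Real.continuous_const_rpow (hpos n hn i hi).ne')).add continuous_const
  have hK : ∀ n m : ℕ, n0 ≤ n → n < m → ‖∫ y in c..d, e (Ψ m y - Ψ n y)‖ ≤ L * (m:ℝ) ^ (1 - κ) / (m - n) := by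
    intro n m hn hnm
    refine le_trans (le_of_eq ?_) (hpair n m hn hnm)
    have e1 : ∀ y : ℝ, e (Ψ m y - Ψ n y) = e (lam m - lam n) *
        e (∑ i ∈ S, ω i * (x m + h i) ^ y - ∑ i ∈ S, ω i * (x n + h i) ^ y) := by
      intro y
      rw [← e_add]
      congr 1
      simp only [hΨ]
      ring
    simp only [e1]
    rw [intervalIntegral.integral_const_mul, norm_mul, norm_e, one_mul]
  obtain ⟨p, hp⟩ := exists_nat_ge (4 / κ)
  have hpκ : 2 ≤ p * (κ / 2) := by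
    rw [div_le_iff₀ hκ] at hp
    linarith
  have hp0 : (0:ℝ) < p := by
    have : 0 < 4 / κ := by positivity
    linarith
  have hp1 : 1 ≤ p := by exact_mod_cast hp0
  set C := ((d - c) + 2 * L * (1 + 2 / κ)) with hC
  have hC0 : 0 ≤ C := by
    have : 0 ≤ d - c := by linarith
    positivity
  have hcontS : ∀ m : ℕ, Continuous fun y => (‖∑ n ∈ Finset.Ico n0 (m ^ p), e (Ψ n y)‖ / (m:ℝ) ^ p) ^ 2 := by
    intro m
    refine ((continuous_finsetSum _ fun n hn => ?_).norm.div_const _).pow 2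
    exact e_continuous.comp (hcont n (Finset.mem_Ico.mp hn).1)
  have hS : Summable fun m : ℕ => C * (1 / (m:ℝ) ^ 2) :=
    (Real.summable_one_div_nat_pow.mpr (by norm_num)).mul_left _
  have hae := ae_zero' hcd hcontS hS (j0 := 1) ?_ (fun _ _ => sq_nonneg _)
  · filter_upwards [hae] with y hy
    have h1 := tendsto_of_sq hy
    apply powfill (fun n => (norm_e _).le) hp1
    rw [tendsto_zero_iff_norm_tendsto_zero]
    have h2 : Tendsto (fun m : ℕ => ((n0:ℝ)) / (m:ℝ) ^ p) atTop (𝓝 0) := by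
      have h5 : Tendsto (fun m : ℕ => (m:ℝ) ^ p) atTop atTop :=
        (tendsto_pow_atTop (by omega)).comp tendsto_natCast_atTop_atTop
      exact tendsto_const_nhds.div_atTop h5
    have h3 := h1.add h2
    rw [add_zero] at h3
    refine squeeze_zero' (Eventually.of_forall fun _ => norm_nonneg _) ?_ h3
    filter_upwards [eventually_ge_atTop (n0 + 1)] with m hm
    have hm0 : (0:ℝ) < m := by
      have : 0 < m := by omega
      exact_mod_cast this
    have hnm : n0 ≤ m ^ p := (by omega : n0 ≤ m).trans (Nat.le_self_pow (by omega) m)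
    rw [norm_div, norm_pow, Complex.norm_natCast, ← add_div]
    apply div_le_div_of_nonneg_right _ (by positivity)
    rw [Finset.range_eq_Ico, ← Finset.sum_Ico_consecutive _ (Nat.zero_le n0) hnm]
    refine (norm_add_le _ _).trans ?_
    rw [add_comm]
    apply add_le_add le_rfl
    calc ‖∑ n ∈ Finset.Ico 0 n0, e (∑ i ∈ S, ω i * (x n + h i) ^ y + lam n)‖
        ≤ ∑ n ∈ Finset.Ico 0 n0, ‖e (∑ i ∈ S, ω i * (x n + h i) ^ y + lam n)‖ := norm_sum_le _ _
      _ = n0 := by simp [norm_e]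
  · intro m hm
    have hm0 : (0:ℝ) < m := by exact_mod_cast hm
    have hm1 : (1:ℝ) ≤ m := by exact_mod_cast hm
    have h1 := sq_pair hcd hcont hL.le hκ hκ1 hK (N1 := n0) (N2 := m ^ p) le_rfl (Nat.one_le_pow _ _ hm)
    have e1 : ∫ y in c..d, (‖∑ n ∈ Finset.Ico n0 (m ^ p), e (Ψ n y)‖ / (m:ℝ) ^ p) ^ 2 =
        ((m:ℝ) ^ (2 * p))⁻¹ * ∫ y in c..d, ‖∑ n ∈ Finset.Ico n0 (m ^ p), e (Ψ n y)‖ ^ 2 := by
      rw [← intervalIntegral.integral_const_mul]
      apply intervalIntegral.integral_congr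
      intro y _
      have e2 : ∀ x : ℝ, (x / (m:ℝ) ^ p) ^ 2 = ((m:ℝ) ^ (2 * p))⁻¹ * x ^ 2 := by
        intro x
        rw [div_pow, ← pow_mul, div_eq_inv_mul, mul_comm p 2]
      exact e2 _
    rw [e1]
    have e3 : (((m ^ p : ℕ)) : ℝ) ^ (2 - κ / 2) ≤ (m:ℝ) ^ (2 * p) * (1 / (m:ℝ) ^ 2) := by
      have g1 : (m:ℝ) ^ (2 * p) * (1 / (m:ℝ) ^ 2) = (m:ℝ) ^ (((2 * p : ℕ) : ℝ) - 2) := by
        rw [Real.rpow_sub hm0, Real.rpow_natCast]
        norm_num
        rfl
      rw [g1]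
      push_cast
      rw [← Real.rpow_natCast (m:ℝ) p, ← Real.rpow_mul hm0.le]
      apply Real.rpow_le_rpow_of_exponent_le hm1
      nlinarith
    calc ((m:ℝ) ^ (2 * p))⁻¹ * ∫ y in c..d, ‖∑ n ∈ Finset.Ico n0 (m ^ p), e (Ψ n y)‖ ^ 2
        ≤ ((m:ℝ) ^ (2 * p))⁻¹ * (C * ((m:ℝ) ^ (2 * p) * (1 / (m:ℝ) ^ 2))) := by
          apply mul_le_mul_of_nonneg_left _ (by positivity)
          exact h1.trans (mul_le_mul_of_nonneg_left e3 hC0)
      _ = _ := by
          have : (0:ℝ) < (m:ℝ) ^ (2 * p) := by positivity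
          field_simp

/-- Weyl sums, all large exponents -/
theorem weyl_gt {x : ℕ → ℝ} {δ τ G : ℝ} (hx : Sx x δ τ G) {ι : Type*} (S : Finset ι) (h : ι → ℝ)
    (hinj : Set.InjOn h S) (ω : ι → ℝ) (hω : ∃ i ∈ S, ω i ≠ 0) (lam : ℕ → ℝ) :
    ∀ᵐ y : ℝ, (S.card : ℝ) - τ < y → Tendsto (fun N : ℕ =>
      (∑ n ∈ Finset.range N, e (∑ i ∈ S, ω i * (x n + h i) ^ y + lam n)) / (N:ℂ)) atTop (𝓝 0) :=
  ae_gt _ fun _ _ hc hcd => weyl_Icc hx S h hinj ω hω (by linarith) hcd.le lam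

/-- slices -/
lemma ae_slice {k : ℕ} (j : Fin k) {p : (Fin k → ℝ) → Prop} (hp : MeasurableSet {c | p c})
    (h : ∀ c : Fin k → ℝ, ∀ᵐ y : ℝ, p (Function.update c j y)) : ∀ᵐ c : Fin k → ℝ, p c := by
  rw [ae_iff]
  have hm : MeasurableSet {c : Fin k → ℝ | ¬ p c} := hp.compl
  set f : (Fin k → ℝ) → ENNReal := Set.indicator {c : Fin k → ℝ | ¬ p c} 1 with hf
  have hfm : Measurable f := measurable_one.indicator hm
  have h1 : volume {c : Fin k → ℝ | ¬ p c} = ∫⁻ c, f c ∂(Measure.pi fun _ : Fin k => (volume : Measure ℝ)) := by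
    rw [hf, lintegral_indicator_one hm]
    rfl
  rw [h1, lintegral_eq_lmarginal_univ (0 : Fin k → ℝ), lmarginal_erase' f hfm (Finset.mem_univ j)]
  have h2 : (fun x : Fin k → ℝ => ∫⁻ xi : ℝ, f (Function.update x j xi)) = 0 := by
    funext x
    rw [Pi.zero_apply]
    have h3 : ∫⁻ xi : ℝ, f (Function.update x j xi) = ∫⁻ _ : ℝ, (0:ENNReal) := by
      apply lintegral_congr_ae
      filter_upwards [h x] with y hy
      simp [hf, hy]
    rw [h3, lintegral_zero]
  rw [h2]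
  simp [lmarginal]

/-- Weyl sums for several exponents -/
theorem weyl_k {x : ℕ → ℝ} {δ τ G : ℝ} (hx : Sx x δ τ G) {r k : ℕ} (h : Fin r → ℝ) (s : Fin r → Fin k)
    (hinj : ∀ i i', s i = s i' → h i = h i' → i = i')
    (ω : Fin r → ℝ) (hω : ω ≠ 0) :
    ∀ᵐ c : Fin k → ℝ, (∀ i, ((Finset.univ.filter fun i' => s i' = s i).card : ℝ) < c (s i) + τ) →
      Tendsto (fun N : ℕ => (∑ n ∈ Finset.range N, e (∑ i, ω i * (x n + h i) ^ (c (s i)))) / (N:ℂ)) atTop (𝓝 0) := by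
  obtain ⟨i1, hi1⟩ := Function.ne_iff.mp hω
  set j := s i1 with hj
  set S := Finset.univ.filter fun i => s i = j with hS
  have hmem : ∀ i, i ∈ S ↔ s i = j := fun i => by rw [hS]; simp
  have hinjS : Set.InjOn h S := by
    intro i hi i' hi' he
    rw [Finset.mem_coe, hmem] at hi hi'
    exact hinj i i' (hi.trans hi'.symm) he
  have key : ∀ᵐ c : Fin k → ℝ, (S.card : ℝ) - τ < c j → Tendsto (fun N : ℕ =>
      (∑ n ∈ Finset.range N, e (∑ i, ω i * (x n + h i) ^ (c (s i)))) / (N:ℂ)) atTop (𝓝 0) := by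
    apply ae_slice j
    · have hm1 : MeasurableSet {c : Fin k → ℝ | (S.card : ℝ) - τ < c j} :=
        measurableSet_lt measurable_const (measurable_pi_apply j)
      have hm2 : MeasurableSet {c : Fin k → ℝ | Tendsto (fun N : ℕ =>
          (∑ n ∈ Finset.range N, e (∑ i, ω i * (x n + h i) ^ (c (s i)))) / (N:ℂ)) atTop (𝓝 0)} := by
        refine measurableSet_tendsto_fun (f := fun (N : ℕ) (c : Fin k → ℝ) =>
          (∑ n ∈ Finset.range N, e (∑ i, ω i * (x n + h i) ^ (c (s i)))) / (N:ℂ)) (fun N => ?_) measurable_const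
        refine Measurable.div_const (Finset.measurable_sum _ fun n _ => ?_) _
        refine e_continuous.measurable.comp (Finset.measurable_sum _ fun i _ => ?_)
        exact (measurable_const.pow (measurable_pi_apply (s i))).const_mul _
      have : {c : Fin k → ℝ | (S.card : ℝ) - τ < c j → Tendsto (fun N : ℕ =>
          (∑ n ∈ Finset.range N, e (∑ i, ω i * (x n + h i) ^ (c (s i)))) / (N:ℂ)) atTop (𝓝 0)} =
          {c : Fin k → ℝ | (S.card : ℝ) - τ < c j}ᶜ ∪ {c : Fin k → ℝ | Tendsto (fun N : ℕ =>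
          (∑ n ∈ Finset.range N, e (∑ i, ω i * (x n + h i) ^ (c (s i)))) / (N:ℂ)) atTop (𝓝 0)} := by
        ext c
        simp only [mem_ofPred_eq, mem_union, mem_compl_iff]
        exact imp_iff_not_or
      rw [this]
      exact hm1.compl.union hm2
    · intro c
      filter_upwards [weyl_gt hx S h hinjS ω ⟨i1, (hmem i1).mpr rfl, hi1⟩
        (fun n => ∑ i ∈ Finset.univ.filter (fun i => ¬ s i = j), ω i * (x n + h i) ^ (c (s i)))] with y hy hlt
      rw [Function.update_self] at hlt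
      refine (hy hlt).congr fun N => ?_
      congr 1
      apply Finset.sum_congr rfl
      intro n _
      congr 1
      rw [← Finset.sum_filter_add_sum_filter_not Finset.univ (fun i => s i = j)
        (fun i => ω i * (x n + h i) ^ (Function.update c j y (s i)))]
      congr 1
      · apply Finset.sum_congr rfl
        intro i hi
        rw [(Finset.mem_filter.mp hi).2, Function.update_self]
      · apply Finset.sum_congr rfl
        intro i hi
        rw [Function.update_of_ne (Finset.mem_filter.mp hi).2]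
  filter_upwards [key] with c hc hall
  apply hc
  have := hall i1
  linarith

end Pool.Agent.NH20.NC
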