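import Mathlib
import Pool.Agent.NH20.NC.Wy

/-!
Mean square approximation of the error term at the points `n ^ y` by fixed model polynomials, for almost all `y`.
-/

set_option autoImplicit false

open MeasureTheory Filter Topology Set Real
open scoped ENNReal
open Pool.Agent.H469R2.NK (e norm_e e_add conj_e e_zero)
open Pool.Agent.H383.Gen (U Bd)
open Pool.Agent.Y969.TM
open Pool.Agent.R306.GP

namespace Pool.Agent.NH20.NC

variable {E : ℝ → ℝ} {af : ℕ → ℝ} {φ : ℝ}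

variable {x : ℕ → ℝ} {δ τ G : ℝ}

/-- the points `x_n ^ y` -/
noncomputable def np (x : ℕ → ℝ) (n : ℕ) (y : ℝ) : ℝ := x n ^ y

lemma np_cont (hx : Sx x δ τ G) (n : ℕ) : Continuous (np x n) := by
  have := hx.three n
  exact Real.continuous_const_rpow (by linarith)

lemma np_meas (x : ℕ → ℝ) (n : ℕ) : Measurable (np x n) := measurable_const.pow measurable_id

lemma sq_const1 (hx : Sx x δ τ G) {c d : ℝ} (hc : 1 < c + τ) (hcd : c ≤ d) : ∃ κ C : ℝ, 0 < κ ∧ κ ≤ 1 ∧ 0 < C ∧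
    ∀ ω : ℝ, ω ≠ 0 → ∀ N1 N2 : ℕ, 1 ≤ N2 →
      ∫ y in c..d, ‖∑ n ∈ Finset.Ico N1 N2, e (np x n y * ω)‖ ^ 2 ≤ C * (1 + 1 / |ω|) * (N2:ℝ) ^ (2 - κ / 2) := by
  obtain ⟨κ, L, hκ, hκ1, hL, hp⟩ := pair_bound1 hx hc hcd
  have hdc : 0 ≤ d - c := by linarith
  refine ⟨κ, (d - c) + 2 * L * (1 + 2 / κ), hκ, hκ1, by positivity, ?_⟩
  intro ω hω N1 N2 hN2
  have hω0 : 0 < |ω| := abs_pos.mpr hω
  have h1 := sq_pair hcd (Ψ := fun n y => np x n y * ω) (n0 := 0) (fun n _ => (np_cont hx n).mul continuous_const)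
    (L := L / |ω|) (by positivity) hκ hκ1 (fun n m _ hnm => hp ω hω n m hnm) (Nat.zero_le N1) hN2
  refine h1.trans ?_
  apply mul_le_mul_of_nonneg_right _ (by positivity)
  have e1 : 2 * (L / |ω|) * (1 + 2 / κ) = (2 * L * (1 + 2 / κ)) * (1 / |ω|) := by ring
  rw [e1]
  have h2 : 0 ≤ 2 * L * (1 + 2 / κ) := by positivity
  have h3 : 0 ≤ 1 / |ω| := by positivity
  nlinarith [mul_nonneg hdc h3]

/-- second moment of the squares of the model polynomials -/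
lemma pow2_sq (hx : Sx x δ τ G) {c d : ℝ} (hcd : c ≤ d) {κ C : ℝ} (hC : 0 < C)
    (hs : ∀ ω : ℝ, ω ≠ 0 → ∀ N1 N2 : ℕ, 1 ≤ N2 →
      ∫ y in c..d, ‖∑ n ∈ Finset.Ico N1 N2, e (np x n y * ω)‖ ^ 2 ≤ C * (1 + 1 / |ω|) * (N2:ℝ) ^ (2 - κ / 2))
    (af : ℕ → ℝ) (φ : ℝ) (r M : ℕ) {N1 N2 : ℕ} (hN2 : 1 ≤ N2) :
    ∫ y in c..d, ‖∑ n ∈ Finset.Ico N1 N2, (((U af φ (np x n y) M : ℝ) : ℂ) ^ r - ZZ af φ r M)‖ ^ 2 ≤
      AA af M ^ r * (AA af M ^ r * (C * (2 * ((r * M + 1 : ℕ) : ℝ) ^ (2 ^ r)) * (N2:ℝ) ^ (2 - κ / 2))) := by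
  classical
  set T := (TT r M).filter (fun y => ∑ i, fq (y i) ≠ 0) with hT
  set cc : (Fin r → ℕ × Bool) → ℂ := fun y => ∏ i, cf af φ (y i) with hcc
  set s : (Fin r → ℕ × Bool) → ℝ → ℂ := fun η y => ∑ n ∈ Finset.Ico N1 N2, e (np x n y * ∑ i, fq (η i)) with hsd
  have e1 : ∀ y : ℝ, ∑ n ∈ Finset.Ico N1 N2, (((U af φ (np x n y) M : ℝ) : ℂ) ^ r - ZZ af φ r M) =
      ∑ η ∈ T, cc η * s η y := by
    intro y
    simp only [pow_expand, hsd, hcc, hT]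
    rw [Finset.sum_comm]
    apply Finset.sum_congr rfl
    intro η _
    rw [Finset.mul_sum]
  have hA : ∑ η ∈ T, ‖cc η‖ ≤ AA af M ^ r := sum_norm_filter af φ r M _
  have hA0 : 0 ≤ AA af M ^ r := pow_nonneg (AA_nonneg _ _) _
  have hscont : ∀ η, Continuous (s η) := by
    intro η
    simp only [hsd]
    exact continuous_finsetSum _ fun n _ => e_continuous.comp ((np_cont hx n).mul continuous_const)
  have e2 : ∀ y : ℝ, ‖∑ η ∈ T, cc η * s η y‖ ^ 2 ≤ AA af M ^ r * ∑ η ∈ T, ‖cc η‖ * ‖s η y‖ ^ 2 := by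
    intro y
    have h1 : ‖∑ η ∈ T, cc η * s η y‖ ≤ ∑ η ∈ T, √‖cc η‖ * (√‖cc η‖ * ‖s η y‖) := by
      refine (norm_sum_le _ _).trans (le_of_eq ?_)
      apply Finset.sum_congr rfl
      intro η _
      rw [norm_mul, ← mul_assoc, Real.mul_self_sqrt (norm_nonneg _)]
    calc ‖∑ η ∈ T, cc η * s η y‖ ^ 2 ≤ (∑ η ∈ T, √‖cc η‖ * (√‖cc η‖ * ‖s η y‖)) ^ 2 :=
          pow_le_pow_left₀ (norm_nonneg _) h1 2
      _ ≤ (∑ η ∈ T, √‖cc η‖ ^ 2) * ∑ η ∈ T, (√‖cc η‖ * ‖s η y‖) ^ 2 := Finset.sum_mul_sq_le_sq_mul_sq _ _ _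
      _ = (∑ η ∈ T, ‖cc η‖) * ∑ η ∈ T, ‖cc η‖ * ‖s η y‖ ^ 2 := by
          congr 1
          · exact Finset.sum_congr rfl fun η _ => Real.sq_sqrt (norm_nonneg _)
          · exact Finset.sum_congr rfl fun η _ => by rw [mul_pow, Real.sq_sqrt (norm_nonneg _)]
      _ ≤ _ := by
          apply mul_le_mul_of_nonneg_right hA
          exact Finset.sum_nonneg fun η _ => by positivity
  have hcontL : Continuous fun y => ‖∑ n ∈ Finset.Ico N1 N2, (((U af φ (np x n y) M : ℝ) : ℂ) ^ r - ZZ af φ r M)‖ ^ 2 := by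
    simp only [e1]
    exact (continuous_finsetSum _ fun η _ => continuous_const.mul (hscont η)).norm.pow 2
  have hcontR : Continuous fun y => AA af M ^ r * ∑ η ∈ T, ‖cc η‖ * ‖s η y‖ ^ 2 :=
    continuous_const.mul (continuous_finsetSum _ fun η _ => continuous_const.mul ((hscont η).norm.pow 2))
  calc ∫ y in c..d, ‖∑ n ∈ Finset.Ico N1 N2, (((U af φ (np x n y) M : ℝ) : ℂ) ^ r - ZZ af φ r M)‖ ^ 2
      ≤ ∫ y in c..d, AA af M ^ r * ∑ η ∈ T, ‖cc η‖ * ‖s η y‖ ^ 2 := by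
        apply intervalIntegral.integral_mono_on hcd (hcontL.intervalIntegrable _ _) (hcontR.intervalIntegrable _ _)
        intro y _
        rw [e1]
        exact e2 y
    _ = AA af M ^ r * ∑ η ∈ T, ‖cc η‖ * ∫ y in c..d, ‖s η y‖ ^ 2 := by
        rw [intervalIntegral.integral_const_mul, intervalIntegral.integral_finsetSum]
        · congr 1
          apply Finset.sum_congr rfl
          intro η _
          rw [intervalIntegral.integral_const_mul]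
        · intro η _
          exact (continuous_const.mul ((hscont η).norm.pow 2)).intervalIntegrable _ _
    _ ≤ AA af M ^ r * ∑ η ∈ T, ‖cc η‖ * (C * (2 * ((r * M + 1 : ℕ) : ℝ) ^ (2 ^ r)) * (N2:ℝ) ^ (2 - κ / 2)) := by
        apply mul_le_mul_of_nonneg_left _ hA0
        apply Finset.sum_le_sum
        intro η hη
        apply mul_le_mul_of_nonneg_left _ (norm_nonneg _)
        rw [hT, Finset.mem_filter] at hη
        refine (hs _ hη.2 N1 N2 hN2).trans ?_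
        apply mul_le_mul_of_nonneg_right _ (by positivity)
        apply mul_le_mul_of_nonneg_left _ hC.le
        have h3 := gap_inv hη.1 hη.2 one_pos
        rw [mul_one, div_one] at h3
        have h4 : (1:ℝ) ≤ ((r * M + 1 : ℕ) : ℝ) ^ (2 ^ r) := one_le_pow₀ (by push_cast; nlinarith [Nat.cast_nonneg (α := ℝ) (r * M), (by positivity : (0:ℝ) ≤ r * M)])
        linarith
    _ ≤ _ := by
        apply mul_le_mul_of_nonneg_left _ hA0
        rw [← Finset.sum_mul]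
        apply mul_le_mul_of_nonneg_right hA
        positivity

lemma card_blk' (j : ℕ) : (Finset.Ico (2 ^ j) (2 ^ (j + 1))).card = 2 ^ j := by
  rw [Nat.card_Ico, pow_succ]; omega

lemma U_cont' (hx : Sx x δ τ G) (af : ℕ → ℝ) (φ : ℝ) (M n : ℕ) : Continuous fun y : ℝ => U af φ (np x n y) M :=
  (U_cont af φ M).comp (np_cont hx n)

/-- blocks, squares -/
lemma ae_blk2 (hx : Sx x δ τ G) {c d : ℝ} (hcd : c ≤ d) {κ C : ℝ} (hκ : 0 < κ) (hκ1 : κ ≤ 1) (hC : 0 < C)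
    (hs : ∀ ω : ℝ, ω ≠ 0 → ∀ N1 N2 : ℕ, 1 ≤ N2 →
      ∫ y in c..d, ‖∑ n ∈ Finset.Ico N1 N2, e (np x n y * ω)‖ ^ 2 ≤ C * (1 + 1 / |ω|) * (N2:ℝ) ^ (2 - κ / 2))
    {af : ℕ → ℝ} {Cs : ℝ} (hCs : 1 ≤ Cs) (hAA : ∀ M : ℕ, AA af M ≤ Cs * (M:ℝ) ^ 2) (φ : ℝ) {q : ℕ} (hq1 : 1 ≤ q)
    (hq : 48 ≤ q * κ) :
    ∀ᵐ y ∂(volume.restrict (Icc c d)), ∀ ε : ℝ, 0 < ε → ∀ᶠ j : ℕ in atTop, ‖((∑ n ∈ Finset.Ico (2 ^ j) (2 ^ (j + 1)),
      (U af φ (np x n y) (2 ^ (j / q))) ^ 2 : ℝ) : ℂ)‖ ≤ (‖ZZ af φ 2 (2 ^ (j / q))‖ + ε) * 2 ^ j := by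
  have hdc : 0 ≤ d - c := by linarith
  set g : ℕ → ℝ → ℝ := fun j y => ‖((2:ℝ) ^ j : ℂ)⁻¹ * ∑ n ∈ Finset.Ico (2 ^ j) (2 ^ (j + 1)),
      (((U af φ (np x n y) (2 ^ (j / q)) : ℝ) : ℂ) ^ 2 - ZZ af φ 2 (2 ^ (j / q)))‖ ^ 2 with hg
  have hcont : ∀ (j : ℕ), Continuous (g j) := by
    intro j
    refine ((continuous_const.mul (continuous_finsetSum _ fun n _ => ?_)).norm).pow 2
    exact ((Complex.continuous_ofReal.comp (U_cont' hx af φ _ n)).pow 2).sub continuous_const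
  set ρ : ℝ := (2:ℝ) ^ (-(κ / 4)) with hρ
  have hρ1 : ρ < 1 := Real.rpow_lt_one_of_one_lt_of_neg (by norm_num) (by linarith)
  have hρ0 : 0 < ρ := by positivity
  set B := Cs ^ 4 * (C * (2 * 81) * 4) with hB
  have hB0 : 0 ≤ B := by positivity
  have hint : ∀ j, 0 ≤ j → ∫ y in c..d, g j y ≤ B * ρ ^ j := by
    intro j _
    set N : ℕ := 2 ^ j with hN
    set M : ℕ := 2 ^ (j / q) with hM
    have hNR : ((2:ℝ) ^ j) = (N:ℝ) := by rw [hN]; push_cast; rfl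
    have hN0 : (0:ℝ) < (N:ℝ) := by rw [← hNR]; positivity
    have hM1 : (1:ℝ) ≤ M := by
      have : 1 ≤ M := Nat.one_le_two_pow
      exact_mod_cast this
    have h1 := pow2_sq hx hcd hC hs af φ 2 M (N1 := N) (N2 := 2 ^ (j + 1)) Nat.one_le_two_pow
    have hnorm : ∀ z : ℂ, ‖((2:ℝ) ^ j : ℂ)⁻¹ * z‖ ^ 2 = ((N:ℝ) ^ 2)⁻¹ * ‖z‖ ^ 2 := by
      intro z
      rw [norm_mul, mul_pow, norm_inv, norm_pow, Complex.norm_real, Real.norm_eq_abs, abs_of_pos (by norm_num : (0:ℝ) < 2),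
        hNR, inv_pow]
    simp only [hg, hnorm]
    rw [intervalIntegral.integral_const_mul]
    have hA1 : AA af M ^ 2 * AA af M ^ 2 ≤ Cs ^ 4 * (M:ℝ) ^ 8 := by
      calc AA af M ^ 2 * AA af M ^ 2 = AA af M ^ 4 := by ring
        _ ≤ (Cs * (M:ℝ) ^ 2) ^ 4 := pow_le_pow_left₀ (AA_nonneg _ _) (hAA M) 4
        _ = _ := by ring
    have hA2 : ((2 * M + 1 : ℕ) : ℝ) ^ (2 ^ 2) ≤ 81 * (M:ℝ) ^ 4 := by
      calc ((2 * M + 1 : ℕ) : ℝ) ^ (2 ^ 2) ≤ (3 * (M:ℝ)) ^ 4 := by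
            norm_num only
            apply pow_le_pow_left₀ (by positivity)
            push_cast
            linarith
        _ = _ := by ring
    have hN2 : (((2 ^ (j + 1) : ℕ)) : ℝ) ^ (2 - κ / 2) ≤ 4 * ((N:ℝ) ^ 2 * (N:ℝ) ^ (-(κ / 2))) := by
      have e1 : (((2 ^ (j + 1) : ℕ)) : ℝ) = 2 * N := by push_cast; rw [← hNR]; ring
      rw [e1, Real.mul_rpow (by norm_num) hN0.le]
      have g1 : (2:ℝ) ^ (2 - κ / 2) ≤ 4 := by
        calc (2:ℝ) ^ (2 - κ / 2) ≤ 2 ^ (2:ℝ) := Real.rpow_le_rpow_of_exponent_le (by norm_num) (by linarith)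
          _ = 4 := by norm_num
      have g2 : (N:ℝ) ^ (2 - κ / 2) = (N:ℝ) ^ 2 * (N:ℝ) ^ (-(κ / 2)) := by
        rw [sub_eq_add_neg, Real.rpow_add hN0, Real.rpow_two]
      rw [g2]
      apply mul_le_mul_of_nonneg_right g1 (by positivity)
    have hMN : (M:ℝ) ^ 12 ≤ (N:ℝ) ^ (κ / 4) := by
      have hq0 : (0:ℝ) < q := by exact_mod_cast hq1
      have h2 : ((j / q : ℕ) : ℝ) ≤ (j:ℝ) / q := Nat.cast_div_le
      rw [hM, hN]
      push_cast
      rw [← pow_mul, ← Real.rpow_natCast, ← Real.rpow_natCast, ← Real.rpow_mul (by norm_num)]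
      apply Real.rpow_le_rpow_of_exponent_le (by norm_num)
      push_cast
      have h3 : 12 * ((j:ℝ) / q) ≤ j * (κ / 4) := by
        rw [← mul_div_assoc, div_le_iff₀ hq0]
        have hj0 : (0:ℝ) ≤ j := Nat.cast_nonneg j
        nlinarith
      linarith
    have e3 : ρ ^ j = (N:ℝ) ^ (-(κ / 4)) := by
      rw [hρ, ← hNR, ← Real.rpow_natCast, ← Real.rpow_mul (by norm_num), ← Real.rpow_natCast, ← Real.rpow_mul (by norm_num)]
      congr 1; ring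
    have hN4 : (N:ℝ) ^ (κ / 4) * (N:ℝ) ^ (-(κ / 2)) = (N:ℝ) ^ (-(κ / 4)) := by
      rw [← Real.rpow_add hN0]; congr 1; ring
    have hNk : 0 ≤ (N:ℝ) ^ (-(κ / 2)) := by positivity
    calc ((N:ℝ) ^ 2)⁻¹ * ∫ y in c..d, ‖∑ n ∈ Finset.Ico N (2 ^ (j + 1)), (((U af φ (np x n y) M : ℝ) : ℂ) ^ 2 - ZZ af φ 2 M)‖ ^ 2
        ≤ ((N:ℝ) ^ 2)⁻¹ * (AA af M ^ 2 * (AA af M ^ 2 * (C * (2 * ((2 * M + 1 : ℕ) : ℝ) ^ (2 ^ 2)) *
          (((2 ^ (j + 1) : ℕ)) : ℝ) ^ (2 - κ / 2)))) := mul_le_mul_of_nonneg_left h1 (by positivity)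
      _ = ((N:ℝ) ^ 2)⁻¹ * ((AA af M ^ 2 * AA af M ^ 2) * (C * (2 * ((2 * M + 1 : ℕ) : ℝ) ^ (2 ^ 2)) *
          (((2 ^ (j + 1) : ℕ)) : ℝ) ^ (2 - κ / 2))) := by ring
      _ ≤ ((N:ℝ) ^ 2)⁻¹ * ((Cs ^ 4 * (M:ℝ) ^ 8) * (C * (2 * (81 * (M:ℝ) ^ 4)) *
          (4 * ((N:ℝ) ^ 2 * (N:ℝ) ^ (-(κ / 2)))))) := by gcongr
      _ = B * ((M:ℝ) ^ 12 * (N:ℝ) ^ (-(κ / 2))) := by
          rw [hB]; field_simp
      _ ≤ B * ((N:ℝ) ^ (κ / 4) * (N:ℝ) ^ (-(κ / 2))) := by gcongr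
      _ = _ := by rw [hN4, e3]
  have h1 := ae_zero' hcd hcont ((summable_geometric_of_lt_one hρ0.le hρ1).mul_left B) (j0 := 0) hint
    (fun _ _ => sq_nonneg _)
  filter_upwards [h1] with y hy ε hε
  have h2 := tendsto_of_sq hy
  filter_upwards [h2.eventually (gt_mem_nhds hε)] with j hj
  have h3 : (0:ℝ) < 2 ^ j := by positivity
  have h4 : ‖∑ n ∈ Finset.Ico (2 ^ j) (2 ^ (j + 1)),
      (((U af φ (np x n y) (2 ^ (j / q)) : ℝ) : ℂ) ^ 2 - ZZ af φ 2 (2 ^ (j / q)))‖ ≤ ε * 2 ^ j := by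
    rw [norm_mul, norm_inv, norm_pow, Complex.norm_real, Real.norm_eq_abs, abs_of_pos (by norm_num : (0:ℝ) < 2)] at hj
    rw [inv_mul_lt_iff₀ h3] at hj
    linarith
  have h5 : ((∑ n ∈ Finset.Ico (2 ^ j) (2 ^ (j + 1)), (U af φ (np x n y) (2 ^ (j / q))) ^ 2 : ℝ) : ℂ) =
      (∑ n ∈ Finset.Ico (2 ^ j) (2 ^ (j + 1)),
      (((U af φ (np x n y) (2 ^ (j / q)) : ℝ) : ℂ) ^ 2 - ZZ af φ 2 (2 ^ (j / q)))) + (2 ^ j : ℂ) * ZZ af φ 2 (2 ^ (j / q)) := by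
    rw [Finset.sum_sub_distrib, Finset.sum_const, card_blk', nsmul_eq_mul]
    push_cast
    ring
  rw [h5]
  refine (norm_add_le _ _).trans ?_
  rw [norm_mul, norm_pow]
  have h6 : ‖(2:ℂ)‖ = 2 := by simp
  rw [h6]
  linarith

/-- the zero-frequency part of the square -/
lemma zz_cut' (hX : Ctx E af φ) : ∃ C : ℝ, 0 < C ∧ ∀ K M : ℕ, 1 ≤ K → K ≤ M →
    ‖ZZ (cutc af K) φ 2 M‖ ≤ C * (K:ℝ) ^ (-(1/200):ℝ) := by
  have hSq : Sq (fun n => (n:ℝ) + 1) (fun _ => 1) 1 :=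
    ⟨one_pos, le_rfl, fun n => by
      have : (0:ℝ) ≤ n := Nat.cast_nonneg n
      show 1 ≤ (n:ℝ) + 1
      linarith, fun n => by
      show (n:ℝ) + 1 + 1 ≤ ((n + 1 : ℕ) : ℝ) + 1
      push_cast; linarith, fun _ => one_pos, monotone_const⟩
  exact zz_cut hX hSq one_pos one_lt_two

/-- the high frequencies -/
lemma ae_high (hX : Ctx E af φ) (hx : Sx x δ τ G) {c d : ℝ} (hc : 0 < c) (hcd : c ≤ d) {q : ℕ} (hq1 : 1 ≤ q) (hq : 200 ≤ q * c) :
    ∀ᵐ y ∂(volume.restrict (Icc c d)), Tendsto (fun j : ℕ => (∑ n ∈ Finset.Ico (2 ^ j) (2 ^ (j + 1)),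
      (E (np x n y) - U af φ (np x n y) (2 ^ (j / q))) ^ 2) / 2 ^ j) atTop (𝓝 0) := by
  obtain ⟨C, hC, ρ, hρ, hl⟩ := hX.l2 c d hcd
  have hq0 : (0:ℝ) < q := by exact_mod_cast hq1
  have hδ := hx.dpos
  have ev1 : ∀ᶠ j : ℕ in atTop, 2 ≤ δ ^ c * (2:ℝ) ^ ((j:ℝ) * (c / 2)) := by
    have h1 : Tendsto (fun j : ℕ => (2:ℝ) ^ ((j:ℝ) * (c / 2))) atTop atTop := by
      have h2 : Tendsto (fun j : ℕ => ((2:ℝ) ^ (c / 2)) ^ j) atTop atTop :=
        tendsto_pow_atTop_atTop_of_one_lt (Real.one_lt_rpow (by norm_num) (by positivity))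
      refine h2.congr fun j => ?_
      rw [← Real.rpow_natCast, ← Real.rpow_mul (by norm_num), mul_comm]
    have hδc : 0 < δ ^ c := Real.rpow_pos_of_pos hδ c
    have h3 := (tendsto_const_nhds (x := δ ^ c)).pos_mul_atTop hδc h1
    exact h3.eventually_ge_atTop 2
  have ev2 : ∀ᶠ j : ℕ in atTop, ρ ≤ (δ * (2:ℝ) ^ j) ^ c := by
    have h1 : Tendsto (fun j : ℕ => (δ * (2:ℝ) ^ j) ^ c) atTop atTop :=
      (tendsto_rpow_atTop hc).comp ((tendsto_pow_atTop_atTop_of_one_lt (by norm_num : (1:ℝ) < 2)).const_mul_atTop hδ)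
    exact h1.eventually_ge_atTop ρ
  obtain ⟨j1, hj1⟩ := eventually_atTop.mp (ev1.and ev2)
  have hmeas : ∀ (n M : ℕ), Measurable fun y : ℝ => (E (np x n y) - U af φ (np x n y) M) ^ 2 := by
    intro n M
    exact ((hX.meas.comp (np_meas x n)).sub ((U_cont af φ M).measurable.comp (np_meas x n))).pow_const 2
  refine ae_zero (fun j => ?_) (deg_summable hq1 C) (j0 := max j1 2) ?_ ?_
  · exact (Finset.measurable_sum _ fun n _ => hmeas n _).div_const _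
  · intro j hj
    obtain ⟨hja, hjb⟩ := hj1 j ((le_max_left _ _).trans hj)
    have hj2 : 2 ≤ j := (le_max_right _ _).trans hj
    set M : ℕ := 2 ^ (j / q) with hM
    have hM1 : 1 ≤ M := Nat.one_le_two_pow
    have hMr1 : (1:ℝ) ≤ M := by exact_mod_cast hM1
    have h2j : (0:ℝ) < 2 ^ j := by positivity
    have hM100 : (M:ℝ) ^ 100 ≤ (δ * (2:ℝ) ^ j) ^ c / 2 := by
      have h2 : ((j / q : ℕ) : ℝ) ≤ (j:ℝ) / q := Nat.cast_div_le
      have g1 : (M:ℝ) ^ 100 ≤ (2:ℝ) ^ ((j:ℝ) * (c / 2)) := by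
        rw [hM]
        push_cast
        rw [← pow_mul, ← Real.rpow_natCast]
        apply Real.rpow_le_rpow_of_exponent_le (by norm_num)
        push_cast
        have h3 : 100 * ((j:ℝ) / q) ≤ j * (c / 2) := by
          rw [← mul_div_assoc, div_le_iff₀ hq0]
          have hj0 : (0:ℝ) ≤ j := Nat.cast_nonneg j
          nlinarith
        linarith
      have g2 : (δ * (2:ℝ) ^ j) ^ c = (δ ^ c * (2:ℝ) ^ ((j:ℝ) * (c / 2))) * (2:ℝ) ^ ((j:ℝ) * (c / 2)) := by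
        rw [Real.mul_rpow hδ.le h2j.le, mul_assoc]
        congr 1
        rw [← Real.rpow_natCast, ← Real.rpow_mul (by norm_num), ← Real.rpow_add (by norm_num)]
        congr 1; ring
      rw [g2]
      have g3 : 0 < (2:ℝ) ^ ((j:ℝ) * (c / 2)) := by positivity
      nlinarith
    have hterm : ∀ n ∈ Finset.Ico (2 ^ j) (2 ^ (j + 1)),
        ∫⁻ y in Icc c d, ENNReal.ofReal ((E (np x n y) - U af φ (np x n y) M) ^ 2) ≤
          ENNReal.ofReal (C * (M:ℝ) ^ (-(1/200):ℝ)) := by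
      intro n hn
      have hn1 := (Finset.mem_Ico.mp hn).1
      have hn2 : (2:ℝ) ^ j ≤ n := by exact_mod_cast hn1
      have hx2 : δ * (2:ℝ) ^ j ≤ x n := (mul_le_mul_of_nonneg_left hn2 hδ.le).trans (hx.low n)
      have hx3 := hx.three n
      have hn0 : 0 < x n := by linarith
      have hlog : 1 ≤ Real.log (x n) := log_ge_one hx3
      have hexp : ∀ y : ℝ, 1 * exp (Real.log (x n) * y) = np x n y := by
        intro y
        unfold np
        rw [one_mul, Real.rpow_def_of_pos hn0]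
      have hnc : (δ * (2:ℝ) ^ j) ^ c ≤ np x n c := Real.rpow_le_rpow (by positivity) hx2 hc.le
      have h3 := hl (Real.log (x n)) 1 hlog one_pos (by rw [hexp]; exact hjb.trans hnc) M hM1 (by
        rw [hexp]; linarith)
      simp only [hexp] at h3
      exact h3
    have e1 : ∀ y : ℝ, ENNReal.ofReal ((∑ n ∈ Finset.Ico (2 ^ j) (2 ^ (j + 1)),
        (E (np x n y) - U af φ (np x n y) M) ^ 2) / 2 ^ j) = ENNReal.ofReal (1 / 2 ^ j) *
        ∑ n ∈ Finset.Ico (2 ^ j) (2 ^ (j + 1)), ENNReal.ofReal ((E (np x n y) - U af φ (np x n y) M) ^ 2) := by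
      intro y
      rw [← ENNReal.ofReal_sum_of_nonneg (fun _ _ => sq_nonneg _), ← ENNReal.ofReal_mul (by positivity)]
      congr 1
      ring
    simp only [e1]
    rw [lintegral_const_mul' _ _ ENNReal.ofReal_ne_top, lintegral_finsetSum _ (fun n _ => (hmeas n M).ennreal_ofReal)]
    calc ENNReal.ofReal (1 / 2 ^ j) * ∑ n ∈ Finset.Ico (2 ^ j) (2 ^ (j + 1)), ∫⁻ y in Icc c d, ENNReal.ofReal ((E (np x n y) - U af φ (np x n y) M) ^ 2)
        ≤ ENNReal.ofReal (1 / 2 ^ j) * ∑ _n ∈ Finset.Ico (2 ^ j) (2 ^ (j + 1)), ENNReal.ofReal (C * (M:ℝ) ^ (-(1/200):ℝ)) := by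
          gcongr with n hn
          exact hterm n hn
      _ = ENNReal.ofReal (C * (M:ℝ) ^ (-(1/200):ℝ)) := by
          rw [Finset.sum_const, card_blk', nsmul_eq_mul, ← mul_assoc, ← ENNReal.ofReal_natCast, ← ENNReal.ofReal_mul (by positivity)]
          have : 1 / (2:ℝ) ^ j * ((2 ^ j : ℕ) : ℝ) = 1 := by push_cast; field_simp
          rw [this, ENNReal.ofReal_one, one_mul]
      _ ≤ _ := by
          apply ENNReal.ofReal_le_ofReal
          apply mul_le_mul_of_nonneg_left _ hC.le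
          refine le_trans ?_ (deg_le hq1 j)
          exact Real.rpow_le_rpow_of_exponent_le hMr1 (by norm_num)
  · intro j y
    exact div_nonneg (Finset.sum_nonneg fun n _ => sq_nonneg _) (by positivity)

/-- approximation by fixed model polynomials, compact intervals -/
theorem good2_Icc (hX : Ctx E af φ) (hx : Sx x δ τ G) {c d : ℝ} (hc1 : 1 < c + τ) (hcd : c < d) :
    ∀ᵐ y ∂(volume.restrict (Icc c d)), ∀ ε : ℝ, 0 < ε → ∀ᶠ K : ℕ in atTop, ∀ᶠ N : ℕ in atTop,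
      ∑ n ∈ Finset.range N, (E (np x n y) - U af φ (np x n y) K) ^ 2 ≤ ε * N := by
  have hc : 0 < c := by linarith [hx.tau1]
  obtain ⟨κ, Cq, hκ, hκ1, hCq, hs⟩ := sq_const1 hx hc1 hcd.le
  obtain ⟨C, hC, hZ⟩ := zz_cut' hX
  obtain ⟨Cs, hCs, hAA⟩ := AA_le hX.bd
  obtain ⟨q, hq⟩ := exists_nat_ge (max (max (48 / κ) (200 / c)) 1)
  have hq1' : (1:ℝ) ≤ q := (le_max_right _ _).trans hq
  have hq1 : 1 ≤ q := by exact_mod_cast hq1'
  have hqκ : 48 ≤ q * κ := by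
    have : 48 / κ ≤ q := ((le_max_left _ _).trans (le_max_left _ _)).trans hq
    rwa [div_le_iff₀ hκ] at this
  have hqc : 200 ≤ q * c := by
    have : 200 / c ≤ q := ((le_max_right _ _).trans (le_max_left _ _)).trans hq
    rwa [div_le_iff₀ hc] at this
  have hfix : ∀ᵐ y ∂(volume.restrict (Icc c d)), ∀ K : ℕ, 1 ≤ K → ∀ ε : ℝ, 0 < ε → ∀ᶠ j : ℕ in atTop,
      ∑ n ∈ Finset.Ico (2 ^ j) (2 ^ (j + 1)), (U af φ (np x n y) (2 ^ (j / q)) - U af φ (np x n y) K) ^ 2 ≤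
        (C * (K:ℝ) ^ (-(1/200):ℝ) + ε) * 2 ^ j := by
    rw [ae_all_iff]
    intro K
    by_cases hK : 1 ≤ K
    · filter_upwards [ae_blk2 hx hcd.le hκ hκ1 hCq hs hCs (fun M => (AA_cut K M).trans (hAA M)) φ hq1 hqκ] with y hy _ ε hε
      have hKj : ∀ᶠ j : ℕ in atTop, K ≤ 2 ^ (j / q) := by
        filter_upwards [eventually_ge_atTop (K * q)] with j hj
        have : K ≤ j / q := (Nat.le_div_iff_mul_le (by omega)).mpr hj
        exact this.trans (Nat.lt_two_pow_self).le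
      filter_upwards [hy ε hε, hKj] with j hj hKj
      rw [Complex.norm_real] at hj
      have h1 := (Real.le_norm_self _).trans hj
      have h2 : ∑ n ∈ Finset.Ico (2 ^ j) (2 ^ (j + 1)), (U af φ (np x n y) (2 ^ (j / q)) - U af φ (np x n y) K) ^ 2 =
          ∑ n ∈ Finset.Ico (2 ^ j) (2 ^ (j + 1)), (U (cutc af K) φ (np x n y) (2 ^ (j / q))) ^ 2 := by
        apply Finset.sum_congr rfl
        intro n _
        rw [U_cut hKj]
      rw [h2]
      refine h1.trans ?_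
      apply mul_le_mul_of_nonneg_right _ (by positivity)
      have := hZ K _ hK hKj
      linarith
    · exact Eventually.of_forall fun y h0 => absurd h0 hK
  filter_upwards [ae_high hX hx hc hcd.le hq1 hqc, hfix] with y h2 h3 ε hε
  set η := min 1 (ε / 64) with hη
  have hη0 : 0 < η := by positivity
  have hηε : η ≤ ε / 64 := min_le_right _ _
  have hCK : ∀ᶠ K : ℕ in atTop, C * (K:ℝ) ^ (-(1/200):ℝ) < η := by
    have g1 : Tendsto (fun K : ℕ => C * (K:ℝ) ^ (-(1/200):ℝ)) atTop (𝓝 (C * 0)) :=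
      ((tendsto_rpow_neg_atTop (by norm_num : (0:ℝ) < 1/200)).comp tendsto_natCast_atTop_atTop).const_mul C
    rw [mul_zero] at g1
    exact g1.eventually (gt_mem_nhds hη0)
  filter_upwards [hCK, eventually_ge_atTop 1] with K hK hK1
  have h4 := h3 K hK1 η hη0
  have hces := ces (h := fun n : ℕ => (E (np x n y) - U af φ (np x n y) K) ^ 2) (fun n => sq_nonneg _)
    (L := 2 * η + 2 * (2 * η)) (by positivity) ?_ (ε / 2) (by positivity)
  · filter_upwards [hces] with N hN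
    refine hN.trans ?_
    apply mul_le_mul_of_nonneg_right _ (Nat.cast_nonneg N)
    linarith
  · filter_upwards [h2.eventually (gt_mem_nhds hη0), h4] with j g2 g3
    have h2j : (0:ℝ) < 2 ^ j := by positivity
    rw [div_lt_iff₀ h2j] at g2
    calc ∑ n ∈ Finset.Ico (2 ^ j) (2 ^ (j + 1)), (E (np x n y) - U af φ (np x n y) K) ^ 2
        ≤ ∑ n ∈ Finset.Ico (2 ^ j) (2 ^ (j + 1)), (2 * (E (np x n y) - U af φ (np x n y) (2 ^ (j / q))) ^ 2 +
            2 * (U af φ (np x n y) (2 ^ (j / q)) - U af φ (np x n y) K) ^ 2) := by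
          apply Finset.sum_le_sum
          intro n _
          nlinarith [sq_nonneg ((E (np x n y) - U af φ (np x n y) (2 ^ (j / q))) -
            (U af φ (np x n y) (2 ^ (j / q)) - U af φ (np x n y) K))]
      _ = 2 * ∑ n ∈ Finset.Ico (2 ^ j) (2 ^ (j + 1)), (E (np x n y) - U af φ (np x n y) (2 ^ (j / q))) ^ 2 +
          2 * ∑ n ∈ Finset.Ico (2 ^ j) (2 ^ (j + 1)), (U af φ (np x n y) (2 ^ (j / q)) - U af φ (np x n y) K) ^ 2 := by
          rw [Finset.sum_add_distrib, ← Finset.mul_sum, ← Finset.mul_sum]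
      _ ≤ 2 * (η * 2 ^ j) + 2 * ((η + η) * 2 ^ j) := by
          gcongr
          refine g3.trans ?_
          gcongr
      _ = _ := by ring

/-- approximation by fixed model polynomials, all exponents -/
theorem good2_all (hX : Ctx E af φ) (hx : Sx x δ τ G) : ∀ᵐ y : ℝ, 1 - τ < y → ∀ ε : ℝ, 0 < ε →
    ∀ᶠ K : ℕ in atTop, ∀ᶠ N : ℕ in atTop,
      ∑ n ∈ Finset.range N, (E (x n ^ y) - U af φ (x n ^ y) K) ^ 2 ≤ ε * N :=
  ae_gt _ fun _ _ hc hcd => good2_Icc hX hx (by linarith) hcd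

end Pool.Agent.NH20.NC
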