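import Mathlib
import Pool.Agent.NH20.NC.Gd
import Pool.Agent.R306.GP.IID
import Pool.Agent.R306.GP.Freq

/-!
Mixed moments and the joint law along `(n + h_i) ^ (c_{s_i})` for almost all exponents.
-/

set_option autoImplicit false

open MeasureTheory Filter Topology Set Real
open scoped ENNReal
open Pool.Agent.H469R2.NK (e norm_e e_add conj_e e_zero)
open Pool.Agent.H383.Gen (U Bd)
open Pool.Agent.Y969.TM
open Pool.Agent.R306.GP

namespace Pool.Agent.NH20.NC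

variable {E : ℝ → ℝ} {af : ℕ → ℝ} {φ : ℝ}

open Classical in
/-- the mixed moments -/
theorem mixed_k {x : ℕ → ℝ} {δ τ G : ℝ} (hxx : Sx x δ τ G) {r k : ℕ} (h : Fin r → ℝ) (s : Fin r → Fin k)
    (hinj : ∀ i i', s i = s i' → h i = h i' → i = i') (af : ℕ → ℝ) (φ : ℝ) :
    ∀ᵐ c : Fin k → ℝ, (∀ i, ((Finset.univ.filter fun i' => s i' = s i).card : ℝ) < c (s i) + τ) →
      ∀ (p : Fin r → ℕ) (K : ℕ), Tendsto (fun N : ℕ => (∑ n ∈ Finset.range N,
        ∏ i : Fin r, ((U af φ ((x n + h i) ^ (c (s i))) K : ℝ) : ℂ) ^ (p i)) / (N:ℂ)) atTop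
      (𝓝 (∏ i, ZZ af φ (p i) K)) := by
  have key : ∀ᵐ c : Fin k → ℝ, ∀ (p : Fin r → ℕ) (K : ℕ),
      (∀ i, ((Finset.univ.filter fun i' => s i' = s i).card : ℝ) < c (s i) + τ) →
      ∀ z ∈ Fintype.piFinset (fun j : Fin r => TT (p j) K), (fun i => ∑ l, fq (z i l)) ≠ (0 : Fin r → ℝ) →
      Tendsto (fun N : ℕ => (∑ n ∈ Finset.range N, e (∑ i, (∑ l, fq (z i l)) * (x n + h i) ^ (c (s i)))) / (N:ℂ))
        atTop (𝓝 0) := by
    rw [ae_all_iff]
    intro p
    rw [ae_all_iff]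
    intro K
    have h1 : ∀ᵐ c : Fin k → ℝ, ∀ z : (Fintype.piFinset (fun j : Fin r => TT (p j) K)),
        (∀ i, ((Finset.univ.filter fun i' => s i' = s i).card : ℝ) < c (s i) + τ) →
        (fun i => ∑ l, fq (z.1 i l)) ≠ (0 : Fin r → ℝ) →
        Tendsto (fun N : ℕ => (∑ n ∈ Finset.range N, e (∑ i, (∑ l, fq (z.1 i l)) * (x n + h i) ^ (c (s i)))) / (N:ℂ))
          atTop (𝓝 0) := by
      rw [ae_all_iff]
      intro z
      by_cases hzz : (fun i => ∑ l, fq (z.1 i l)) ≠ (0 : Fin r → ℝ)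
      · filter_upwards [weyl_k hxx h s hinj (fun i => ∑ l, fq (z.1 i l)) hzz] with c hc h0 _
        exact hc h0
      · exact Eventually.of_forall fun y _ h0 => absurd h0 hzz
    filter_upwards [h1] with c hc hc0 z hz0 hP
    exact hc ⟨z, hz0⟩ hc0 hP
  filter_upwards [key] with c hc hc0 p K
  have hexp : ∀ n : ℕ, ∏ i : Fin r, ((U af φ ((x n + h i) ^ (c (s i))) K : ℝ) : ℂ) ^ (p i) =
      ∑ z ∈ Fintype.piFinset (fun j : Fin r => TT (p j) K), (∏ i, ∏ l, cf af φ (z i l)) *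
        e (∑ i, (∑ l, fq (z i l)) * (x n + h i) ^ (c (s i))) := by
    intro n
    simp only [U_pow]
    rw [Finset.prod_univ_sum]
    apply Finset.sum_congr rfl
    intro z _
    rw [Finset.prod_mul_distrib, ← e_sum]
    congr 2
    apply Finset.sum_congr rfl
    intro i _
    ring
  have hlim : ∀ z ∈ Fintype.piFinset (fun j : Fin r => TT (p j) K),
      Tendsto (fun N : ℕ => (∑ n ∈ Finset.range N, e (∑ i, (∑ l, fq (z i l)) * (x n + h i) ^ (c (s i)))) / (N:ℂ)) atTop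
        (𝓝 (∏ i, if ∑ l, fq (z i l) = 0 then (1:ℂ) else 0)) := by
    intro z hz0
    by_cases hP : (fun i => ∑ l, fq (z i l)) = (0 : Fin r → ℝ)
    · have hz : ∀ i : Fin r, ∑ l, fq (z i l) = 0 := fun i => congrFun hP i
      have h3 : (∏ i, if ∑ l, fq (z i l) = 0 then (1:ℂ) else 0) = 1 := by
        apply Finset.prod_eq_one
        intro i _
        rw [if_pos (hz i)]
      rw [h3]
      refine tendsto_const_nhds.congr' ?_
      filter_upwards [eventually_ge_atTop 1] with N hN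
      have hN0 : (N:ℂ) ≠ 0 := by
        have : N ≠ 0 := by omega
        exact_mod_cast this
      simp only [hz, zero_mul, Finset.sum_const_zero, e_zero, Finset.sum_const, Finset.card_range, nsmul_eq_mul, mul_one]
      rw [div_self hN0]
    · have h3 : (∏ i, if ∑ l, fq (z i l) = 0 then (1:ℂ) else 0) = 0 := by
        by_contra hne
        apply hP
        funext i
        have h4 := Finset.prod_ne_zero_iff.mp hne i (Finset.mem_univ i)
        by_cases h5 : ∑ l, fq (z i l) = 0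
        · exact h5
        · rw [if_neg h5] at h4
          exact absurd rfl h4
      rw [h3]
      exact hc p K hc0 z hz0 hP
  have h6 : Tendsto (fun N : ℕ => ∑ z ∈ Fintype.piFinset (fun j : Fin r => TT (p j) K), (∏ i, ∏ l, cf af φ (z i l)) *
      ((∑ n ∈ Finset.range N, e (∑ i, (∑ l, fq (z i l)) * (x n + h i) ^ (c (s i)))) / (N:ℂ))) atTop
      (𝓝 (∑ z ∈ Fintype.piFinset (fun j : Fin r => TT (p j) K), (∏ i, ∏ l, cf af φ (z i l)) *
        (∏ i, if ∑ l, fq (z i l) = 0 then (1:ℂ) else 0))) :=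
    tendsto_finsetSum _ fun z hz0 => (hlim z hz0).const_mul _
  have h7 : ∑ z ∈ Fintype.piFinset (fun j : Fin r => TT (p j) K), (∏ i, ∏ l, cf af φ (z i l)) *
        (∏ i, if ∑ l, fq (z i l) = 0 then (1:ℂ) else 0) = ∏ i, ZZ af φ (p i) K := by
    simp only [← Finset.prod_mul_distrib]
    rw [← Finset.prod_univ_sum (fun j : Fin r => TT (p j) K)
      (fun j (η : Fin (p j) → ℕ × Bool) => (∏ i, cf af φ (η i)) * (if ∑ i, fq (η i) = 0 then (1:ℂ) else 0))]
    apply Finset.prod_congr rfl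
    intro j _
    unfold ZZ
    rw [Finset.sum_filter]
    apply Finset.sum_congr rfl
    intro η _
    split_ifs <;> simp
  rw [h7] at h6
  refine h6.congr fun N => ?_
  simp only [hexp]
  rw [Finset.sum_comm, Finset.sum_div]
  apply Finset.sum_congr rfl
  intro z _
  rw [← Finset.mul_sum, mul_div_assoc]

/-- functions of quadratic growth -/
theorem quad_conv {k : ℕ} {X : ℕ → Fin k → ℝ} {ν : Measure (Fin k → ℝ)} [IsProbabilityMeasure ν]
    (hlaw : ∀ g : (Fin k → ℝ) → ℝ, Continuous g → (∃ B, ∀ x, |g x| ≤ B) →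
      Tendsto (fun N : ℕ => (∑ n ∈ Finset.range N, g (X n)) / (N:ℝ)) atTop (𝓝 (∫ x, g x ∂ν)))
    (htail : ∀ ε : ℝ, 0 < ε → ∃ T : ℝ, 0 ≤ T ∧ ∀ᶠ N : ℕ in atTop,
      ∑ n ∈ Finset.range N, (if T < ‖X n‖ then ‖X n‖ ^ 2 else 0) ≤ ε * N)
    {f : (Fin k → ℝ) → ℝ} (hf : Continuous f) (hfg : ∃ C : ℝ, ∀ x, |f x| ≤ C * (1 + ‖x‖ ^ 2)) :
    Integrable f ν ∧ Tendsto (fun N : ℕ => (∑ n ∈ Finset.range N, f (X n)) / (N:ℝ)) atTop (𝓝 (∫ x, f x ∂ν)) := by
  obtain ⟨C, hC⟩ := hfg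
  have hC0 : 0 ≤ C := by
    have h1 := hC 0
    have h2 := abs_nonneg (f 0)
    have h3 : (0:ℝ) < 1 + ‖(0 : Fin k → ℝ)‖ ^ 2 := by positivity
    by_contra hneg
    push Not at hneg
    nlinarith
  -- second moment
  have hmom : ∃ D : ℝ, 0 ≤ D ∧ ∀ᶠ N : ℕ in atTop, ∑ n ∈ Finset.range N, ‖X n‖ ^ 2 ≤ D * N := by
    obtain ⟨T, hT0, hT⟩ := htail 1 one_pos
    refine ⟨T ^ 2 + 1, by positivity, ?_⟩
    filter_upwards [hT] with N hN
    have h1 : ∀ n, ‖X n‖ ^ 2 ≤ T ^ 2 + (if T < ‖X n‖ then ‖X n‖ ^ 2 else 0) := by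
      intro n
      split_ifs with h
      · nlinarith [sq_nonneg T]
      · rw [add_zero]
        exact pow_le_pow_left₀ (norm_nonneg _) (not_lt.mp h) 2
    calc ∑ n ∈ Finset.range N, ‖X n‖ ^ 2 ≤ ∑ n ∈ Finset.range N, (T ^ 2 + (if T < ‖X n‖ then ‖X n‖ ^ 2 else 0)) :=
          Finset.sum_le_sum fun n _ => h1 n
      _ = N * T ^ 2 + ∑ n ∈ Finset.range N, (if T < ‖X n‖ then ‖X n‖ ^ 2 else 0) := by
          rw [Finset.sum_add_distrib, Finset.sum_const, Finset.card_range, nsmul_eq_mul]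
      _ ≤ _ := by linarith
  obtain ⟨D, hD0, hD⟩ := hmom
  have hi2 : Integrable (fun x : Fin k → ℝ => ‖x‖ ^ 2) ν := by
    have hB : ∀ B : ℕ, ∫ x, min (‖x‖ ^ 2) (B:ℝ) ∂ν ≤ D := by
      intro B
      have h1 := hlaw (fun x => min (‖x‖ ^ 2) (B:ℝ)) (by fun_prop) ⟨B, fun x => by
        rw [abs_of_nonneg (le_min (by positivity) (Nat.cast_nonneg B))]; exact min_le_right _ _⟩
      refine le_of_tendsto h1 ?_
      filter_upwards [hD, eventually_ge_atTop 1] with N hN hN1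
      have hN0 : (0:ℝ) < N := by exact_mod_cast hN1
      rw [div_le_iff₀ hN0]
      exact (Finset.sum_le_sum fun n _ => min_le_left _ _).trans hN
    have hli : ∫⁻ x, ENNReal.ofReal (‖x‖ ^ 2) ∂ν ≤ ENNReal.ofReal D := by
      have h2 : ∀ x : Fin k → ℝ, Tendsto (fun B : ℕ => ENNReal.ofReal (min (‖x‖ ^ 2) (B:ℝ))) atTop (𝓝 (ENNReal.ofReal (‖x‖ ^ 2))) := by
        intro x
        obtain ⟨B0, hB0⟩ := exists_nat_ge (‖x‖ ^ 2)
        refine tendsto_const_nhds.congr' ?_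
        filter_upwards [eventually_ge_atTop B0] with B hBB
        rw [min_eq_left (hB0.trans (by exact_mod_cast hBB))]
      have h3 : ∫⁻ x, ENNReal.ofReal (‖x‖ ^ 2) ∂ν = ∫⁻ x, liminf (fun B : ℕ => ENNReal.ofReal (min (‖x‖ ^ 2) (B:ℝ))) atTop ∂ν :=
        lintegral_congr fun x => ((h2 x).liminf_eq).symm
      rw [h3]
      refine (lintegral_liminf_le fun B => ?_).trans ?_
      · fun_prop
      · refine liminf_le_of_le (by isBoundedDefault) ?_
        intro b hb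
        obtain ⟨B, hB'⟩ := hb.exists
        refine hB'.trans ?_
        rw [← ofReal_integral_eq_lintegral_ofReal]
        · exact ENNReal.ofReal_le_ofReal (hB B)
        · have hc : Continuous fun x : Fin k → ℝ => min (‖x‖ ^ 2) (B:ℝ) := by fun_prop
          refine Integrable.of_bound hc.aestronglyMeasurable (B:ℝ) (Eventually.of_forall fun x => ?_)
          rw [Real.norm_eq_abs, abs_of_nonneg (le_min (by positivity) (Nat.cast_nonneg B))]
          exact min_le_right _ _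
        · exact Eventually.of_forall fun x => le_min (by positivity) (Nat.cast_nonneg B)
    refine ⟨(by fun_prop : Continuous fun x : Fin k → ℝ => ‖x‖ ^ 2).aestronglyMeasurable, ?_⟩
    rw [hasFiniteIntegral_iff_ofReal (Eventually.of_forall fun x => by positivity)]
    exact lt_of_le_of_lt hli ENNReal.ofReal_lt_top
  have hfi : Integrable f ν := by
    refine (((integrable_const (1:ℝ)).add hi2).const_mul C).mono' hf.aestronglyMeasurable (Eventually.of_forall fun x => ?_)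
    rw [Real.norm_eq_abs]
    exact hC x
  refine ⟨hfi, ?_⟩
  have hfc : ∀ T : ℝ, Integrable (fun x => f x * cut T x) ν := fun T => by
    refine hfi.mono (hf.mul (cut_cont T)).aestronglyMeasurable (Eventually.of_forall fun x => ?_)
    rw [norm_mul, Real.norm_eq_abs (cut T x), abs_of_nonneg (cut_nonneg T x)]
    exact mul_le_of_le_one_right (norm_nonneg _) (cut_le_one T x)
  -- the integrals
  have hdom : Tendsto (fun B : ℕ => ∫ x, f x * cut (B:ℝ) x ∂ν) atTop (𝓝 (∫ x, f x ∂ν)) := by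
    refine tendsto_integral_of_dominated_convergence (fun x => |f x|) (fun B => (hfc B).aestronglyMeasurable) hfi.abs
      (fun B => Eventually.of_forall fun x => ?_) (Eventually.of_forall fun x => ?_)
    · rw [norm_mul, Real.norm_eq_abs, Real.norm_eq_abs, abs_of_nonneg (cut_nonneg _ x)]
      exact mul_le_of_le_one_right (abs_nonneg _) (cut_le_one _ x)
    · obtain ⟨B0, hB0⟩ := exists_nat_ge ‖x‖
      refine tendsto_const_nhds.congr' ?_
      filter_upwards [eventually_ge_atTop B0] with B hBB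
      rw [cut_one (hB0.trans (by exact_mod_cast hBB)), mul_one]
  rw [Metric.tendsto_nhds]
  intro ε hε
  obtain ⟨T, hT0, hT⟩ := htail (ε / (6 * C + 1)) (by positivity)
  obtain ⟨B1, hB1⟩ := exists_nat_ge (max T 1)
  obtain ⟨B, hB3, hB2⟩ := ((Metric.tendsto_nhds.mp hdom (ε / 3) (by positivity)).and (eventually_ge_atTop B1)).exists
  have hBT : max T 1 ≤ (B:ℝ) := hB1.trans (by exact_mod_cast hB2)
  have hBT1 : T ≤ B := (le_max_left _ _).trans hBT
  have hB11 : (1:ℝ) ≤ B := (le_max_right _ _).trans hBT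
  have htl : ∀ x : Fin k → ℝ, |f x - f x * cut (B:ℝ) x| ≤ 2 * C * (if T < ‖x‖ then ‖x‖ ^ 2 else 0) := by
    intro x
    have e1 : f x - f x * cut (B:ℝ) x = f x * (1 - cut (B:ℝ) x) := by ring
    rw [e1, abs_mul, abs_of_nonneg (by linarith [cut_le_one (B:ℝ) x] : 0 ≤ 1 - cut (B:ℝ) x)]
    rcases le_or_gt ‖x‖ B with hx | hx
    · rw [cut_one hx, sub_self, mul_zero]
      split_ifs <;> positivity
    · rw [if_pos (lt_of_le_of_lt hBT1 hx)]
      have h1 : 1 ≤ ‖x‖ := hB11.trans hx.le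
      have h2 : 1 - cut (B:ℝ) x ≤ 1 := by linarith [cut_nonneg (B:ℝ) x]
      have h4 : |f x| ≤ 2 * C * ‖x‖ ^ 2 := by
        refine (hC x).trans ?_
        nlinarith [mul_nonneg hC0 (by nlinarith : (0:ℝ) ≤ ‖x‖ ^ 2 - 1)]
      calc |f x| * (1 - cut (B:ℝ) x) ≤ |f x| * 1 := mul_le_mul_of_nonneg_left h2 (abs_nonneg _)
        _ ≤ _ := by rw [mul_one]; exact h4
  have hbd : ∃ B', ∀ x : Fin k → ℝ, |f x * cut (B:ℝ) x| ≤ B' := by
    refine ⟨C * (1 + ((B:ℝ) + 1) ^ 2), fun x => ?_⟩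
    rw [abs_mul, abs_of_nonneg (cut_nonneg _ x)]
    rcases le_total ‖x‖ ((B:ℝ) + 1) with hx | hx
    · calc |f x| * cut (B:ℝ) x ≤ |f x| * 1 := mul_le_mul_of_nonneg_left (cut_le_one _ x) (abs_nonneg _)
        _ ≤ C * (1 + ‖x‖ ^ 2) := by rw [mul_one]; exact hC x
        _ ≤ _ := by gcongr
    · rw [cut_zero hx, mul_zero]
      positivity
  have h5 := hlaw (fun x => f x * cut (B:ℝ) x) (hf.mul (cut_cont _)) hbd
  filter_upwards [(Metric.tendsto_nhds.mp h5) (ε / 3) (by positivity), hT, eventually_ge_atTop 1] with N h6 h7 hN1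
  have hN0 : (0:ℝ) < N := by exact_mod_cast hN1
  rw [Real.dist_eq] at h6 hB3 ⊢
  have h8 : |(∑ n ∈ Finset.range N, f (X n)) / (N:ℝ) - (∑ n ∈ Finset.range N, f (X n) * cut (B:ℝ) (X n)) / (N:ℝ)| ≤ ε / 3 := by
    rw [← sub_div, ← Finset.sum_sub_distrib, abs_div, abs_of_pos hN0, div_le_iff₀ hN0]
    calc |∑ n ∈ Finset.range N, (f (X n) - f (X n) * cut (B:ℝ) (X n))|
        ≤ ∑ n ∈ Finset.range N, |f (X n) - f (X n) * cut (B:ℝ) (X n)| := Finset.abs_sum_le_sum_abs _ _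
      _ ≤ ∑ n ∈ Finset.range N, 2 * C * (if T < ‖X n‖ then ‖X n‖ ^ 2 else 0) := Finset.sum_le_sum fun n _ => htl _
      _ = 2 * C * ∑ n ∈ Finset.range N, (if T < ‖X n‖ then ‖X n‖ ^ 2 else 0) := by rw [Finset.mul_sum]
      _ ≤ 2 * C * (ε / (6 * C + 1) * N) := by gcongr
      _ ≤ _ := by
          have h9 : 2 * C * (ε / (6 * C + 1)) ≤ ε / 3 := by
            rw [← mul_div_assoc, div_le_div_iff₀ (by positivity) (by norm_num)]
            nlinarith
          nlinarith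
  have e2 : (∑ n ∈ Finset.range N, f (X n)) / (N:ℝ) - ∫ x, f x ∂ν =
      ((∑ n ∈ Finset.range N, f (X n)) / (N:ℝ) - (∑ n ∈ Finset.range N, f (X n) * cut (B:ℝ) (X n)) / (N:ℝ)) +
      ((∑ n ∈ Finset.range N, f (X n) * cut (B:ℝ) (X n)) / (N:ℝ) - ∫ x, f x * cut (B:ℝ) x ∂ν) +
      (∫ x, f x * cut (B:ℝ) x ∂ν - ∫ x, f x ∂ν) := by ring
  rw [e2]
  refine lt_of_le_of_lt (abs_add_three _ _ _) ?_
  linarith

/-- the tails of the second moment -/
lemma tail_of_good {r : ℕ} {q : ℕ → Fin r → ℝ}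
    (h2 : ∀ (i : Fin r), ∀ ε : ℝ, 0 < ε → ∀ᶠ K : ℕ in atTop, ∀ᶠ N : ℕ in atTop,
      ∑ n ∈ Finset.range N, (E (q n i) - U af φ (q n i) K) ^ 2 ≤ ε * N) :
    ∀ ε : ℝ, 0 < ε → ∃ T : ℝ, 0 ≤ T ∧ ∀ᶠ N : ℕ in atTop,
      ∑ n ∈ Finset.range N, (if T < ‖fun i => E (q n i)‖ then ‖fun i => E (q n i)‖ ^ 2 else 0) ≤ ε * N := by
  intro ε hε
  obtain ⟨K, hK⟩ := (eventually_all.mpr fun i => h2 i (ε / (4 * (r + 1))) (by positivity)).exists
  refine ⟨2 * AA af K, by have := AA_nonneg af K; positivity, ?_⟩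
  filter_upwards [eventually_all.mpr hK] with N hN
  have hpt : ∀ n : ℕ, (if 2 * AA af K < ‖fun i => E (q n i)‖ then ‖fun i => E (q n i)‖ ^ 2 else 0) ≤
      ∑ i, 4 * (E (q n i) - U af φ (q n i) K) ^ 2 := by
    intro n
    split_ifs with h
    · have hne : Nonempty (Fin r) := by
        by_contra hcon
        rw [not_nonempty_iff] at hcon
        have h0 : (fun i => E (q n i)) = (0 : Fin r → ℝ) := Subsingleton.elim _ _
        rw [h0, norm_zero] at h
        have := AA_nonneg af K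
        linarith
      obtain ⟨i, hi⟩ := Finite.exists_max fun i => ‖E (q n i)‖
      have h8 : ‖fun i => E (q n i)‖ ≤ ‖E (q n i)‖ := (pi_norm_le_iff_of_nonneg (norm_nonneg _)).mpr hi
      have h9 := abs_U_le' af φ (q n i) K
      rw [Real.norm_eq_abs] at h8
      have h10 : |E (q n i)| ≤ 2 * |E (q n i) - U af φ (q n i) K| := by
        have h11 := abs_sub_abs_le_abs_sub (E (q n i)) (U af φ (q n i) K)
        linarith
      have h12 : ‖fun i => E (q n i)‖ ^ 2 ≤ 4 * (E (q n i) - U af φ (q n i) K) ^ 2 := by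
        calc ‖fun i => E (q n i)‖ ^ 2 ≤ (2 * |E (q n i) - U af φ (q n i) K|) ^ 2 :=
              pow_le_pow_left₀ (norm_nonneg _) (h8.trans h10) 2
          _ = _ := by rw [mul_pow, sq_abs]; norm_num
      exact h12.trans (Finset.single_le_sum (f := fun i => 4 * (E (q n i) - U af φ (q n i) K) ^ 2)
        (fun i _ => by positivity) (Finset.mem_univ i))
    · exact Finset.sum_nonneg fun i _ => by positivity
  calc ∑ n ∈ Finset.range N, (if 2 * AA af K < ‖fun i => E (q n i)‖ then ‖fun i => E (q n i)‖ ^ 2 else 0)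
      ≤ ∑ n ∈ Finset.range N, ∑ i, 4 * (E (q n i) - U af φ (q n i) K) ^ 2 := Finset.sum_le_sum fun n _ => hpt n
    _ = ∑ i, 4 * ∑ n ∈ Finset.range N, (E (q n i) - U af φ (q n i) K) ^ 2 := by
        rw [Finset.sum_comm]
        apply Finset.sum_congr rfl
        intro i _
        rw [Finset.mul_sum]
    _ ≤ ∑ _i : Fin r, 4 * (ε / (4 * (r + 1)) * N) := Finset.sum_le_sum fun i _ => by
        have := hN i
        linarith
    _ = (r / (r + 1)) * ε * N := by
        rw [Finset.sum_const, Finset.card_univ, Fintype.card_fin, nsmul_eq_mul]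
        field_simp
    _ ≤ _ := by
        apply mul_le_mul_of_nonneg_right _ (Nat.cast_nonneg N)
        have h1 : (r:ℝ) / (r + 1) ≤ 1 := by
          rw [div_le_one (by positivity)]
          linarith
        nlinarith

/-- dropping the first terms -/
lemma drop_good {f : ℕ → ℕ → ℝ} (n0 : ℕ)
    (h : ∀ ε : ℝ, 0 < ε → ∀ᶠ K : ℕ in atTop, ∀ᶠ N : ℕ in atTop, ∑ n ∈ Finset.range N, f K (n + n0) ≤ ε * N) :
    ∀ ε : ℝ, 0 < ε → ∀ᶠ K : ℕ in atTop, ∀ᶠ N : ℕ in atTop, ∑ n ∈ Finset.range N, f K n ≤ ε * N := by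
  intro ε hε
  filter_upwards [h (ε / 2) (by positivity)] with K hK
  obtain ⟨N1, hN1⟩ := eventually_atTop.mp hK
  obtain ⟨N2, hN2⟩ := exists_nat_ge ((∑ n ∈ Finset.range n0, f K n) / (ε / 2))
  filter_upwards [eventually_ge_atTop (max (N1 + n0) N2)] with N hN
  have hNn : n0 ≤ N := by omega
  have h1 := hN1 (N - n0) (by omega)
  have h2 : ∑ n ∈ Finset.range N, f K n = ∑ n ∈ Finset.range n0, f K n + ∑ n ∈ Finset.range (N - n0), f K (n + n0) := by
    have e0 : N = n0 + (N - n0) := by omega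
    conv_lhs => rw [e0]
    rw [Finset.sum_range_add]
    congr 1
    apply Finset.sum_congr rfl
    intro n _
    rw [add_comm]
  have h3 : ∑ n ∈ Finset.range n0, f K n ≤ ε / 2 * N := by
    have h4 : (∑ n ∈ Finset.range n0, f K n) / (ε / 2) ≤ N := hN2.trans (by exact_mod_cast (le_max_right _ _).trans hN)
    rw [div_le_iff₀ (by positivity)] at h4
    linarith
  have h5 : ((N - n0 : ℕ) : ℝ) ≤ N := by exact_mod_cast Nat.sub_le N n0
  rw [h2]
  nlinarith

lemma Sx.shift {x : ℕ → ℝ} {δ τ G : ℝ} (hx : Sx x δ τ G) (h : ℝ) :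
    ∃ (n0 : ℕ) (G' : ℝ), Sx (fun n => x (n + n0) + h) δ τ G' := by
  obtain ⟨n0, hn0⟩ := hx.large (|h| + 3)
  have hG : 0 < G := by
    have h1 := hx.grow 0
    have h2 : 0 < x 0 ^ τ := Real.rpow_pos_of_pos (by linarith [hx.three 0]) _
    push_cast at h1
    linarith
  refine ⟨n0, (1 + |h|) * (G * (n0 + 1)), hx.dpos, fun n => ?_, fun n => ?_, hx.tau0, hx.tau1, fun n => ?_⟩
  · show x (n + n0) + h + δ ≤ x (n + 1 + n0) + h
    have h1 := hx.gap (n + n0)
    have e1 : n + 1 + n0 = n + n0 + 1 := by ring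
    rw [e1]; linarith
  · show 3 ≤ x (n + n0) + h
    have h1 := hn0 (n + n0) (by omega)
    have h2 := neg_abs_le h
    linarith
  · show (x (n + n0) + h) ^ τ ≤ _
    have h1 := hn0 (n + n0) (by omega)
    have h2 := neg_abs_le h
    have h3 := le_abs_self h
    have h0 := abs_nonneg h
    have h4 : x (n + n0) + h ≤ (1 + |h|) * x (n + n0) := by nlinarith
    have h5 : (x (n + n0) + h) ^ τ ≤ ((1 + |h|) * x (n + n0)) ^ τ := Real.rpow_le_rpow (by linarith) h4 hx.tau0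
    have h6 : ((1 + |h|) * x (n + n0)) ^ τ = (1 + |h|) ^ τ * x (n + n0) ^ τ :=
      Real.mul_rpow (by linarith) (by linarith)
    have h7 : (1 + |h|) ^ τ ≤ 1 + |h| := by
      calc (1 + |h|) ^ τ ≤ (1 + |h|) ^ (1:ℝ) := Real.rpow_le_rpow_of_exponent_le (by linarith) hx.tau1
        _ = _ := Real.rpow_one _
    have h8 := hx.grow (n + n0)
    have h9 : G * (((n + n0 : ℕ) : ℝ) + 1) ≤ G * (n0 + 1) * ((n:ℝ) + 1) := by
      push_cast
      have g1 : (0:ℝ) ≤ n := Nat.cast_nonneg n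
      have g2 : (0:ℝ) ≤ n0 := Nat.cast_nonneg n0
      have g3 : (n:ℝ) + n0 + 1 ≤ (n0 + 1) * (n + 1) := by nlinarith
      calc G * ((n:ℝ) + n0 + 1) ≤ G * ((n0 + 1) * (n + 1)) := mul_le_mul_of_nonneg_left g3 hG.le
        _ = _ := by ring
    have h10 : 0 < x (n + n0) ^ τ := Real.rpow_pos_of_pos (by linarith) _
    calc (x (n + n0) + h) ^ τ ≤ (1 + |h|) ^ τ * x (n + n0) ^ τ := by rw [← h6]; exact h5
      _ ≤ (1 + |h|) * (G * (n0 + 1) * ((n:ℝ) + 1)) := mul_le_mul h7 (h8.trans h9) h10.le (by linarith)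
      _ = _ := by ring

/-- approximation along shifted sequences -/
theorem good2_shift (hX : Ctx E af φ) {x : ℕ → ℝ} {δ τ G : ℝ} (hx : Sx x δ τ G) (h : ℝ) :
    ∀ᵐ y : ℝ, 1 - τ < y → ∀ ε : ℝ, 0 < ε →
    ∀ᶠ K : ℕ in atTop, ∀ᶠ N : ℕ in atTop,
      ∑ n ∈ Finset.range N, (E ((x n + h) ^ y) - U af φ ((x n + h) ^ y) K) ^ 2 ≤ ε * N := by
  obtain ⟨n0, G', hx'⟩ := hx.shift h
  filter_upwards [good2_all hX hx'] with y hy hy0
  exact drop_good (f := fun K n => (E ((x n + h) ^ y) - U af φ ((x n + h) ^ y) K) ^ 2) n0 (hy hy0)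

/-- the joint law along powers -/
theorem law_k {μ : ProbabilityMeasure ℝ} (hX : Ctx E af φ)
    (hμ : ∀ t : ℝ, Tendsto (fun K => mK af φ K t) atTop (𝓝 (charFun (μ : Measure ℝ) t)))
    {x : ℕ → ℝ} {δ τ G : ℝ} (hx : Sx x δ τ G)
    {r k : ℕ} (h : Fin r → ℝ) (s : Fin r → Fin k) (hinj : ∀ i i', s i = s i' → h i = h i' → i = i') :
    ∀ᵐ c : Fin k → ℝ, (∀ i, ((Finset.univ.filter fun i' => s i' = s i).card : ℝ) < c (s i) + τ) →
      (∀ f : (Fin r → ℝ) → ℝ, Continuous f → (∃ C : ℝ, ∀ x, |f x| ≤ C * (1 + ‖x‖ ^ 2)) →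
        Integrable f (Measure.pi fun _ : Fin r => (μ : Measure ℝ)) ∧
        Tendsto (fun N : ℕ => (∑ n ∈ Finset.range N, f (fun i => E ((x n + h i) ^ (c (s i))))) / (N:ℝ)) atTop
          (𝓝 (∫ x, f x ∂(Measure.pi fun _ : Fin r => (μ : Measure ℝ))))) := by
  have hg : ∀ᵐ c : Fin k → ℝ, ∀ i : Fin r, 1 - τ < c (s i) → ∀ ε : ℝ, 0 < ε →
    ∀ᶠ K : ℕ in atTop, ∀ᶠ N : ℕ in atTop,
      ∑ n ∈ Finset.range N, (E ((x n + h i) ^ (c (s i))) - U af φ ((x n + h i) ^ (c (s i))) K) ^ 2 ≤ ε * N := by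
    rw [ae_all_iff]
    intro i
    exact (Measure.tendsto_eval_ae_ae (μ := fun _ : Fin k => (volume : Measure ℝ)) (i := s i)).eventually
      (good2_shift hX hx (h i))
  filter_upwards [mixed_k hx h s hinj af φ, hg] with c h1 h2 hc f hf hfg
  have h3 : ∀ (i : Fin r), ∀ ε : ℝ, 0 < ε → ∀ᶠ K : ℕ in atTop, ∀ᶠ N : ℕ in atTop,
      ∑ n ∈ Finset.range N, (E ((x n + h i) ^ (c (s i))) - U af φ ((x n + h i) ^ (c (s i))) K) ^ 2 ≤ ε * N := by
    intro i
    apply h2 i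
    have h4 := hc i
    have h5 : (1:ℝ) ≤ ((Finset.univ.filter fun i' => s i' = s i).card : ℝ) := by
      have : 1 ≤ (Finset.univ.filter fun i' => s i' = s i).card := Finset.card_pos.mpr ⟨i, by simp⟩
      exact_mod_cast this
    linarith
  exact quad_conv (X := fun n i => E ((x n + h i) ^ (c (s i))))
    (fun g hg hgb => law_of_char (fun t => charE hμ (q := fun n (i : Fin r) => (x n + h i) ^ (c (s i)))
      (fun p K => h1 hc p K) h3 t) hg hgb) (tail_of_good (q := fun n (i : Fin r) => (x n + h i) ^ (c (s i))) h3) hf hfg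

end Pool.Agent.NH20.NC
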