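import Mathlib
import Pool.Agent.NH20.NC.Mx
import Pool.Agent.R306.GP.IIDa

/-!
General separated sequences; for exponents below one the values at neighbouring points are close; primes.
-/

set_option autoImplicit false

open MeasureTheory Filter Topology Set Real
open Pool.Agent.H383.Gen (U Bd)
open Pool.Agent.Y969.TM
open Pool.Agent.R306.GP

namespace Pool.Agent.NH20.NC

variable {E : ℝ → ℝ} {af : ℕ → ℝ} {φ : ℝ}

/-- general sequences -/
lemma Sx.of {x : ℕ → ℝ} {δ τ G : ℝ} (hδ : 0 < δ) (hgap : ∀ n, x n + δ ≤ x (n + 1)) (hτ0 : 0 ≤ τ) (hτ1 : τ ≤ 1)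
    (hgrow : ∀ᶠ n : ℕ in atTop, x n ^ τ ≤ G * n) : ∃ (n0 : ℕ) (G' : ℝ), Sx (fun n => x (n + n0)) δ τ G' := by
  obtain ⟨n1, hn1⟩ := eventually_atTop.mp hgrow
  have hlow : ∀ n : ℕ, x 0 + δ * n ≤ x n := by
    intro n
    induction n with
    | zero => simp
    | succ n ih =>
      have := hgap n
      push_cast
      linarith
  obtain ⟨n2, hn2⟩ := exists_nat_ge ((3 - x 0) / δ)
  refine ⟨max n1 n2, |G| * ((max n1 n2 : ℕ) + 1), hδ, fun n => ?_, fun n => ?_, hτ0, hτ1, fun n => ?_⟩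
  · show x (n + max n1 n2) + δ ≤ x (n + 1 + max n1 n2)
    have h1 := hgap (n + max n1 n2)
    have e1 : n + 1 + max n1 n2 = n + max n1 n2 + 1 := by ring
    rw [e1]; exact h1
  · show 3 ≤ x (n + max n1 n2)
    have h1 := hlow (n + max n1 n2)
    have h2 : (n2:ℝ) ≤ ((n + max n1 n2 : ℕ) : ℝ) := by
      have : n2 ≤ n + max n1 n2 := by omega
      exact_mod_cast this
    rw [div_le_iff₀ hδ] at hn2
    nlinarith
  · show x (n + max n1 n2) ^ τ ≤ _
    have h1 := hn1 (n + max n1 n2) (by omega)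
    refine h1.trans ?_
    have g1 : (0:ℝ) ≤ n := Nat.cast_nonneg n
    have g2 : (0:ℝ) ≤ ((max n1 n2 : ℕ) : ℝ) := Nat.cast_nonneg _
    have g3 : ((n + max n1 n2 : ℕ) : ℝ) ≤ (((max n1 n2 : ℕ) : ℝ) + 1) * (n + 1) := by push_cast at g2 ⊢; nlinarith
    calc G * ((n + max n1 n2 : ℕ) : ℝ) ≤ |G| * ((n + max n1 n2 : ℕ) : ℝ) :=
          mul_le_mul_of_nonneg_right (le_abs_self G) (Nat.cast_nonneg _)
      _ ≤ |G| * ((((max n1 n2 : ℕ) : ℝ) + 1) * (n + 1)) := mul_le_mul_of_nonneg_left g3 (abs_nonneg _)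
      _ = _ := by ring

/-- everything for one law -/
theorem mainE {μ : ProbabilityMeasure ℝ} (hX : Ctx E af φ)
    (hμ : ∀ t : ℝ, Tendsto (fun K => mK af φ K t) atTop (𝓝 (charFun (μ : Measure ℝ) t)))
    (hat : ∀ x : ℝ, (μ : Measure ℝ) {x} = 0)
    {x : ℕ → ℝ} {δ τ G : ℝ} (hδ : 0 < δ) (hgap : ∀ n, x n + δ ≤ x (n + 1)) (hτ0 : 0 ≤ τ) (hτ1 : τ ≤ 1)
    (hgrow : ∀ᶠ n : ℕ in atTop, x n ^ τ ≤ G * n)
    {r k : ℕ} (h : Fin r → ℝ) (s : Fin r → Fin k) (hinj : ∀ i i', s i = s i' → h i = h i' → i = i') :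
    ∀ᵐ c : Fin k → ℝ, (∀ i, ((Finset.univ.filter fun i' => s i' = s i).card : ℝ) < c (s i) + τ) →
      (∀ f : (Fin r → ℝ) → ℝ, Continuous f → (∃ C : ℝ, ∀ x, |f x| ≤ C * (1 + ‖x‖ ^ 2)) →
        Integrable f (Measure.pi fun _ : Fin r => (μ : Measure ℝ)) ∧
        Tendsto (fun N : ℕ => (∑ n ∈ Finset.range N, f (fun i => E ((x n + h i) ^ (c (s i))))) / (N:ℝ)) atTop
          (𝓝 (∫ x, f x ∂(Measure.pi fun _ : Fin r => (μ : Measure ℝ))))) ∧
      (∀ u : Fin r → ℝ, Tendsto (fun N : ℕ =>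
        (((Finset.range N).filter fun n : ℕ => ∀ i, E ((x n + h i) ^ (c (s i))) ≤ u i).card : ℝ) / N) atTop
          (𝓝 (∏ i, (μ : Measure ℝ).real (Iic (u i))))) := by
  classical
  obtain ⟨n0, G', hx⟩ := Sx.of hδ hgap hτ0 hτ1 hgrow
  filter_upwards [law_k hX hμ hx h s hinj] with c hc hall
  have h1 : ∀ f : (Fin r → ℝ) → ℝ, Continuous f → (∃ C : ℝ, ∀ x, |f x| ≤ C * (1 + ‖x‖ ^ 2)) →
        Integrable f (Measure.pi fun _ : Fin r => (μ : Measure ℝ)) ∧
        Tendsto (fun N : ℕ => (∑ n ∈ Finset.range N, f (fun i => E ((x n + h i) ^ (c (s i))))) / (N:ℝ)) atTop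
          (𝓝 (∫ x, f x ∂(Measure.pi fun _ : Fin r => (μ : Measure ℝ)))) := by
    intro f hf hfg
    obtain ⟨k1, k2⟩ := hc hall f hf hfg
    exact ⟨k1, ces_shift (x := fun n => f (fun i => E ((x n + h i) ^ (c (s i))))) n0 k2⟩
  refine ⟨h1, fun u => ?_⟩
  have h2 := freq_of_law (X := fun (n : ℕ) (i : Fin r) => E ((x n + h i) ^ (c (s i)))) hat (fun g hg hgb => by
    obtain ⟨B, hB⟩ := hgb
    exact (h1 g hg ⟨B, fun x => by
      have h7 := hB x
      have h8 : 0 ≤ B := (abs_nonneg _).trans h7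
      nlinarith [mul_nonneg h8 (sq_nonneg ‖x‖)]⟩).2) u
  convert h2

lemma U_lip (af : ℕ → ℝ) (φ : ℝ) (K : ℕ) (R R' : ℝ) : |U af φ R K - U af φ R' K| ≤ AA af K * (2 * π * K) * |R - R'| := by
  unfold U AA
  rw [← Finset.sum_sub_distrib, Finset.sum_mul, Finset.sum_mul]
  refine (Finset.abs_sum_le_sum_abs _ _).trans (Finset.sum_le_sum fun m hm => ?_)
  rw [← mul_sub, abs_mul, mul_assoc |af m|]
  apply mul_le_mul_of_nonneg_left _ (abs_nonneg _)
  refine (Real.abs_cos_sub_cos_le _ _).trans ?_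
  have e1 : 2 * π * (R * √(m:ℝ)) - φ - (2 * π * (R' * √(m:ℝ)) - φ) = 2 * π * √(m:ℝ) * (R - R') := by ring
  rw [e1, abs_mul, abs_of_nonneg (by positivity : 0 ≤ 2 * π * √(m:ℝ))]
  apply mul_le_mul_of_nonneg_right _ (abs_nonneg _)
  apply mul_le_mul_of_nonneg_left _ (by positivity)
  rw [Finset.mem_Icc] at hm
  have h1 : (m:ℝ) ≤ (K:ℝ) ^ 2 := by exact_mod_cast hm.2
  calc √(m:ℝ) ≤ √((K:ℝ) ^ 2) := Real.sqrt_le_sqrt h1
    _ = K := Real.sqrt_sq (Nat.cast_nonneg K)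

lemma shift_small {x : ℕ → ℝ} (hx : Tendsto x atTop atTop) {c : ℝ} (hc : 0 < c) (hc1 : c < 1) {h : ℝ} (hh0 : 0 ≤ h) :
    Tendsto (fun n : ℕ => (x n + h) ^ c - x n ^ c) atTop (𝓝 0) := by
  have h1 : Tendsto (fun n : ℕ => c * h * x n ^ (-(1 - c))) atTop (𝓝 (c * h * 0)) :=
    ((tendsto_rpow_neg_atTop (by linarith : 0 < 1 - c)).comp hx).const_mul _
  rw [mul_zero] at h1
  have hev := hx.eventually_ge_atTop 1
  refine squeeze_zero' ?_ ?_ h1
  · filter_upwards [hev] with n hn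
    rw [sub_nonneg]
    exact Real.rpow_le_rpow (by linarith) (by linarith) hc.le
  · filter_upwards [hev] with n hn
    have hn0 : 0 < x n := by linarith
    have hh : 0 ≤ h / x n := by positivity
    have e1 : x n + h = x n * (1 + h / x n) := by field_simp
    rw [e1, Real.mul_rpow hn0.le (by positivity)]
    have h2 : (1 + h / x n) ^ c ≤ 1 + c * (h / x n) :=
      rpow_one_add_le_one_add_mul_self (by linarith) hc.le hc1.le
    have h3 : 0 < x n ^ c := Real.rpow_pos_of_pos hn0 c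
    have e2 : x n ^ (-(1 - c)) = x n ^ c / x n := by
      rw [neg_sub, Real.rpow_sub_one hn0.ne']
    rw [e2]
    calc x n ^ c * (1 + h / x n) ^ c - x n ^ c ≤ x n ^ c * (1 + c * (h / x n)) - x n ^ c := by
          have := mul_le_mul_of_nonneg_left h2 h3.le
          linarith
      _ = _ := by field_simp; ring

/-- neighbours for exponents below one -/
theorem near_one (hX : Ctx E af φ) {x : ℕ → ℝ} {δ τ G : ℝ} (hδ : 0 < δ) (hgap : ∀ n, x n + δ ≤ x (n + 1))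
    (hτ0 : 0 ≤ τ) (hτ1 : τ ≤ 1) (hgrow : ∀ᶠ n : ℕ in atTop, x n ^ τ ≤ G * n) {h : ℝ} (hh0 : 0 ≤ h) :
    ∀ᵐ c : ℝ, 1 - τ < c → c < 1 →
    Tendsto (fun N : ℕ => (∑ n ∈ Finset.range N, (E ((x n + h) ^ c) - E (x n ^ c)) ^ 2) / (N:ℝ)) atTop (𝓝 0) := by
  obtain ⟨n0, G', hx⟩ := Sx.of hδ hgap hτ0 hτ1 hgrow
  filter_upwards [good2_shift hX hx h, good2_shift hX hx 0] with c hg hg' hc1 hc2
  have hc0 : 0 < c := by linarith
  refine ces_shift (x := fun n => (E ((x n + h) ^ c) - E (x n ^ c)) ^ 2) n0 ?_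
  set z : ℕ → ℝ := fun n => x (n + n0) with hz
  have hzt : Tendsto z atTop atTop := by
    apply tendsto_atTop_mono (fun n => hx.low n)
    exact tendsto_natCast_atTop_atTop.const_mul_atTop hx.dpos
  rw [Metric.tendsto_nhds]
  intro ε hε
  obtain ⟨K, hK1, hK2⟩ := ((hg hc1 (ε / 12) (by positivity)).and (hg' hc1 (ε / 12) (by positivity))).exists
  have hsm : Tendsto (fun n : ℕ => 3 * (AA af K * (2 * π * K) * ((z n + h) ^ c - z n ^ c)) ^ 2) atTop (𝓝 0) := by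
    have h1 := (((shift_small hzt hc0 hc2 hh0).const_mul (AA af K * (2 * π * K))).pow 2).const_mul 3
    simpa using h1
  have hces := hsm.cesaro
  filter_upwards [hK1, hK2, (Metric.tendsto_nhds.mp hces) (ε / 4) (by positivity), eventually_ge_atTop 1] with N h1 h2 h3 hN1
  have hN0 : (0:ℝ) < N := by exact_mod_cast hN1
  rw [Real.dist_eq, sub_zero] at h3 ⊢
  have h4 := lt_of_le_of_lt (le_abs_self _) h3
  rw [inv_mul_lt_iff₀ hN0] at h4
  have hnn : 0 ≤ ∑ n ∈ Finset.range N, (E ((z n + h) ^ c) - E (z n ^ c)) ^ 2 := Finset.sum_nonneg fun _ _ => sq_nonneg _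
  show |(∑ n ∈ Finset.range N, (E ((z n + h) ^ c) - E (z n ^ c)) ^ 2) / (N:ℝ)| < ε
  rw [abs_of_nonneg (by positivity), div_lt_iff₀ hN0]
  have hpt : ∀ n : ℕ, (E ((z n + h) ^ c) - E (z n ^ c)) ^ 2 ≤
      3 * (E ((z n + h) ^ c) - U af φ ((z n + h) ^ c) K) ^ 2 + 3 * (E ((z n + 0) ^ c) - U af φ ((z n + 0) ^ c) K) ^ 2 +
      3 * (AA af K * (2 * π * K) * ((z n + h) ^ c - z n ^ c)) ^ 2 := by
    intro n
    rw [add_zero]
    have hz3 := hx.three n
    have h5 := U_lip af φ K ((z n + h) ^ c) (z n ^ c)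
    have h6 : (U af φ ((z n + h) ^ c) K - U af φ (z n ^ c) K) ^ 2 ≤ (AA af K * (2 * π * K) * ((z n + h) ^ c - z n ^ c)) ^ 2 := by
      rw [← sq_abs]
      have h7 : 0 ≤ (z n + h) ^ c - z n ^ c := by
        rw [sub_nonneg]
        exact Real.rpow_le_rpow (by simp only [hz]; linarith) (by linarith) hc0.le
      rw [abs_of_nonneg h7] at h5
      exact pow_le_pow_left₀ (abs_nonneg _) h5 2
    set A := E ((z n + h) ^ c)
    set A' := U af φ ((z n + h) ^ c) K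
    set B := E (z n ^ c)
    set B' := U af φ (z n ^ c) K
    nlinarith [sq_nonneg ((A - A') - (A' - B')), sq_nonneg ((A - A') + (B - B')), sq_nonneg ((A' - B') + (B - B'))]
  calc ∑ n ∈ Finset.range N, (E ((z n + h) ^ c) - E (z n ^ c)) ^ 2
      ≤ ∑ n ∈ Finset.range N, (3 * (E ((z n + h) ^ c) - U af φ ((z n + h) ^ c) K) ^ 2 +
        3 * (E ((z n + 0) ^ c) - U af φ ((z n + 0) ^ c) K) ^ 2 +
      3 * (AA af K * (2 * π * K) * ((z n + h) ^ c - z n ^ c)) ^ 2) := Finset.sum_le_sum fun n _ => hpt n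
    _ = 3 * ∑ n ∈ Finset.range N, (E ((z n + h) ^ c) - U af φ ((z n + h) ^ c) K) ^ 2 +
        3 * ∑ n ∈ Finset.range N, (E ((z n + 0) ^ c) - U af φ ((z n + 0) ^ c) K) ^ 2 +
        ∑ n ∈ Finset.range N, 3 * (AA af K * (2 * π * K) * ((z n + h) ^ c - z n ^ c)) ^ 2 := by
        rw [Finset.sum_add_distrib, Finset.sum_add_distrib, ← Finset.mul_sum, ← Finset.mul_sum]
    _ < 3 * (ε / 12 * N) + 3 * (ε / 12 * N) + (N:ℝ) * (ε / 4) := by linarith
    _ < ε * N := by nlinarith [mul_pos hε hN0]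

/-- the growth of the primes -/
lemma prime_grow {τ : ℝ} (hτ1 : τ < 1) : ∀ᶠ n : ℕ in atTop, ((Nat.nth Nat.Prime n : ℕ) : ℝ) ^ τ ≤ 1 * n := by
  have hinf := Nat.infinite_setOfPred_prime
  have hp : Tendsto (fun n : ℕ => ((Nat.nth Nat.Prime n : ℕ) : ℝ)) atTop atTop :=
    tendsto_natCast_atTop_atTop.comp (Nat.nth_strictMono hinf).tendsto_atTop
  -- real inequality for large arguments
  have h1 : ∀ᶠ t : ℝ in atTop, (t ^ τ + 1) * Real.log t + Real.log (t + 1) ≤ t * Real.log 2 := by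
    have hl2 : 0 < Real.log 2 := Real.log_pos (by norm_num)
    set η := (1 - τ) / 2 with hη
    have hη0 : 0 < η := by rw [hη]; linarith
    have e1 : ∀ᶠ t : ℝ in atTop, ‖Real.log t‖ ≤ (Real.log 2 / 4) * ‖t ^ (1 - τ)‖ :=
      (isLittleO_log_rpow_atTop (by linarith : 0 < 1 - τ)).bound (by positivity)
    have e2 : ∀ᶠ t : ℝ in atTop, ‖Real.log t‖ ≤ (Real.log 2 / 8) * ‖t‖ :=
      Real.isLittleO_log_id_atTop.bound (by positivity)
    filter_upwards [e1, e2, eventually_ge_atTop 3] with t h1 h2 ht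
    have ht0 : 0 < t := by linarith
    have hlog := log_ge_one ht
    rw [Real.norm_eq_abs, Real.norm_eq_abs, abs_of_nonneg (by linarith), abs_of_pos (Real.rpow_pos_of_pos ht0 _)] at h1
    rw [Real.norm_eq_abs, Real.norm_eq_abs, abs_of_nonneg (by linarith), abs_of_pos ht0] at h2
    have h3 : Real.log (t + 1) ≤ 2 * Real.log t := by
      have := Real.log_le_log (by linarith : 0 < t + 1) (by nlinarith : t + 1 ≤ t * t)
      rw [Real.log_mul ht0.ne' ht0.ne'] at this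
      linarith
    have h4 : t ^ τ * Real.log t ≤ Real.log 2 / 4 * t := by
      have h5 : 0 < t ^ τ := Real.rpow_pos_of_pos ht0 _
      calc t ^ τ * Real.log t ≤ t ^ τ * (Real.log 2 / 4 * t ^ (1 - τ)) := mul_le_mul_of_nonneg_left h1 h5.le
        _ = Real.log 2 / 4 * (t ^ τ * t ^ (1 - τ)) := by ring
        _ = _ := by
            rw [← Real.rpow_add ht0]
            congr 1
            rw [add_sub_cancel, Real.rpow_one]
    nlinarith
  filter_upwards [hp.eventually h1, hp.eventually_ge_atTop 3] with n hn h3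
  set p := Nat.nth Nat.Prime n with hpd
  have hpn : (p:ℝ) * Real.log 2 - Real.log ((p:ℝ) + 1) ≤ (n + 1) * Real.log p := by
    have h4 := Chebyshev.pi_ge p
    have hlog := log_ge_one h3
    rw [div_le_iff₀ (by linarith)] at h4
    have h5 : Nat.primeCounting p = n + 1 := by
      have h6 : Nat.primeCounting' p = n := by
        rw [Nat.primeCounting', hpd]
        exact Nat.count_nth_of_infinite hinf n
      have hpp : Nat.Prime p := Nat.nth_mem_of_infinite hinf n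
      rw [Nat.primeCounting, Nat.primeCounting', Nat.count_succ]
      rw [Nat.primeCounting'] at h6
      rw [h6, if_pos hpp]
    rw [h5] at h4
    push_cast at h4
    exact h4
  have hlog := log_ge_one h3
  have h7 : ((p:ℝ) ^ τ + 1) * Real.log p ≤ (n + 1) * Real.log p := by linarith
  have h8 := le_of_mul_le_mul_right h7 (by linarith)
  linarith

/-- the primes -/
theorem mainP {μ : ProbabilityMeasure ℝ} (hX : Ctx E af φ)
    (hμ : ∀ t : ℝ, Tendsto (fun K => mK af φ K t) atTop (𝓝 (charFun (μ : Measure ℝ) t)))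
    (hat : ∀ x : ℝ, (μ : Measure ℝ) {x} = 0)
    {r k : ℕ} (h : Fin r → ℝ) (s : Fin r → Fin k) (hinj : ∀ i i', s i = s i' → h i = h i' → i = i') :
    ∀ᵐ c : Fin k → ℝ, (∀ i, ((Finset.univ.filter fun i' => s i' = s i).card : ℝ) < c (s i) + 1) →
      (∀ f : (Fin r → ℝ) → ℝ, Continuous f → (∃ C : ℝ, ∀ x, |f x| ≤ C * (1 + ‖x‖ ^ 2)) →
        Integrable f (Measure.pi fun _ : Fin r => (μ : Measure ℝ)) ∧
        Tendsto (fun N : ℕ => (∑ n ∈ Finset.range N, f (fun i => E (((Nat.nth Nat.Prime n : ℕ) + h i) ^ (c (s i))))) / (N:ℝ)) atTop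
          (𝓝 (∫ x, f x ∂(Measure.pi fun _ : Fin r => (μ : Measure ℝ))))) ∧
      (∀ u : Fin r → ℝ, Tendsto (fun N : ℕ =>
        (((Finset.range N).filter fun n : ℕ => ∀ i, E (((Nat.nth Nat.Prime n : ℕ) + h i) ^ (c (s i))) ≤ u i).card : ℝ) / N) atTop
          (𝓝 (∏ i, (μ : Measure ℝ).real (Iic (u i))))) := by
  have hinf := Nat.infinite_setOfPred_prime
  have hgap : ∀ n : ℕ, ((Nat.nth Nat.Prime n : ℕ) : ℝ) + 1 ≤ ((Nat.nth Nat.Prime (n + 1) : ℕ) : ℝ) := by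
    intro n
    have : Nat.nth Nat.Prime n < Nat.nth Nat.Prime (n + 1) := (Nat.nth_strictMono hinf) (Nat.lt_succ_self n)
    exact_mod_cast this
  have hall : ∀ᵐ c : Fin k → ℝ, ∀ m : ℕ, (∀ i, ((Finset.univ.filter fun i' => s i' = s i).card : ℝ) < c (s i) + (1 - 1 / ((m:ℝ) + 1))) →
      (∀ f : (Fin r → ℝ) → ℝ, Continuous f → (∃ C : ℝ, ∀ x, |f x| ≤ C * (1 + ‖x‖ ^ 2)) →
        Integrable f (Measure.pi fun _ : Fin r => (μ : Measure ℝ)) ∧
        Tendsto (fun N : ℕ => (∑ n ∈ Finset.range N, f (fun i => E (((Nat.nth Nat.Prime n : ℕ) + h i) ^ (c (s i))))) / (N:ℝ)) atTop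
          (𝓝 (∫ x, f x ∂(Measure.pi fun _ : Fin r => (μ : Measure ℝ))))) ∧
      (∀ u : Fin r → ℝ, Tendsto (fun N : ℕ =>
        (((Finset.range N).filter fun n : ℕ => ∀ i, E (((Nat.nth Nat.Prime n : ℕ) + h i) ^ (c (s i))) ≤ u i).card : ℝ) / N) atTop
          (𝓝 (∏ i, (μ : Measure ℝ).real (Iic (u i))))) := by
    rw [ae_all_iff]
    intro m
    have hm0 : (0:ℝ) < (m:ℝ) + 1 := by positivity
    have hm1 : 1 / ((m:ℝ) + 1) ≤ 1 := by
      rw [div_le_one hm0]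
      have : (0:ℝ) ≤ m := Nat.cast_nonneg m
      linarith
    have hm2 : 0 < 1 / ((m:ℝ) + 1) := by positivity
    filter_upwards [mainE hX hμ hat (x := fun n => ((Nat.nth Nat.Prime n : ℕ) : ℝ)) (τ := 1 - 1 / ((m:ℝ) + 1)) (G := 1)
      one_pos hgap (by linarith) (by linarith) (prime_grow (by linarith)) h s hinj] with c hc hcc
    exact hc hcc
  filter_upwards [hall] with c hc hcc
  -- choose m
  have hfin : ∃ m : ℕ, ∀ i, ((Finset.univ.filter fun i' => s i' = s i).card : ℝ) < c (s i) + (1 - 1 / ((m:ℝ) + 1)) := by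
    have h1 : ∀ i, ∀ᶠ m : ℕ in atTop, ((Finset.univ.filter fun i' => s i' = s i).card : ℝ) < c (s i) + (1 - 1 / ((m:ℝ) + 1)) := by
      intro i
      have h2 : Tendsto (fun m : ℕ => c (s i) + (1 - 1 / ((m:ℝ) + 1))) atTop (𝓝 (c (s i) + (1 - 0))) :=
        (tendsto_one_div_add_atTop_nhds_zero_nat.const_sub 1).const_add _
      rw [sub_zero] at h2
      exact h2.eventually (lt_mem_nhds (hcc i))
    exact (eventually_all.mpr h1).exists
  obtain ⟨m, hm⟩ := hfin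
  exact hc m hm

end Pool.Agent.NH20.NC
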