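import Mathlib
import Pool.Agent.NH20.NC.Nr
import Pool.Agent.R306.GP.CircIID

/-!
The circle problem along powers of integers, for almost all exponents.
-/

set_option autoImplicit false

open MeasureTheory Filter Topology Set Real
open Pool.Agent.H383.Gen (U Bd)
open Pool.Agent.Y969.TM
open Pool.Agent.R306.GP
open Pool.Agent.H383.Gauss (En)
open Pool.Agent.H383.Circ (ag ag_Bd ag_zero wg_Wt En_Sand)
open Pool.Agent.R306.Circ (P P_En En_meas iidMain)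

namespace Pool.Agent.NH20.NC.Ci

lemma pj_alpha (a b : ℕ → ℝ) (n : ℕ) (y : ℝ) (j : ℕ) : pj a b n y j = b n * (exp y) ^ (a n) * (exp y) ^ j := by
  unfold pj pt
  rw [← Real.exp_mul, ← Real.exp_nat_mul, show y * a n = a n * y by ring]
  ring

/-- the characteristic functions of the model polynomials tend to that of the law along almost all sequences -/
theorem hmu_of_iid {E : ℝ → ℝ} {af : ℕ → ℝ} {φ : ℝ} {μ : ProbabilityMeasure ℝ} (hX : Ctx E af φ)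
    (h4 : ∀ (a b : ℕ → ℝ) (δ : ℝ), 0 < δ → (∀ n, a n + δ ≤ a (n + 1)) → (∀ n, 0 < b n) → Monotone b →
      ∀ᵐ α : ℝ, 1 < α → ∀ (k : ℕ) (f : (Fin k → ℝ) → ℝ), Continuous f →
          (∃ (C : ℝ) (p : ℕ), ∀ x, |f x| ≤ C * (1 + ‖x‖ ^ p)) →
          Integrable f (Measure.pi fun _ : Fin k => (μ : Measure ℝ)) ∧
          Tendsto (fun N : ℕ => (∑ n ∈ Finset.range N, f (fun j => E (b n * α ^ (a n) * α ^ (j:ℕ)))) / (N:ℝ)) atTop
            (𝓝 (∫ x, f x ∂(Measure.pi fun _ : Fin k => (μ : Measure ℝ))))) (t : ℝ) :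
    Tendsto (fun K => mK af φ K t) atTop (𝓝 (charFun (μ : Measure ℝ) t)) := by
  have hSq : Sq (fun n => (n:ℝ) + 1) (fun _ => 1) 1 :=
    ⟨one_pos, le_rfl, fun n => by
      have : (0:ℝ) ≤ n := Nat.cast_nonneg n
      show 1 ≤ (n:ℝ) + 1
      linarith, fun n => by
      show (n:ℝ) + 1 + 1 ≤ ((n + 1 : ℕ) : ℝ) + 1
      push_cast; linarith, fun _ => one_pos, monotone_const⟩
  have g1 := h4 (fun n => (n:ℝ) + 1) (fun _ => 1) 1 one_pos hSq.gap (fun _ => one_pos) monotone_const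
  have g2 : ∀ᵐ α : ℝ, 1 < α → (∀ (p : ℕ) (K : ℕ),
      Tendsto (fun N : ℕ => (∑ n ∈ Finset.range N, ((U af φ (1 * α ^ ((n:ℝ) + 1) * α ^ 0) K : ℝ) : ℂ) ^ p) / (N:ℂ))
        atTop (𝓝 (ZZ af φ p K))) ∧
      (∀ ε : ℝ, 0 < ε → ∀ᶠ K : ℕ in atTop, ∀ᶠ N : ℕ in atTop,
        ∑ n ∈ Finset.range N, (E (1 * α ^ ((n:ℝ) + 1) * α ^ 0) - U af φ (1 * α ^ ((n:ℝ) + 1) * α ^ 0) K) ^ 2 ≤ ε * N) := by
    apply ae_exp
    filter_upwards [mixed hSq af φ, good2_pos hX hSq] with y h1 h2 hy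
    constructor
    · intro p K
      have h3 := h1 hy 1 (fun _ => p) K
      simp only [Fin.prod_univ_one, pj_alpha] at h3
      exact h3
    · have h3 := h2 hy 0
      simp only [pj_alpha] at h3
      exact h3
  have g3 : ∀ᵐ α ∂(volume.restrict (Ioi (1:ℝ))), (∀ (k : ℕ) (f : (Fin k → ℝ) → ℝ), Continuous f →
          (∃ (C : ℝ) (p : ℕ), ∀ x, |f x| ≤ C * (1 + ‖x‖ ^ p)) →
          Integrable f (Measure.pi fun _ : Fin k => (μ : Measure ℝ)) ∧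
          Tendsto (fun N : ℕ => (∑ n ∈ Finset.range N, f (fun j => E (1 * α ^ ((n:ℝ) + 1) * α ^ (j:ℕ)))) / (N:ℝ)) atTop
            (𝓝 (∫ x, f x ∂(Measure.pi fun _ : Fin k => (μ : Measure ℝ))))) ∧ (∀ (p : ℕ) (K : ℕ),
      Tendsto (fun N : ℕ => (∑ n ∈ Finset.range N, ((U af φ (1 * α ^ ((n:ℝ) + 1) * α ^ 0) K : ℝ) : ℂ) ^ p) / (N:ℂ))
        atTop (𝓝 (ZZ af φ p K))) ∧
      (∀ ε : ℝ, 0 < ε → ∀ᶠ K : ℕ in atTop, ∀ᶠ N : ℕ in atTop,
        ∑ n ∈ Finset.range N, (E (1 * α ^ ((n:ℝ) + 1) * α ^ 0) - U af φ (1 * α ^ ((n:ℝ) + 1) * α ^ 0) K) ^ 2 ≤ ε * N) := by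
    rw [ae_restrict_iff' measurableSet_Ioi]
    filter_upwards [g1, g2] with α ha1 ha2 hα
    exact ⟨ha1 hα, ha2 hα⟩
  have : (ae (volume.restrict (Ioi (1:ℝ)))).NeBot := ae_restrict_neBot.mpr (by simp)
  obtain ⟨α, ha1, ha2, ha3⟩ := g3.exists
  refine mK_conv (E := E) (q := fun n => 1 * α ^ ((n:ℝ) + 1) * α ^ 0) t ha2 ha3 (char_of_law ?_ t)
  intro f hf hfg
  obtain ⟨C, hC⟩ := hfg
  have h6 := (ha1 1 (fun x => f (x 0)) (by fun_prop) ⟨C, 2, fun x => by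
    have h7 := hC (x 0)
    have h8 : |x 0| ≤ ‖x‖ := norm_le_pi_norm x 0
    have hC0 : 0 ≤ C := by
      have h9 := hC 0
      have h10 := abs_nonneg (f 0)
      nlinarith
    have h9 : (x 0) ^ 2 ≤ ‖x‖ ^ 2 := by
      rw [← sq_abs]
      exact pow_le_pow_left₀ (abs_nonneg _) h8 2
    calc |f (x 0)| ≤ C * (1 + (x 0) ^ 2) := h7
      _ ≤ _ := by gcongr⟩).2
  have e5 : ∫ x, f (x 0) ∂(Measure.pi fun _ : Fin 1 => (μ : Measure ℝ)) = ∫ x, f x ∂(μ : Measure ℝ) := by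
    have h9 := (measurePreserving_eval (fun _ : Fin 1 => (μ : Measure ℝ)) 0)
    have h10 := integral_map (f := f) (μ := Measure.pi fun _ : Fin 1 => (μ : Measure ℝ))
      h9.measurable.aemeasurable hf.aestronglyMeasurable
    rw [h9.map_eq] at h10
    exact h10.symm
  rw [e5] at h6
  simpa using h6

/-- **the circle problem along powers** -/
theorem circ_main : ∃ μ : ProbabilityMeasure ℝ, (∀ x : ℝ, (μ : Measure ℝ) {x} = 0) ∧
    (∀ u v : ℝ, u < v → 0 < (μ : Measure ℝ) (Ioo u v)) ∧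
    (∀ x η : ℝ, 0 < η → ∃ R₀ : ℝ, ∀ R : ℝ, R₀ ≤ R → ∀ H : ℝ, R ^ (3 / 4 : ℝ) ≤ H → H ≤ R →
      |volume.real {r : ℝ | R < r ∧ r ≤ R + H ∧ P r ≤ x * √r} - (μ : Measure ℝ).real (Iic x) * H| ≤ η * H) ∧
    (∀ (x : ℕ → ℝ) (δ τ G : ℝ), 0 < δ → (∀ n, x n + δ ≤ x (n + 1)) → 0 ≤ τ → τ ≤ 1 →
      (∀ᶠ n : ℕ in atTop, x n ^ τ ≤ G * n) →
      (∀ (r k : ℕ) (h : Fin r → ℝ) (s : Fin r → Fin k), (∀ i i', s i = s i' → h i = h i' → i = i') →
        ∀ᵐ c : Fin k → ℝ, (∀ i, ((Finset.univ.filter fun i' => s i' = s i).card : ℝ) < c (s i) + τ) →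
          (∀ f : (Fin r → ℝ) → ℝ, Continuous f → (∃ C : ℝ, ∀ x, |f x| ≤ C * (1 + ‖x‖ ^ 2)) →
            Integrable f (Measure.pi fun _ : Fin r => (μ : Measure ℝ)) ∧
            Tendsto (fun N : ℕ => (∑ n ∈ Finset.range N, f (fun i => En ((x n + h i) ^ (c (s i))))) / (N:ℝ)) atTop
              (𝓝 (∫ x, f x ∂(Measure.pi fun _ : Fin r => (μ : Measure ℝ))))) ∧
          (∀ u : Fin r → ℝ, Tendsto (fun N : ℕ =>
            (((Finset.range N).filter fun n : ℕ => ∀ i, En ((x n + h i) ^ (c (s i))) ≤ u i).card : ℝ) / N) atTop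
              (𝓝 (∏ i, (μ : Measure ℝ).real (Iic (u i)))))) ∧
      (∀ h : ℝ, 0 ≤ h → ∀ᵐ c : ℝ, 1 - τ < c → c < 1 → Tendsto (fun N : ℕ =>
        (∑ n ∈ Finset.range N, (En ((x n + h) ^ c) - En (x n ^ c)) ^ 2) / (N:ℝ)) atTop (𝓝 0))) ∧
    (∀ (r k : ℕ) (h : Fin r → ℝ) (s : Fin r → Fin k), (∀ i i', s i = s i' → h i = h i' → i = i') →
      ∀ᵐ c : Fin k → ℝ, (∀ i, ((Finset.univ.filter fun i' => s i' = s i).card : ℝ) < c (s i) + 1) →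
        (∀ f : (Fin r → ℝ) → ℝ, Continuous f → (∃ C : ℝ, ∀ x, |f x| ≤ C * (1 + ‖x‖ ^ 2)) →
          Integrable f (Measure.pi fun _ : Fin r => (μ : Measure ℝ)) ∧
          Tendsto (fun N : ℕ => (∑ n ∈ Finset.range N, f (fun i => En (((Nat.nth Nat.Prime n : ℕ) + h i) ^ (c (s i))))) / (N:ℝ)) atTop
            (𝓝 (∫ x, f x ∂(Measure.pi fun _ : Fin r => (μ : Measure ℝ))))) ∧
        (∀ u : Fin r → ℝ, Tendsto (fun N : ℕ =>
          (((Finset.range N).filter fun n : ℕ => ∀ i, En (((Nat.nth Nat.Prime n : ℕ) + h i) ^ (c (s i))) ≤ u i).card : ℝ) / N) atTop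
            (𝓝 (∏ i, (μ : Measure ℝ).real (Iic (u i)))))) := by
  obtain ⟨μ, h1, h2, h3, h4⟩ := iidMain
  obtain ⟨C0, hC0, hS⟩ := En_Sand
  have hX := Ctx.of ag_Bd ag_zero wg_Wt hC0 hS En_meas
  have hμ := hmu_of_iid hX (μ := μ) (fun a b δ hδ hgap hb hmono => by
    filter_upwards [h4 a b δ hδ hgap hb hmono] with α hα hα1
    exact (hα hα1).1)
  exact ⟨μ, h1, h2, h3, fun x δ τ G hδ hgap hτ0 hτ1 hgrow =>
    ⟨fun r k h s hinj => mainE hX hμ h1 hδ hgap hτ0 hτ1 hgrow h s hinj,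
      fun h hh => near_one hX hδ hgap hτ0 hτ1 hgrow hh⟩, fun r k h s hinj => mainP hX hμ h1 h s hinj⟩

end Pool.Agent.NH20.NC.Ci
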